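import Mathlib

/-!
# Chip-firing on simple digraphs

Basic definitions and the reformulation of termination as effectiveness of a divisor class.
-/

namespace Pool.Agent.H418R2.Chip

open Finset

variable {V : Type} [Fintype V] [DecidableEq V]

/-- The out-degree of the vertex `v` in the digraph whose arcs are the pairs `(u, w)` with
`A u w = true`. -/
def outdeg (A : V → V → Bool) (v : V) : ℤ := ∑ w, if A v w then 1 else 0

/-- The Laplacian (row `w`, column `v`). -/
def lap (A : V → V → Bool) (w v : V) : ℤ :=
  if w = v then outdeg A v else if A v w then -1 else 0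

/-- The distribution obtained from `x` by firing the vertex `v`. -/
def fire (A : V → V → Bool) (x : V → ℤ) (v : V) : V → ℤ := fun w => x w - lap A w v

/-- Firing `v` at `x` is legal: the count at `v` remains nonnegative after the move. -/
def Legal (A : V → V → Bool) (x : V → ℤ) (v : V) : Prop := 0 ≤ fire A x v v

/-- `x` is terminating: there is no infinite legal game from `x`. -/
def Terminating (A : V → V → Bool) (x : V → ℤ) : Prop :=
  ¬ ∃ X : ℕ → V → ℤ, X 0 = x ∧ ∀ i, ∃ v, Legal A (X i) v ∧ X (i + 1) = fire A (X i) v

/-- The state after firing every vertex `v` exactly `g v` times. -/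
def after (A : V → V → Bool) (x : V → ℤ) (g : V → ℕ) : V → ℤ :=
  fun w => x w - ∑ v, lap A w v * (g v : ℤ)

theorem fire_after (A : V → V → Bool) (x : V → ℤ) (g : V → ℕ) (u : V) :
    fire A (after A x g) u = after A x (fun v => g v + if v = u then 1 else 0) := by
  funext w
  simp only [fire, after]
  push_cast
  simp only [mul_add, Finset.sum_add_distrib, mul_ite, mul_one, mul_zero, Finset.sum_ite_eq',
    Finset.mem_univ, if_true]
  ring

theorem legal_iff (A : V → V → Bool) (x : V → ℤ) (v : V) : Legal A x v ↔ outdeg A v ≤ x v := by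
  simp [Legal, fire, lap]

theorem least_action (A : V → V → Bool) (x : V → ℤ) (f : V → ℕ)
    (hf : ∀ w, after A x f w < outdeg A w) (g : V → ℕ) (hg : ∀ v, g v ≤ f v) (u : V)
    (hu : Legal A (after A x g) u) : g u < f u := by
  by_contra hne
  have he : g u = f u := le_antisymm (hg u) (not_lt.1 hne)
  rw [legal_iff] at hu
  have h1 : after A x g u ≤ after A x f u := by
    simp only [after]
    have : ∑ v, lap A u v * (f v : ℤ) ≤ ∑ v, lap A u v * (g v : ℤ) := by
      apply Finset.sum_le_sum
      intro v _
      by_cases hv : u = v
      · subst hv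
        rw [he]
      · have h2 : lap A u v ≤ 0 := by
          simp only [lap, hv, if_false]
          split_ifs <;> norm_num
        have h3 : (g v : ℤ) ≤ f v := by exact_mod_cast hg v
        nlinarith
    linarith
  have := hf u
  linarith

/-- Termination means that some nonnegative firing script stabilises. -/
theorem terminating_iff (A : V → V → Bool) (x : V → ℤ) :
    Terminating A x ↔ ∃ f : V → ℕ, ∀ w, after A x f w < outdeg A w := by
  classical
  constructor
  · intro ht
    by_contra hne
    push Not at hne
    choose u hu using hne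
    let G : ℕ → V → ℕ := fun n => Nat.rec (fun _ => 0)
      (fun _ g => fun v => g v + if v = u g then 1 else 0) n
    apply ht
    refine ⟨fun i => after A x (G i), ?_, fun i => ⟨u (G i), ?_, ?_⟩⟩
    · funext w
      simp [after, G]
    · rw [legal_iff]
      exact hu (G i)
    · rw [fire_after]
  · rintro ⟨f, hf⟩ ⟨X, hX0, hX⟩
    choose u hu hX' using hX
    let G : ℕ → V → ℕ := fun n => Nat.rec (fun _ => 0)
      (fun n g => fun v => g v + if v = u n then 1 else 0) n
    have hG0 : ∀ v, G 0 v = 0 := fun v => rfl
    have hGs : ∀ n v, G (n + 1) v = G n v + if v = u n then 1 else 0 := fun n v => rfl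
    have key : ∀ n, X n = after A x (G n) ∧ (∀ v, G n v ≤ f v) ∧ ∑ v, G n v = n := by
      intro n
      induction n with
      | zero =>
        refine ⟨?_, fun v => by rw [hG0]; exact Nat.zero_le _, by simp [hG0]⟩
        funext w
        simp [after, hG0, hX0]
      | succ n ih =>
        obtain ⟨h1, h2, h3⟩ := ih
        refine ⟨?_, ?_, ?_⟩
        · rw [hX', h1, fire_after]
        · intro v
          rw [hGs]
          by_cases hv : v = u n
          · subst hv
            have := least_action A x f hf (G n) h2 (u n) (by rw [← h1]; exact hu n)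
            simp only [if_true]
            omega
          · simp only [hv, if_false, add_zero]
            exact h2 v
        · simp only [hGs, Finset.sum_add_distrib, h3, Finset.sum_ite_eq', Finset.mem_univ, if_true]
    have h1 := (key (∑ v, f v + 1)).2.2
    have h2 : ∑ v, G (∑ v, f v + 1) v ≤ ∑ v, f v :=
      Finset.sum_le_sum fun v _ => (key (∑ v, f v + 1)).2.1 v
    omega

section Connected

/-- Strong connectivity. -/
def StronglyConnected (A : V → V → Bool) : Prop :=
  ∀ u v, Relation.ReflTransGen (fun a b => A a b = true) u v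

theorem lap_colSum (A : V → V → Bool) (hA : ∀ v, A v v = false) (v : V) :
    ∑ w, lap A w v = 0 := by
  have h : ∀ w, lap A w v = (if w = v then outdeg A v else 0) - (if A v w then 1 else 0) := by
    intro w
    by_cases hw : w = v
    · subst hw
      simp [lap, hA]
    · simp only [lap, hw, if_false]
      split_ifs <;> norm_num
  simp only [h, Finset.sum_sub_distrib, Finset.sum_ite_eq', Finset.mem_univ, if_true]
  simp [outdeg]

theorem lap_mul_eq (A : V → V → Bool) (hA : ∀ v, A v v = false) (f : V → ℤ) (w : V) :
    ∑ v, lap A w v * f v = outdeg A w * f w - ∑ v, if A v w then f v else 0 := by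
  have h : ∀ v, lap A w v * f v =
      (if w = v then outdeg A v * f v else 0) - (if A v w then f v else 0) := by
    intro v
    by_cases hv : w = v
    · subst hv
      simp [lap, hA]
    · simp only [lap, hv, if_false]
      split_ifs <;> ring
  simp only [h, Finset.sum_sub_distrib, Finset.sum_ite_eq, Finset.mem_univ, if_true]

theorem exists_pos_kernel [Nonempty V] (A : V → V → Bool) (hA : ∀ v, A v v = false)
    (hc : StronglyConnected A) :
    ∃ p : V → ℕ, (∀ v, 0 < p v) ∧ ∀ w, ∑ v, lap A w v * (p v : ℤ) = 0 := by
  have hdet : (Matrix.of (lap A)).det = 0 := by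
    rw [← Matrix.exists_vecMul_eq_zero_iff]
    refine ⟨fun _ => 1, ?_, ?_⟩
    · intro h
      have := congrFun h (Classical.arbitrary V)
      simp at this
    · funext v
      simp only [Matrix.vecMul, dotProduct, Matrix.of_apply, one_mul, Pi.zero_apply]
      exact lap_colSum A hA v
  rw [← Matrix.exists_mulVec_eq_zero_iff] at hdet
  obtain ⟨p, hp0, hp⟩ := hdet
  have hp1 : ∀ w, ∑ v, lap A w v * p v = 0 := by
    intro w
    have := congrFun hp w
    simpa [Matrix.mulVec, dotProduct] using this
  have hod : ∀ v, 0 ≤ outdeg A v := fun v => Finset.sum_nonneg fun w _ => by split_ifs <;> norm_num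
  -- the absolute value is in the kernel too
  have h1 : ∀ w, outdeg A w * |p w| ≤ ∑ v, if A v w then |p v| else 0 := by
    intro w
    have h2 := hp1 w
    rw [lap_mul_eq A hA] at h2
    have h3 : outdeg A w * p w = ∑ v, if A v w then p v else 0 := by linarith
    calc outdeg A w * |p w| = |outdeg A w * p w| := by rw [abs_mul, abs_of_nonneg (hod w)]
      _ = |∑ v, if A v w then p v else 0| := by rw [h3]
      _ ≤ ∑ v, |if A v w then p v else 0| := Finset.abs_sum_le_sum_abs _ _
      _ = ∑ v, if A v w then |p v| else 0 := by
        apply Finset.sum_congr rfl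
        intro v _
        split_ifs <;> simp
  have h2 : ∑ w, ∑ v, (if A v w then |p v| else 0) = ∑ w, outdeg A w * |p w| := by
    rw [Finset.sum_comm]
    apply Finset.sum_congr rfl
    intro v _
    rw [outdeg, Finset.sum_mul]
    apply Finset.sum_congr rfl
    intro w _
    split_ifs <;> simp
  have h3 : ∀ w, outdeg A w * |p w| = ∑ v, if A v w then |p v| else 0 := by
    have := (Finset.sum_eq_sum_iff_of_le (s := Finset.univ) (fun w _ => h1 w)).1 h2.symm
    exact fun w => this w (Finset.mem_univ w)
  refine ⟨fun v => (p v).natAbs, ?_, ?_⟩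
  · -- positivity
    intro v
    by_contra hv
    have hv0 : p v = 0 := by
      have : (p v).natAbs = 0 := Nat.eq_zero_of_not_pos hv
      exact Int.natAbs_eq_zero.1 this
    have hback : ∀ u, Relation.ReflTransGen (fun a b => A a b = true) u v → p u = 0 := by
      intro u hu
      induction hu using Relation.ReflTransGen.head_induction_on with
      | refl => exact hv0
      | @head a c hab _ ih =>
        have h4 := h3 c
        rw [ih, abs_zero, mul_zero] at h4
        have h5 := (Finset.sum_eq_zero_iff_of_nonneg (s := Finset.univ)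
          (fun v _ => by split_ifs <;> simp)).1 h4.symm a (Finset.mem_univ a)
        simpa [hab] using h5
    apply hp0
    funext u
    exact hback u (hc u v)
  · intro w
    rw [lap_mul_eq A hA]
    have := h3 w
    simp only [Int.natCast_natAbs]
    linarith

end Connected

/-- A system of elements of an abelian group compatible with all firing moves. -/
def Rel (A : V → V → Bool) {Q : Type} [AddCommGroup Q] (c : V → Q) : Prop :=
  ∀ u, outdeg A u • c u = ∑ w, if A u w then c w else 0

theorem Rel.sum_lap {A : V → V → Bool} (hA : ∀ v, A v v = false) {Q : Type} [AddCommGroup Q]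
    {c : V → Q} (h : Rel A c) (f : V → ℤ) : ∑ w, (∑ v, lap A w v * f v) • c w = 0 := by
  simp only [Finset.sum_smul]
  rw [Finset.sum_comm]
  apply Finset.sum_eq_zero
  intro v _
  have h1 : ∀ w, (lap A w v * f v) • c w =
      f v • ((if w = v then outdeg A v • c v else 0) - (if A v w then c w else 0)) := by
    intro w
    rw [mul_comm, mul_smul]
    congr 1
    by_cases hw : w = v
    · subst hw
      simp [lap, hA]
    · simp only [lap, hw, if_false]
      split_ifs <;> simp
  simp only [h1]
  rw [← Finset.smul_sum, Finset.sum_sub_distrib, Finset.sum_ite_eq' Finset.univ v]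
  simp only [Finset.mem_univ, if_true]
  rw [h v, sub_self, smul_zero]

/-- A vector annihilated by all compatible systems is in the image of the Laplacian. -/
theorem exists_lap_of_rel {A : V → V → Bool} (hA : ∀ v, A v v = false) (a : V → ℤ)
    (h : ∀ (Q : Type) [AddCommGroup Q] (c : V → Q), Rel A c → ∑ u, a u • c u = 0) :
    ∃ f : V → ℤ, ∀ w, a w = ∑ v, lap A w v * f v := by
  let R : Submodule ℤ (V → ℤ) := LinearMap.range (Matrix.mulVecLin (Matrix.of (lap A)))
  have h1 := h ((V → ℤ) ⧸ R) (fun u => R.mkQ (Pi.single u 1)) (by
    intro u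
    rw [← sub_eq_zero]
    have h2 : outdeg A u • R.mkQ (Pi.single u 1) -
        ∑ w, (if A u w then R.mkQ (Pi.single w (1 : ℤ)) else 0) =
        R.mkQ (Matrix.mulVecLin (Matrix.of (lap A)) (Pi.single u 1)) := by
      have h3 : Matrix.mulVecLin (Matrix.of (lap A)) (Pi.single u 1) =
          outdeg A u • Pi.single u (1 : ℤ) -
            ∑ w, (if A u w then Pi.single w (1 : ℤ) else 0) := by
        funext w
        simp only [Matrix.mulVecLin_apply, Matrix.mulVec_single_one, Matrix.col_apply,
          Matrix.of_apply, Pi.sub_apply, Pi.smul_apply, Finset.sum_apply, smul_eq_mul]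
        have h4 : ∀ c, (if A u c then (Pi.single c (1 : ℤ) : V → ℤ) else 0) w =
            if w = c then (if A u w then 1 else 0) else 0 := by
          intro c
          by_cases hwc : w = c
          · subst hwc
            by_cases hA : A u w <;> simp [hA]
          · by_cases hA : A u c <;> simp [hA, hwc]
        simp only [h4, Finset.sum_ite_eq, Finset.mem_univ, if_true]
        by_cases hw : w = u
        · subst hw
          simp [lap, hA]
        · simp [lap, hw]
          split_ifs <;> simp
      rw [h3, map_sub, map_smul, map_sum]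
      congr 1
      apply Finset.sum_congr rfl
      intro w _
      split_ifs <;> simp
    rw [h2]
    exact (Submodule.Quotient.mk_eq_zero R).2 ⟨_, rfl⟩)
  have h5 : R.mkQ a = 0 := by
    rw [← h1]
    simp only [← map_smul]
    rw [← map_sum]
    congr 1
    funext w
    simp [Finset.sum_apply, Pi.single_apply]
  rw [Submodule.mkQ_apply, Submodule.Quotient.mk_eq_zero] at h5
  obtain ⟨f, hf⟩ := h5
  refine ⟨f, fun w => ?_⟩
  have := congrFun hf w
  simp only [Matrix.mulVecLin_apply, Matrix.mulVec, dotProduct, Matrix.of_apply] at this
  exact this.symm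

/-- On strongly connected simple digraphs, termination of `x` means that the class of
`outdeg - 1 - x` contains an effective divisor. -/
theorem terminating_iff_class [Nonempty V] {A : V → V → Bool} (hA : ∀ v, A v v = false)
    (hc : StronglyConnected A) (x : V → ℤ) :
    Terminating A x ↔ ∃ y : V → ℕ, ∀ (Q : Type) [AddCommGroup Q] (c : V → Q), Rel A c →
      ∑ u, (outdeg A u - 1 - x u) • c u = ∑ u, y u • c u := by
  rw [terminating_iff]
  constructor
  · rintro ⟨f, hf⟩
    refine ⟨fun w => (outdeg A w - 1 - after A x f w).toNat, ?_⟩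
    intro Q _ c hcr
    have h1 : ∀ w, (((outdeg A w - 1 - after A x f w).toNat : ℕ) : ℤ) =
        (outdeg A w - 1 - x w) + ∑ v, lap A w v * (f v : ℤ) := by
      intro w
      rw [Int.toNat_of_nonneg (by have := hf w; omega)]
      simp only [after]
      ring
    have h2 : ∑ u, (outdeg A u - 1 - after A x f u).toNat • c u =
        ∑ u, ((outdeg A u - 1 - x u) + ∑ v, lap A u v * (f v : ℤ)) • c u := by
      apply Finset.sum_congr rfl
      intro u _
      rw [← h1, natCast_zsmul]
    rw [h2]
    simp only [add_smul, Finset.sum_add_distrib]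
    rw [hcr.sum_lap hA (fun v => (f v : ℤ)), add_zero]
  · rintro ⟨y, hy⟩
    obtain ⟨f, hf⟩ := exists_lap_of_rel hA (fun u => (y u : ℤ) - (outdeg A u - 1 - x u)) (by
      intro Q _ c hcr
      simp only [sub_smul, Finset.sum_sub_distrib]
      rw [← hy Q c hcr |>.trans (Finset.sum_congr rfl fun u _ => (natCast_zsmul (c u) (y u)).symm)]
      simp only [sub_smul, Finset.sum_sub_distrib]
      abel)
    obtain ⟨p, hp0, hp⟩ := exists_pos_kernel A hA hc
    obtain ⟨t, ht⟩ : ∃ t : ℕ, ∀ v, 0 ≤ f v + t * p v := by
      refine ⟨∑ v, (f v).natAbs, fun v => ?_⟩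
      have h1 : (f v).natAbs ≤ ∑ v, (f v).natAbs :=
        Finset.single_le_sum (f := fun v => (f v).natAbs) (fun _ _ => Nat.zero_le _)
          (Finset.mem_univ v)
      have h2 : ((f v).natAbs : ℤ) ≤ ((∑ v, (f v).natAbs : ℕ) : ℤ) * p v := by
        have h3 : 1 ≤ p v := hp0 v
        have : (f v).natAbs ≤ (∑ v, (f v).natAbs) * p v := h1.trans (Nat.le_mul_of_pos_right _ h3)
        exact_mod_cast this
      have h4 : -((f v).natAbs : ℤ) ≤ f v := by omega
      linarith
    refine ⟨fun v => (f v + t * p v).toNat, fun w => ?_⟩
    simp only [after]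
    have h6 : ∑ v, lap A w v * (((f v + t * p v).toNat : ℕ) : ℤ) =
        ∑ v, lap A w v * f v := by
      have : ∀ v, lap A w v * (((f v + t * p v).toNat : ℕ) : ℤ) =
          lap A w v * f v + t * (lap A w v * p v) := by
        intro v
        rw [Int.toNat_of_nonneg (ht v)]
        ring
      simp only [this, Finset.sum_add_distrib]
      rw [← Finset.mul_sum, hp w, mul_zero, add_zero]
    rw [h6, ← hf w]
    have : (0 : ℤ) ≤ y w := Int.natCast_nonneg _
    linarith

end Pool.Agent.H418R2.Chip
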