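import Pool.Agent.H418R2.ChipGraph
import Pool.Agent.H632R2.X3C

/-!
# The chip-firing halting problem on simple digraphs is NP-hard
-/

namespace Pool.Agent.H418R2.Chip

open Finset Pool.Agent.NPC Pool.Agent.NPC.H632

/-- An instance: a finite simple digraph on the vertices `0, ..., n - 1` (`adj u v = true` if and
only if there is an arc from `u` to `v`; there are no loops and, automatically, no parallel arcs),
and a chip distribution. -/
structure Inst where
  n : ℕ
  adj : Fin n → Fin n → Bool
  loopless : ∀ v, adj v v = false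
  chips : Fin n → ℤ

/-- An instance as a list: for every vertex the number of chips and the row of the adjacency
matrix. -/
def Inst.toList (I : Inst) : List (ℤ × List Bool) :=
  List.ofFn (fun v => (I.chips v, List.ofFn (fun w => I.adj v w)))

theorem Inst.toList_injective : Function.Injective Inst.toList := by
  rintro ⟨n, A, hA, x⟩ ⟨n', A', hA', x'⟩ h
  have hn : n = n' := by
    have := congrArg List.length h
    simpa [Inst.toList] using this
  subst hn
  unfold Inst.toList at h
  have h1 := List.ofFn_injective h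
  have h2 : x = x' := by
    funext v
    exact congrArg Prod.fst (congrFun h1 v)
  have h3 : A = A' := by
    funext v w
    have h4 := congrArg Prod.snd (congrFun h1 v)
    exact congrFun (List.ofFn_injective h4) w
  subst h2 h3
  rfl

/-- Instances are encoded through `Inst.toList`; in particular the numbers of chips are written in
binary. -/
instance : TEnc Inst := ⟨fun I => toT I.toList, fun _ _ h => Inst.toList_injective (TEnc.inj h)⟩

/-- The chip-firing halting problem for simple digraphs. -/
def Halting (I : Inst) : Prop := Terminating I.adj I.chips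

/-! ### Transport along bijections -/

section Equiv

variable {V V' : Type} [Fintype V] [DecidableEq V] [Fintype V'] [DecidableEq V']

theorem lap_equiv (e : V' ≃ V) (A : V → V → Bool) (a b : V') :
    lap (fun a b => A (e a) (e b)) a b = lap A (e a) (e b) := by
  have h : outdeg (fun a b => A (e a) (e b)) b = outdeg A (e b) := by
    unfold outdeg
    exact Equiv.sum_comp e (fun w => if A (e b) w = true then (1 : ℤ) else 0)
  unfold lap
  rw [h]
  simp [e.injective.eq_iff]

theorem terminating_equiv_aux (e : V' ≃ V) (A : V → V → Bool) (x : V → ℤ)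
    (h : Terminating A x) : Terminating (fun a b => A (e a) (e b)) (fun a => x (e a)) := by
  rintro ⟨X, hX0, hX⟩
  apply h
  refine ⟨fun i v => X i (e.symm v), ?_, fun i => ?_⟩
  · funext v
    simp [hX0]
  · obtain ⟨v, hv, hs⟩ := hX i
    refine ⟨e v, ?_, ?_⟩
    · unfold Legal fire at hv ⊢
      rw [lap_equiv] at hv
      simpa using hv
    · funext w
      simp only [hs, fire, lap_equiv, Equiv.apply_symm_apply]

theorem terminating_equiv (e : V' ≃ V) (A : V → V → Bool) (x : V → ℤ) :
    Terminating (fun a b => A (e a) (e b)) (fun a => x (e a)) ↔ Terminating A x := by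
  constructor
  · intro h
    have := terminating_equiv_aux e.symm _ _ h
    simpa using this
  · exact terminating_equiv_aux e A x

omit [Fintype V] [DecidableEq V] [Fintype V'] [DecidableEq V'] in
theorem stronglyConnected_equiv (e : V' ≃ V) (A : V → V → Bool) (h : StronglyConnected A) :
    StronglyConnected (fun a b => A (e a) (e b)) := by
  intro a b
  have h1 := h (e a) (e b)
  have h2 : ∀ v, Relation.ReflTransGen (fun a b => A a b = true) (e a) v →
      Relation.ReflTransGen (fun a b => A (e a) (e b) = true) a (e.symm v) := by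
    intro v hv
    induction hv with
    | refl => simp [Relation.ReflTransGen.refl]
    | tail _ hbc ih => exact ih.tail (by simpa using hbc)
  simpa using h2 _ h1

end Equiv

/-! ### The reduction from exact cover by 3-sets -/

/-- Membership of `j` in the `i`-th triple. -/
def memT (S : List (ℕ × ℕ × ℕ)) (i j : ℕ) : Bool :=
  decide (j = (S.getD i (0, 0, 0)).1) || (decide (j = (S.getD i (0, 0, 0)).2.1) ||
    decide (j = (S.getD i (0, 0, 0)).2.2))

/-- The list of all vertex codes. -/
def verts (K N : ℕ) : List (ℕ × ℕ) :=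
  [(0, 0)] ++ ((List.range K).map (fun j => (1, j)) ++ ((List.range N).map (fun i => (2, i)) ++
    (List.range N).map (fun i => (3, i))))

theorem verts_nodup (K N : ℕ) : (verts K N).Nodup := by
  unfold verts
  have inj : ∀ k : ℕ, Function.Injective (fun j : ℕ => (k, j)) := fun k a b h => by
    simpa using h
  have nd : ∀ k n : ℕ, ((List.range n).map (fun j : ℕ => (k, j))).Nodup := fun k n =>
    List.nodup_range.map (inj k)
  rw [List.nodup_append', List.nodup_append', List.nodup_append']
  refine ⟨by simp, ⟨nd 1 K, ⟨nd 2 N, nd 3 N, ?_⟩, ?_⟩, ?_⟩ <;>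
  · intro a ha hb
    simp only [List.mem_map, List.mem_append, List.mem_cons, List.not_mem_nil, or_false] at ha hb
    aesop

theorem mem_verts (K N : ℕ) (a : ℕ × ℕ) : a ∈ verts K N ↔ ∃ u : W K N, code u = a := by
  unfold verts
  simp only [List.mem_append, List.mem_cons, List.not_mem_nil, or_false, List.mem_map,
    List.mem_range]
  constructor
  · rintro (rfl | ⟨j, hj, rfl⟩ | ⟨j, hj, rfl⟩ | ⟨j, hj, rfl⟩)
    · exact ⟨Sum.inl (), rfl⟩
    · exact ⟨Sum.inr (Sum.inl ⟨j, hj⟩), rfl⟩
    · exact ⟨Sum.inr (Sum.inr (Sum.inl ⟨j, hj⟩)), rfl⟩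
    · exact ⟨Sum.inr (Sum.inr (Sum.inr ⟨j, hj⟩)), rfl⟩
  · rintro ⟨u | j | j | j, rfl⟩
    · exact Or.inl rfl
    · exact Or.inr (Or.inl ⟨j, j.2, rfl⟩)
    · exact Or.inr (Or.inr (Or.inl ⟨j, j.2, rfl⟩))
    · exact Or.inr (Or.inr (Or.inr ⟨j, j.2, rfl⟩))

theorem code_injective {K N : ℕ} : Function.Injective (code : W K N → ℕ × ℕ) := by
  rintro (u | j | j | j) (u' | j' | j' | j') h <;> simp only [code, Prod.mk.injEq] at h
  all_goals first
    | rfl
    | (exfalso; omega)
    | (have := Fin.ext h.2; rw [this])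

/-- The number of chips on a vertex. -/
def chipC (q : ℕ) (a : ℕ × ℕ) : ℕ :=
  bif decide (a.1 = 0) then 5 * q + 1 else bif decide (a.1 = 1) then
    (bif decide (a.2 < 3 * q) then 0 else 1) else bif decide (a.1 = 2) then 3 * q - 1 else 3

theorem adjC_loopless {K N : ℕ} (hK : 2 ≤ K) (mem : ℕ → ℕ → Bool) {a : ℕ × ℕ}
    (ha : a ∈ verts K N) : adjC K N mem a a = false := by
  obtain ⟨u, rfl⟩ := (mem_verts K N a).1 ha
  exact adjW_loopless K N hK mem u

/-- The instance for given sizes and a given family. -/
def mkI (k N : ℕ) (S : List (ℕ × ℕ × ℕ)) : Inst where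
  n := (verts (3 * k + 2) N).length
  adj a b := adjC (3 * k + 2) N (memT S) ((verts (3 * k + 2) N)[a]) ((verts (3 * k + 2) N)[b])
  loopless a := adjC_loopless (by omega) _ (List.getElem_mem _)
  chips a := (chipC k ((verts (3 * k + 2) N)[a]) : ℕ)

/-- The instance produced by the reduction. -/
def red (I : List (ℕ × ℕ × ℕ) × ℕ) : Inst := mkI (min I.2 I.1.length) I.1.length I.1

theorem good_memT {I : List (ℕ × ℕ × ℕ) × ℕ} (hI : X3CPr I) :
    Good (3 * I.2 + 2) I.1.length (memT I.1) ∧ ∀ i < I.1.length, ∀ j, memT I.1 i j → j < 3 * I.2 := by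
  obtain ⟨h1, h2, h3⟩ := hI
  have hlt : ∀ i < I.1.length, ∀ j, memT I.1 i j → j < 3 * I.2 := by
    intro i hi j hj
    have hm : I.1.getD i (0, 0, 0) ∈ I.1 := by
      rw [List.getD_eq_getElem _ _ hi]
      exact List.getElem_mem _
    have h4 := (h1 _ hm).2 j
    apply h4
    simpa [memT, el] using hj
  refine ⟨⟨by omega, by omega, fun i hi j hj => by have := hlt i hi j hj; omega, ?_⟩, hlt⟩
  intro i hi
  have hm : I.1.getD i (0, 0, 0) ∈ I.1 := by
    rw [List.getD_eq_getElem _ _ hi]
    exact List.getElem_mem _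
  have h4 := h1 _ hm
  rw [← Finset.sum_filter, Finset.sum_const, smul_eq_mul, mul_one]
  have h5 : (range (3 * I.2 + 2)).filter (fun j => memT I.1 i j = true) =
      (el (I.1.getD i (0, 0, 0))).toFinset := by
    ext j
    simp only [mem_filter, mem_range, List.mem_toFinset]
    constructor
    · rintro ⟨_, h⟩
      simpa [memT, el] using h
    · intro h
      exact ⟨by have := h4.2 j h; omega, by simpa [memT, el] using h⟩
  rw [h5, List.toFinset_card_of_nodup h4.1]
  rfl

/-- Weights on the positions of the list versus exact covers. -/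
theorem cover_iff {I : List (ℕ × ℕ × ℕ) × ℕ} (hI : X3CPr I) :
    X3C I ↔ ∃ y : ℕ → ℕ, ∀ j < 3 * I.2,
      ∑ i ∈ range I.1.length, (if memT I.1 i j then y i else 0) = 1 := by
  classical
  have hmem : ∀ i j, memT I.1 i j = true ↔ j ∈ el (I.1.getD i (0, 0, 0)) := by
    intro i j
    simp [memT, el]
  have hS : ∀ i < I.1.length, I.1.getD i (0, 0, 0) ∈ I.1 := by
    intro i hi
    rw [List.getD_eq_getElem _ _ hi]
    exact List.getElem_mem _
  rw [X3C_iff_finset hI]
  constructor
  · rintro ⟨C, hC, hu⟩
    let y : ℕ → ℕ := fun i => if I.1.getD i (0, 0, 0) ∈ C ∧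
      I.1.idxOf (I.1.getD i (0, 0, 0)) = i then 1 else 0
    refine ⟨y, fun j hj => ?_⟩
    obtain ⟨t, ⟨htC, hjt⟩, huniq⟩ := hu j hj
    have hidx : I.1.idxOf t < I.1.length := List.idxOf_lt_length_iff.2 (hC t htC)
    have hget : I.1.getD (I.1.idxOf t) (0, 0, 0) = t := by
      rw [List.getD_eq_getElem _ _ hidx]
      exact List.getElem_idxOf hidx
    rw [Finset.sum_eq_single (I.1.idxOf t)]
    · rw [if_pos ((hmem _ _).2 (by rw [hget]; exact hjt))]
      simp only [y, hget]
      rw [if_pos ⟨htC, trivial⟩]
    · intro i hi hne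
      by_cases hm : memT I.1 i j = true
      · rw [if_pos hm]
        simp only [y]
        rw [if_neg]
        rintro ⟨h1, h2⟩
        have h3 := huniq _ ⟨h1, (hmem _ _).1 hm⟩
        rw [h3] at h2
        exact hne h2.symm
      · rw [if_neg hm]
    · intro h
      exact absurd (mem_range.2 hidx) h
  · rintro ⟨y, hy⟩
    let C : Finset (ℕ × ℕ × ℕ) := ((range I.1.length).filter (fun i => 0 < y i)).image
      (fun i => I.1.getD i (0, 0, 0))
    refine ⟨C, ?_, ?_⟩
    · intro t ht
      obtain ⟨i, hi, rfl⟩ := Finset.mem_image.1 ht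
      rw [mem_filter, mem_range] at hi
      exact hS i hi.1
    · intro j hj
      have h1 := hy j hj
      obtain ⟨i, hi, hne⟩ : ∃ i ∈ range I.1.length, (if memT I.1 i j then y i else 0) ≠ 0 := by
        by_contra hcon
        push Not at hcon
        rw [Finset.sum_eq_zero hcon] at h1
        omega
      have hmi : memT I.1 i j = true := by
        by_contra h
        rw [if_neg h] at hne
        exact hne rfl
      rw [if_pos hmi] at hne
      refine ⟨I.1.getD i (0, 0, 0), ⟨Finset.mem_image.2 ⟨i, mem_filter.2 ⟨hi, by omega⟩, rfl⟩,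
        (hmem _ _).1 hmi⟩, ?_⟩
      rintro t' ⟨ht', hjt'⟩
      obtain ⟨i', hi', rfl⟩ := Finset.mem_image.1 ht'
      rw [mem_filter] at hi'
      by_cases hii : i' = i
      · rw [hii]
      · exfalso
        have hmi' := (hmem _ _).2 hjt'
        have h2 : ∑ k ∈ ({i, i'} : Finset ℕ), (if memT I.1 k j then y k else 0) ≤
            ∑ i ∈ range I.1.length, (if memT I.1 i j then y i else 0) :=
          Finset.sum_le_sum_of_subset (by
            intro k hk
            rcases Finset.mem_insert.1 hk with rfl | hk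
            · exact hi
            · rw [Finset.mem_singleton] at hk
              rw [hk]
              exact hi'.1)
        rw [Finset.sum_pair (Ne.symm hii), if_pos hmi, if_pos hmi', h1] at h2
        have := hi'.2
        omega

theorem red_spec {I : List (ℕ × ℕ × ℕ) × ℕ} (hI : X3CPr I) :
    (X3C I ↔ Halting (red I)) ∧ StronglyConnected (red I).adj ∧ ∀ v, 0 ≤ (red I).chips v := by
  have hmin : min I.2 I.1.length = I.2 := min_eq_left hI.2.2
  obtain ⟨hg, hlt⟩ := good_memT hI
  unfold red
  rw [hmin]
  obtain ⟨e, he⟩ := R671.exists_equiv (V := W (3 * I.2 + 2) I.1.length)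
    (verts (3 * I.2 + 2) I.1.length)
    (verts_nodup _ _) code code_injective (fun z => mem_verts _ _ z)
  have hadj : (mkI I.2 I.1.length I.1).adj =
      fun a b => adjW (3 * I.2 + 2) I.1.length (memT I.1) (e a) (e b) := by
    funext a b
    simp only [mkI, adjW]
    rw [he a, he b]
  have hchips : (mkI I.2 I.1.length I.1).chips = fun a => chips (3 * I.2 + 2) I.2 (e a) := by
    funext a
    have h1 : (mkI I.2 I.1.length I.1).chips a = ((chipC I.2 (code (e a)) : ℕ) : ℤ) := by
      simp only [mkI]
      rw [he a]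
    rw [h1]
    have hq : 1 ≤ I.2 := hI.2.1
    rcases e a with u | j | i | i
    · simp only [chipC, code, chips, asm]
      simp
      ring
    · simp only [chipC, code, chips, asm]
      by_cases hj : (j : ℕ) < 3 * I.2 <;> simp [hj]
    · simp only [chipC, code, chips, asm]
      simp
      omega
    · simp [chipC, code, chips, asm]
  refine ⟨?_, ?_, fun v => by simp only [mkI]; exact Int.natCast_nonneg _⟩
  · rw [cover_iff hI, ← terminating_iff_cover hg I.2 (by omega) hlt]
    unfold Halting
    rw [hadj, hchips]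
    exact (terminating_equiv e _ _).symm
  · rw [hadj]
    exact stronglyConnected_equiv e _ (stronglyConnected hg)

/-! ### The reduction is computable in polynomial time -/

theorem mkI_toList (k N : ℕ) (S : List (ℕ × ℕ × ℕ)) : (mkI k N S).toList =
    (verts (3 * k + 2) N).map (fun a => (((chipC k a : ℕ) : ℤ),
      (verts (3 * k + 2) N).map (fun b => adjC (3 * k + 2) N (memT S) a b))) := by
  unfold Inst.toList mkI
  apply List.ext_getElem
  · simp
  · intro i h1 h2
    simp only [List.getElem_ofFn, List.getElem_map]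
    rw [Prod.mk.injEq]
    refine ⟨rfl, ?_⟩
    apply List.ext_getElem
    · simp
    · intro j h3 h4
      simp

theorem poly_nsucc {α : Type} [TEnc α] {m : α → ℕ} (hm : Poly m) :
    Poly (fun a => Nat.succ (m a)) := Poly.succ hm

attribute [local fun_prop] poly_nsucc

theorem poly_verts {α : Type} [TEnc α] {K N : α → ℕ} (hK : UPoly K) (hN : UPoly N) :
    Poly (fun a => verts (K a) (N a)) := by
  unfold verts
  have h1 := hK.range
  have h2 := hN.range
  fun_prop

theorem poly_chipC {α : Type} [TEnc α] {k : α → ℕ} {a : α → ℕ × ℕ} (hk : Poly k) (ha : Poly a) :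
    Poly (fun x => chipC (k x) (a x)) := by
  unfold chipC
  fun_prop

theorem poly_memT {α : Type} [TEnc α] {S : α → List (ℕ × ℕ × ℕ)} {i j : α → ℕ} (hS : Poly S)
    (hi : Poly i) (hj : Poly j) : Poly (fun x => memT (S x) (i x) (j x)) := by
  have h : Poly (fun x => (S x).getD (i x) (0, 0, 0)) := NPC.Poly.getD hS hi (NPC.Poly.const _)
  unfold memT
  fun_prop

theorem poly_adjC {α : Type} [TEnc α] {K N : α → ℕ} {S : α → List (ℕ × ℕ × ℕ)} {a b : α → ℕ × ℕ}
    (hK : Poly K) (hN : Poly N) (hS : Poly S) (ha : Poly a) (hb : Poly b) :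
    Poly (fun x => adjC (K x) (N x) (memT (S x)) (a x) (b x)) := by
  have h1 : Poly (fun x => memT (S x) (a x).2 (b x).2) := poly_memT hS (NPC.Poly.snd ha) (NPC.Poly.snd hb)
  have h2 : Poly (fun x => memT (S x) (a x).2 ((b x).2 - 2)) :=
    poly_memT hS (NPC.Poly.snd ha) (NPC.Poly.sub (NPC.Poly.snd hb) (NPC.Poly.const 2))
  unfold adjC
  fun_prop

theorem poly_red : Poly red := by
  have hN : UPoly (fun I : List (ℕ × ℕ × ℕ) × ℕ => I.1.length) :=
    UPoly.length (NPC.Poly.fst NPC.Poly.id)
  have hk : UPoly (fun I : List (ℕ × ℕ × ℕ) × ℕ => min I.2 I.1.length) :=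
    UPoly.of_le (by fun_prop) hN (fun I => min_le_right _ _)
  have hK : UPoly (fun I : List (ℕ × ℕ × ℕ) × ℕ => 3 * min I.2 I.1.length + 2) :=
    UPoly.add (UPoly.mul (UPoly.const 3) hk) (UPoly.const 2)
  have hv := poly_verts hK hN
  have key : Poly (fun I : List (ℕ × ℕ × ℕ) × ℕ =>
      (verts (3 * min I.2 I.1.length + 2) I.1.length).map (fun a =>
        (((chipC (min I.2 I.1.length) a : ℕ) : ℤ),
          (verts (3 * min I.2 I.1.length + 2) I.1.length).map (fun b =>
            adjC (3 * min I.2 I.1.length + 2) I.1.length (memT I.1) a b)))) := by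
    refine NPC.Poly.map (F := fun (I : List (ℕ × ℕ × ℕ) × ℕ) (a : ℕ × ℕ) =>
      (((chipC (min I.2 I.1.length) a : ℕ) : ℤ),
        (verts (3 * min I.2 I.1.length + 2) I.1.length).map (fun b =>
          adjC (3 * min I.2 I.1.length + 2) I.1.length (memT I.1) a b))) hv ?_
    refine NPC.Poly.pair (NPC.Poly.natCast_int (poly_chipC (hk.toPoly.comp (NPC.Poly.fst NPC.Poly.id))
      (NPC.Poly.snd NPC.Poly.id))) ?_
    refine NPC.Poly.map (l := fun p : (List (ℕ × ℕ × ℕ) × ℕ) × (ℕ × ℕ) =>
        verts (3 * min p.1.2 p.1.1.length + 2) p.1.1.length)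
      (F := fun (p : (List (ℕ × ℕ × ℕ) × ℕ) × (ℕ × ℕ)) (b : ℕ × ℕ) =>
        adjC (3 * min p.1.2 p.1.1.length + 2) p.1.1.length (memT p.1.1) p.2 b)
      (hv.comp (NPC.Poly.fst NPC.Poly.id)) ?_
    exact poly_adjC (hK.toPoly.comp (NPC.Poly.fst (NPC.Poly.fst NPC.Poly.id)))
      (hN.toPoly.comp (NPC.Poly.fst (NPC.Poly.fst NPC.Poly.id))) (NPC.Poly.fst (NPC.Poly.fst (NPC.Poly.fst NPC.Poly.id)))
      (NPC.Poly.snd (NPC.Poly.fst NPC.Poly.id)) (NPC.Poly.snd NPC.Poly.id)
  exact (NPC.Poly.toT' key).congr fun I => by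
    rw [red, ← mkI_toList]

/-- The chip-firing halting problem for simple digraphs is `NP`-hard, also when restricted to
strongly connected digraphs and nonnegative distributions. -/
theorem hardPr_halting :
    HardPr (fun I : Inst => StronglyConnected I.adj ∧ ∀ v, 0 ≤ I.chips v) Halting :=
  hardPr_X3C.trans poly_red (fun _ hI => (red_spec hI).2) (fun _ hI => (red_spec hI).1)

end Pool.Agent.H418R2.Chip
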