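import Mathlib

/-!
# Sums of few powers of two modulo `2 ^ K - 1`
-/

namespace Pool.Agent.H418R2

open Finset

theorem sum_range_two_pow (K : ℕ) : ∑ j ∈ range K, 2 ^ j = 2 ^ K - 1 := by
  have := Nat.geomSum_eq (m := 2) le_rfl K
  simpa using this

theorem two_pow_succ_mod (K j : ℕ) (hj : j < K) :
    2 ^ (j + 1) ≡ 2 ^ ((j + 1) % K) [MOD 2 ^ K - 1] := by
  by_cases h : j + 1 < K
  · rw [Nat.mod_eq_of_lt h]
  · have h1 : j + 1 = K := by omega
    rw [h1, Nat.mod_self, pow_zero]
    have h2 : 1 ≤ 2 ^ K := Nat.one_le_two_pow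
    have h3 : 2 ^ K = (2 ^ K - 1) + 1 := by omega
    conv_lhs => rw [h3]
    exact Nat.add_modEq_left

/-- If at most `|U|` powers `2 ^ j` with `j < K` have the same sum modulo `2 ^ K - 1` as the powers
with exponents in `U`, then they are exactly these. -/
theorem merge (K : ℕ) (U : Finset ℕ) (hU : ∀ j ∈ U, j < K) (hcard : U.card < K) :
    ∀ (n : ℕ) (c : ℕ → ℕ), ∑ j ∈ range K, c j = n → n ≤ U.card →
      ∑ j ∈ range K, c j * 2 ^ j ≡ ∑ j ∈ U, 2 ^ j [MOD 2 ^ K - 1] →
      ∀ j < K, c j = if j ∈ U then 1 else 0 := by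
  intro n
  induction n using Nat.strong_induction_on with
  | _ n ih =>
  intro c hn hnU hmod
  have hUsub : U ⊆ range K := fun j hj => mem_range.2 (hU j hj)
  by_cases hall : ∀ j < K, c j ≤ 1
  · -- all multiplicities are at most one
    let W := (range K).filter (fun j => c j = 1)
    have hc : ∀ j < K, c j = if j ∈ W then 1 else 0 := by
      intro j hj
      have := hall j hj
      by_cases h1 : c j = 1
      · simp [W, h1, hj]
      · simp only [W, mem_filter, mem_range, h1, and_false, if_false]
        omega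
    have hs1 : ∑ j ∈ range K, c j * 2 ^ j = ∑ j ∈ W, 2 ^ j := by
      rw [← Finset.sum_filter_add_sum_filter_not (range K) (fun j => c j = 1)]
      have e1 : ∑ j ∈ (range K).filter (fun j => c j = 1), c j * 2 ^ j = ∑ j ∈ W, 2 ^ j := by
        apply Finset.sum_congr rfl
        intro j hj
        rw [mem_filter] at hj
        rw [hj.2, one_mul]
      have e2 : ∑ j ∈ (range K).filter (fun j => ¬ c j = 1), c j * 2 ^ j = 0 := by
        apply Finset.sum_eq_zero
        intro j hj
        rw [mem_filter, mem_range] at hj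
        have := hall j hj.1
        have : c j = 0 := by omega
        rw [this, zero_mul]
      rw [e1, e2, add_zero]
    have hWsub : W ⊆ range K := filter_subset _ _
    have hcardW : ∑ j ∈ range K, c j = W.card := by
      have : ∑ j ∈ range K, c j = ∑ j ∈ range K, if j ∈ W then 1 else 0 :=
        Finset.sum_congr rfl fun j hj => hc j (mem_range.1 hj)
      rw [this, Finset.sum_ite_mem, Finset.inter_eq_right.2 hWsub]
      simp
    rw [hs1] at hmod
    have hWle : ∑ j ∈ W, 2 ^ j ≤ 2 ^ K - 1 := by
      rw [← sum_range_two_pow]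
      exact Finset.sum_le_sum_of_subset hWsub
    have hinj := Finset.geomSum_injective (n := 2) le_rfl
    have hKne : U ≠ range K := by
      rintro rfl
      simp at hcard
    have hWne : W ≠ range K := by
      intro h
      rw [h, card_range] at hcardW
      omega
    have hUlt : ∑ j ∈ U, 2 ^ j < 2 ^ K - 1 := by
      rw [← sum_range_two_pow]
      refine lt_of_le_of_ne (Finset.sum_le_sum_of_subset hUsub) fun h => hKne (hinj h)
    have hWlt : ∑ j ∈ W, 2 ^ j < 2 ^ K - 1 := by
      rw [← sum_range_two_pow]
      refine lt_of_le_of_ne (Finset.sum_le_sum_of_subset hWsub) fun h => hWne (hinj h)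
    have h1 := Nat.ModEq.eq_of_lt_of_lt hmod hWlt hUlt
    have h2 : W = U := hinj h1
    intro j hj
    rw [hc j hj, h2]
  · -- merge two equal powers
    exfalso
    push Not at hall
    obtain ⟨j, hj, hcj⟩ := hall
    set j' := (j + 1) % K with hj'
    have hj'K : j' < K := Nat.mod_lt _ (by omega)
    let c' : ℕ → ℕ := fun i => (c i + if i = j' then 1 else 0) - (if i = j then 2 else 0)
    have hc' : ∀ i, c' i + (if i = j then 2 else 0) = c i + (if i = j' then 1 else 0) := by
      intro i
      simp only [c']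
      by_cases hi : i = j
      · subst hi
        simp only [if_true]
        omega
      · simp [hi]
    have s1 : ∑ i ∈ range K, c' i + 2 = ∑ i ∈ range K, c i + 1 := by
      have := Finset.sum_congr rfl (fun i (_ : i ∈ range K) => hc' i)
      simp only [Finset.sum_add_distrib, Finset.sum_ite_eq', mem_range, hj, hj'K, if_true] at this
      exact this
    have s2 : ∑ i ∈ range K, c' i * 2 ^ i + 2 * 2 ^ j =
        ∑ i ∈ range K, c i * 2 ^ i + 2 ^ j' := by
      have := Finset.sum_congr rfl (fun i (_ : i ∈ range K) => congrArg (· * 2 ^ i) (hc' i))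
      simp only [add_mul, ite_mul, zero_mul, one_mul, Finset.sum_add_distrib,
        Finset.sum_ite_eq', mem_range, hj, hj'K, if_true] at this
      exact this
    have h3 : ∑ i ∈ range K, c' i * 2 ^ i ≡ ∑ j ∈ U, 2 ^ j [MOD 2 ^ K - 1] := by
      have h4 : ∑ i ∈ range K, c' i * 2 ^ i + 2 * 2 ^ j ≡ ∑ j ∈ U, 2 ^ j + 2 * 2 ^ j
          [MOD 2 ^ K - 1] := by
        rw [s2]
        refine Nat.ModEq.add hmod ?_
        have := two_pow_succ_mod K j hj
        rw [pow_succ, mul_comm] at this
        exact this.symm
      exact Nat.ModEq.add_right_cancel' _ h4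
    have h5 := ih (n - 1) (by omega) c' (by omega) (by omega) h3
    have h6 : ∑ i ∈ range K, c' i = U.card := by
      have : ∑ i ∈ range K, c' i = ∑ i ∈ range K, if i ∈ U then 1 else 0 :=
        Finset.sum_congr rfl fun i hi => h5 i (mem_range.1 hi)
      rw [this, Finset.sum_ite_mem, Finset.inter_eq_right.2 hUsub]
      simp
    omega

end Pool.Agent.H418R2
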