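import Pool.Agent.H418R2.Chip
import Pool.Agent.H418R2.Merge

/-!
# The digraph of a family of triples

Vertices (as codes in `ℕ × ℕ`): `z = (0, 0)`, `v_j = (1, j)` for `j < K`, `t_i = (2, i)` and
`w_i = (3, i)` for `i < N`.  Arcs: `z → v_j`; `v_j → v_{j+1}, z` for `j + 1 < K`;
`v_{K-1} → v_0, t_0`; `t_i → w_i` and `t_i → v_j` for `j` not in the `i`-th set; `w_i → v_{j+2}` for
`j` in the `i`-th set and `w_i → t_{i+1}` (where `t_N` is `z`).
-/

namespace Pool.Agent.H418R2.Chip

open Finset

/-- Adjacency between vertex codes. -/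
def adjC (K N : ℕ) (mem : ℕ → ℕ → Bool) (a b : ℕ × ℕ) : Bool :=
  bif decide (a.1 = 0) then decide (b.1 = 1)
  else bif decide (a.1 = 1) then
    (bif decide (a.2 + 1 < K) then
      (decide (b.1 = 0) || (decide (b.1 = 1) && decide (b.2 = a.2 + 1)))
    else ((decide (b.1 = 1) && decide (b.2 = 0)) || (decide (b.1 = 2) && decide (b.2 = 0))))
  else bif decide (a.1 = 2) then
    ((decide (b.1 = 3) && decide (b.2 = a.2)) || (decide (b.1 = 1) && !(mem a.2 b.2)))
  else ((decide (b.1 = 1) && (decide (2 ≤ b.2) && mem a.2 (b.2 - 2))) ||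
    ((decide (b.1 = 2) && decide (b.2 = a.2 + 1)) || (decide (b.1 = 0) && decide (a.2 + 1 = N))))

/-- The vertices. -/
abbrev W (K N : ℕ) : Type := Unit ⊕ Fin K ⊕ Fin N ⊕ Fin N

/-- The code of a vertex. -/
def code {K N : ℕ} : W K N → ℕ × ℕ
  | Sum.inl _ => (0, 0)
  | Sum.inr (Sum.inl j) => (1, j)
  | Sum.inr (Sum.inr (Sum.inl i)) => (2, i)
  | Sum.inr (Sum.inr (Sum.inr i)) => (3, i)

/-- The digraph. -/
def adjW (K N : ℕ) (mem : ℕ → ℕ → Bool) (a b : W K N) : Bool := adjC K N mem (code a) (code b)

/-- Assemble a function on the vertices. -/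
def asm {K N : ℕ} {Q : Type} (Z : Q) (v t w : ℕ → Q) : W K N → Q
  | Sum.inl _ => Z
  | Sum.inr (Sum.inl j) => v j
  | Sum.inr (Sum.inr (Sum.inl i)) => t i
  | Sum.inr (Sum.inr (Sum.inr i)) => w i

section Adj

variable (K N : ℕ) (mem : ℕ → ℕ → Bool)

theorem adj_zz (u u' : Unit) : adjW K N mem (Sum.inl u) (Sum.inl u') = false := rfl
theorem adj_zv (u : Unit) (j : Fin K) : adjW K N mem (Sum.inl u) (Sum.inr (Sum.inl j)) = true := rfl
theorem adj_zt (u : Unit) (i : Fin N) :
    adjW K N mem (Sum.inl u) (Sum.inr (Sum.inr (Sum.inl i))) = false := rfl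
theorem adj_zw (u : Unit) (i : Fin N) :
    adjW K N mem (Sum.inl u) (Sum.inr (Sum.inr (Sum.inr i))) = false := rfl
theorem adj_vz (j : Fin K) (u : Unit) :
    adjW K N mem (Sum.inr (Sum.inl j)) (Sum.inl u) = true ↔ (j : ℕ) + 1 < K := by
  by_cases h : (j : ℕ) + 1 < K <;> simp [adjW, adjC, code, h]
theorem adj_vv (j j' : Fin K) :
    adjW K N mem (Sum.inr (Sum.inl j)) (Sum.inr (Sum.inl j')) = true ↔
      ((j : ℕ) + 1 < K ∧ (j' : ℕ) = j + 1) ∨ (¬ (j : ℕ) + 1 < K ∧ (j' : ℕ) = 0) := by
  by_cases h : (j : ℕ) + 1 < K <;> simp [adjW, adjC, code, h] <;> exact decide_eq_true_iff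
theorem adj_vt (j : Fin K) (i : Fin N) :
    adjW K N mem (Sum.inr (Sum.inl j)) (Sum.inr (Sum.inr (Sum.inl i))) = true ↔
      ¬ (j : ℕ) + 1 < K ∧ (i : ℕ) = 0 := by
  by_cases h : (j : ℕ) + 1 < K
  · simp [adjW, adjC, code, h]
  · simp [adjW, adjC, code, h] <;> exact decide_eq_true_iff
theorem adj_vw (j : Fin K) (i : Fin N) :
    adjW K N mem (Sum.inr (Sum.inl j)) (Sum.inr (Sum.inr (Sum.inr i))) = false := by
  by_cases h : (j : ℕ) + 1 < K <;> simp [adjW, adjC, code, h]
theorem adj_tz (i : Fin N) (u : Unit) :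
    adjW K N mem (Sum.inr (Sum.inr (Sum.inl i))) (Sum.inl u) = false := rfl
theorem adj_tv (i : Fin N) (j : Fin K) :
    adjW K N mem (Sum.inr (Sum.inr (Sum.inl i))) (Sum.inr (Sum.inl j)) = true ↔
      mem i j = false := by
  cases h : mem i j <;> simp [adjW, adjC, code, h]
theorem adj_tt (i i' : Fin N) :
    adjW K N mem (Sum.inr (Sum.inr (Sum.inl i))) (Sum.inr (Sum.inr (Sum.inl i'))) = false := rfl
theorem adj_tw (i i' : Fin N) :
    adjW K N mem (Sum.inr (Sum.inr (Sum.inl i))) (Sum.inr (Sum.inr (Sum.inr i'))) = true ↔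
      i' = i := by
  simp [adjW, adjC, code, Fin.ext_iff] <;> exact decide_eq_true_iff
theorem adj_wz (i : Fin N) (u : Unit) :
    adjW K N mem (Sum.inr (Sum.inr (Sum.inr i))) (Sum.inl u) = true ↔ (i : ℕ) + 1 = N := by
  simp [adjW, adjC, code] <;> exact decide_eq_true_iff
theorem adj_wv (i : Fin N) (j : Fin K) :
    adjW K N mem (Sum.inr (Sum.inr (Sum.inr i))) (Sum.inr (Sum.inl j)) = true ↔
      2 ≤ (j : ℕ) ∧ mem i (j - 2) = true := by
  simp [adjW, adjC, code] <;> exact fun _ => decide_eq_true_iff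
theorem adj_wt (i i' : Fin N) :
    adjW K N mem (Sum.inr (Sum.inr (Sum.inr i))) (Sum.inr (Sum.inr (Sum.inl i'))) = true ↔
      (i' : ℕ) = i + 1 := by
  simp [adjW, adjC, code] <;> exact decide_eq_true_iff
theorem adj_ww (i i' : Fin N) :
    adjW K N mem (Sum.inr (Sum.inr (Sum.inr i))) (Sum.inr (Sum.inr (Sum.inr i'))) = false := by
  simp [adjW, adjC, code]

end Adj

theorem adjW_loopless (K N : ℕ) (hK : 2 ≤ K) (mem : ℕ → ℕ → Bool) (a : W K N) :
    adjW K N mem a a = false := by
  rcases a with _ | j | i | i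
  · rfl
  · rw [Bool.eq_false_iff, ne_eq, adj_vv]
    omega
  · rfl
  · exact adj_ww K N mem i i

section Sums

variable {K N : ℕ} {Q : Type} [AddCommMonoid Q] (mem : ℕ → ℕ → Bool) (Z : Q) (v t w : ℕ → Q)

theorem sum_asm (g : W K N → Q) : ∑ a, g a = g (Sum.inl ()) + ((∑ j, g (Sum.inr (Sum.inl j))) +
    ((∑ i, g (Sum.inr (Sum.inr (Sum.inl i)))) + ∑ i, g (Sum.inr (Sum.inr (Sum.inr i))))) := by
  simp [Fintype.sum_sum_type]

theorem sum_fin_eq {n : ℕ} (g : ℕ → Q) (m : ℕ) (hm : m < n) :
    ∑ j : Fin n, (if (j : ℕ) = m then g j else 0) = g m := by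
  rw [Finset.sum_eq_single (⟨m, hm⟩ : Fin n)]
  · simp
  · intro b _ hb
    rw [if_neg]
    intro h
    exact hb (Fin.ext h)
  · simp

theorem sum_z : ∑ a : W K N, (if adjW K N mem (Sum.inl ()) a then asm Z v t w a else 0) =
    ∑ j ∈ range K, v j := by
  rw [sum_asm]
  simp [adj_zz, adj_zv, adj_zt, adj_zw, asm, Finset.sum_range]

theorem sum_v_lt (j : Fin K) (hj : (j : ℕ) + 1 < K) :
    ∑ a : W K N, (if adjW K N mem (Sum.inr (Sum.inl j)) a then asm Z v t w a else 0) =
      v (j + 1) + Z := by
  rw [sum_asm]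
  simp only [adj_vz, adj_vv, adj_vt, adj_vw, asm, hj, true_and, not_true, false_and, or_false,
    if_true, if_false, Finset.sum_const_zero, add_zero, Bool.false_eq_true]
  rw [sum_fin_eq v _ hj, add_comm]

theorem sum_v_last (hK : 0 < K) (hN : 0 < N) (j : Fin K) (hj : ¬ (j : ℕ) + 1 < K) :
    ∑ a : W K N, (if adjW K N mem (Sum.inr (Sum.inl j)) a then asm Z v t w a else 0) =
      v 0 + t 0 := by
  rw [sum_asm]
  simp only [adj_vz, adj_vv, adj_vt, adj_vw, asm, hj, true_and, not_false_iff, false_and, false_or,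
    if_false, Finset.sum_const_zero, add_zero, zero_add, Bool.false_eq_true]
  rw [sum_fin_eq v _ hK, sum_fin_eq t _ hN]

theorem sum_t (i : Fin N) :
    ∑ a : W K N, (if adjW K N mem (Sum.inr (Sum.inr (Sum.inl i))) a then asm Z v t w a else 0) =
      w i + ∑ j ∈ range K, if mem i j then 0 else v j := by
  rw [sum_asm]
  simp only [adj_tz, adj_tv, adj_tt, adj_tw, asm, if_false, Finset.sum_const_zero, zero_add,
    Bool.false_eq_true, Finset.sum_ite_eq', Finset.mem_univ, if_true, Finset.sum_range]
  rw [add_comm]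
  congr 1
  apply Finset.sum_congr rfl
  intro j _
  cases mem i j <;> simp

theorem sum_w (i : Fin N) (hmem : ∀ j, mem i j → j + 2 < K) :
    ∑ a : W K N, (if adjW K N mem (Sum.inr (Sum.inr (Sum.inr i))) a then asm Z v t w a else 0) =
      (∑ j ∈ range K, if mem i j then v (j + 2) else 0) +
        (if (i : ℕ) + 1 < N then t (i + 1) else Z) := by
  rw [sum_asm]
  simp only [adj_wz, adj_wv, adj_wt, adj_ww, asm, if_false, Finset.sum_const_zero, add_zero,
    Bool.false_eq_true]
  have e1 : ∑ x : Fin K, (if 2 ≤ (x : ℕ) ∧ mem i (x - 2) = true then v x else 0) =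
      ∑ j ∈ range K, if mem i j then v (j + 2) else 0 := by
    have h1 : ∑ x : Fin K, (if 2 ≤ (x : ℕ) ∧ mem i (x - 2) = true then v x else 0) =
        ∑ x ∈ range K, (if 2 ≤ x ∧ mem i (x - 2) = true then v x else 0) := by
      rw [Finset.sum_range]
    rw [h1, ← Finset.sum_filter, ← Finset.sum_filter]
    symm
    apply Finset.sum_bij (fun j _ => j + 2)
    · intro j hj
      rw [mem_filter, mem_range] at hj ⊢
      exact ⟨hmem j hj.2, by omega, by simpa using hj.2⟩
    · intro a _ b _ h
      omega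
    · intro x hx
      rw [mem_filter, mem_range] at hx
      refine ⟨x - 2, ?_, by omega⟩
      rw [mem_filter, mem_range]
      exact ⟨by omega, hx.2.2⟩
    · intro j _
      rfl
  rw [e1]
  by_cases hi : (i : ℕ) + 1 < N
  · rw [if_neg (by omega), if_pos hi, zero_add, sum_fin_eq t _ hi]
  · have : (i : ℕ) + 1 = N := by omega
    have h0 : ∑ x : Fin N, (if (x : ℕ) = i + 1 then t x else 0) = 0 :=
      Finset.sum_eq_zero fun b _ => if_neg (by omega)
    rw [if_pos this, if_neg hi, h0, add_zero, add_comm]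

end Sums

/-- The hypotheses on the sizes and the family of triples. -/
structure Good (K N : ℕ) (mem : ℕ → ℕ → Bool) : Prop where
  hK : 3 ≤ K
  hN : 0 < N
  hlt : ∀ i < N, ∀ j, mem i j → j + 2 < K
  hcard : ∀ i < N, ∑ j ∈ range K, (if mem i j then 1 else 0) = 3

section Outdeg

variable {K N : ℕ} {mem : ℕ → ℕ → Bool} (hg : Good K N mem)

include hg

theorem card_compl (i : ℕ) (hi : i < N) :
    ∑ j ∈ range K, (if mem i j then (0 : ℤ) else 1) = K - 3 := by
  have h1 := hg.hcard i hi
  have h2 : ∑ j ∈ range K, (if mem i j then (0 : ℤ) else 1) +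
      ∑ j ∈ range K, (if mem i j then (1 : ℤ) else 0) = K := by
    rw [← Finset.sum_add_distrib]
    have : ∀ j ∈ range K, ((if mem i j then (0 : ℤ) else 1) + if mem i j then 1 else 0) = 1 := by
      intro j _
      split_ifs <;> simp
    rw [Finset.sum_congr rfl this]
    simp
  have h3 : ∑ j ∈ range K, (if mem i j then (1 : ℤ) else 0) = 3 := by
    have := congrArg (Nat.cast : ℕ → ℤ) h1
    push_cast at this
    exact this
  linarith

theorem outdeg_eq (a : W K N) : outdeg (adjW K N mem) a =
    asm (K : ℤ) (fun _ => 2) (fun _ => (K : ℤ) - 2) (fun _ => 4) a := by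
  have h1 : ∀ a, outdeg (adjW K N mem) a =
      ∑ b, if adjW K N mem a b then asm (1 : ℤ) (fun _ => 1) (fun _ => 1) (fun _ => 1) b else 0 := by
    intro a
    unfold outdeg
    apply Finset.sum_congr rfl
    rintro (b | b | b | b) _ <;> rfl
  rw [h1]
  rcases a with _ | j | i | i
  · rw [sum_z]
    simp [asm]
  · by_cases hj : (j : ℕ) + 1 < K
    · rw [sum_v_lt _ _ _ _ _ j hj]
      rfl
    · rw [sum_v_last _ _ _ _ _ (by have := hg.hK; omega) hg.hN j hj]
      rfl
  · rw [sum_t, card_compl hg i i.2]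
    simp [asm]
    ring
  · rw [sum_w _ _ _ _ _ i (hg.hlt i i.2)]
    have := congrArg (Nat.cast : ℕ → ℤ) (hg.hcard i i.2)
    push_cast at this
    rw [this]
    simp [asm]

/-- The firing relations. -/
theorem rel_iff {Q : Type} [AddCommGroup Q] (Z : Q) (v t w : ℕ → Q) :
    Rel (adjW K N mem) (asm Z v t w) ↔
      ((K : ℤ) • Z = ∑ j ∈ range K, v j) ∧
      (∀ j, j + 1 < K → (2 : ℤ) • v j = v (j + 1) + Z) ∧
      ((2 : ℤ) • v (K - 1) = v 0 + t 0) ∧
      (∀ i < N, ((K : ℤ) - 2) • t i = w i + ∑ j ∈ range K, if mem i j then 0 else v j) ∧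
      (∀ i < N, (4 : ℤ) • w i = (∑ j ∈ range K, if mem i j then v (j + 2) else 0) +
        (if i + 1 < N then t (i + 1) else Z)) := by
  have hK0 : 0 < K := by have := hg.hK; omega
  unfold Rel
  constructor
  · intro h
    refine ⟨?_, ?_, ?_, ?_, ?_⟩
    · have := h (Sum.inl ())
      rw [outdeg_eq hg, sum_z] at this
      exact this
    · intro j hj
      have := h (Sum.inr (Sum.inl ⟨j, by omega⟩))
      rw [outdeg_eq hg, sum_v_lt _ _ _ _ _ ⟨j, by omega⟩ hj] at this
      exact this
    · have := h (Sum.inr (Sum.inl ⟨K - 1, by omega⟩))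
      rw [outdeg_eq hg, sum_v_last _ _ _ _ _ hK0 hg.hN ⟨K - 1, by omega⟩ (by simp; omega)] at this
      exact this
    · intro i hi
      have := h (Sum.inr (Sum.inr (Sum.inl ⟨i, hi⟩)))
      rw [outdeg_eq hg, sum_t] at this
      exact this
    · intro i hi
      have := h (Sum.inr (Sum.inr (Sum.inr ⟨i, hi⟩)))
      rw [outdeg_eq hg, sum_w _ _ _ _ _ ⟨i, hi⟩ (hg.hlt i hi)] at this
      exact this
  · rintro ⟨h1, h2, h3, h4, h5⟩ a
    rw [outdeg_eq hg]
    rcases a with _ | j | i | i
    · rw [sum_z]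
      exact h1
    · by_cases hj : (j : ℕ) + 1 < K
      · rw [sum_v_lt _ _ _ _ _ j hj]
        exact h2 j hj
      · rw [sum_v_last _ _ _ _ _ hK0 hg.hN j hj]
        have : (j : ℕ) = K - 1 := by omega
        simp only [asm]
        rw [this]
        exact h3
    · rw [sum_t]
      exact h4 i i.2
    · rw [sum_w _ _ _ _ _ i (hg.hlt i i.2)]
      exact h5 i i.2

end Outdeg

section Main

variable {K N : ℕ} {mem : ℕ → ℕ → Bool} (hg : Good K N mem)

include hg

theorem stronglyConnected : StronglyConnected (adjW K N mem) := by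
  have hK := hg.hK
  have hK0 : 0 < K := by omega
  have single : ∀ {a b : W K N}, adjW K N mem a b = true →
      Relation.ReflTransGen (fun a b => adjW K N mem a b = true) a b :=
    fun h => Relation.ReflTransGen.single h
  -- every vertex reaches `z`
  have v0z : Relation.ReflTransGen (fun a b => adjW K N mem a b = true)
      (Sum.inr (Sum.inl ⟨0, hK0⟩)) (Sum.inl ()) := single ((adj_vz ..).2 (by simp; omega))
  have vz : ∀ j : Fin K, Relation.ReflTransGen (fun a b => adjW K N mem a b = true)
      (Sum.inr (Sum.inl j)) (Sum.inl ()) := by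
    intro j
    by_cases hj : (j : ℕ) + 1 < K
    · exact single ((adj_vz ..).2 hj)
    · exact Relation.ReflTransGen.trans
        (single ((adj_vv K N mem j ⟨0, hK0⟩).2 (Or.inr ⟨hj, rfl⟩))) v0z
  have wz : ∀ i : Fin N, Relation.ReflTransGen (fun a b => adjW K N mem a b = true)
      (Sum.inr (Sum.inr (Sum.inr i))) (Sum.inl ()) := by
    intro i
    obtain ⟨j, hj, hm⟩ : ∃ j ∈ range K, mem i j = true := by
      by_contra hne
      push Not at hne
      have := hg.hcard i i.2
      rw [Finset.sum_eq_zero] at this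
      · omega
      · intro j hj
        rw [if_neg]
        exact hne j hj
    have h1 := hg.hlt i i.2 j hm
    exact Relation.ReflTransGen.trans (single ((adj_wv K N mem i ⟨j + 2, h1⟩).2
      ⟨by simp, by simpa using hm⟩)) (vz _)
  have tz : ∀ i : Fin N, Relation.ReflTransGen (fun a b => adjW K N mem a b = true)
      (Sum.inr (Sum.inr (Sum.inl i))) (Sum.inl ()) := fun i =>
    Relation.ReflTransGen.trans (single ((adj_tw K N mem i i).2 rfl)) (wz i)
  have toz : ∀ a : W K N, Relation.ReflTransGen (fun a b => adjW K N mem a b = true)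
      a (Sum.inl ()) := by
    rintro (a | a | a | a)
    · exact Relation.ReflTransGen.refl
    · exact vz a
    · exact tz a
    · exact wz a
  -- `z` reaches every vertex
  have zv : ∀ j : Fin K, Relation.ReflTransGen (fun a b => adjW K N mem a b = true)
      (Sum.inl ()) (Sum.inr (Sum.inl j)) := fun j => single (adj_zv ..)
  have zt : ∀ (i : ℕ) (hi : i < N), Relation.ReflTransGen (fun a b => adjW K N mem a b = true)
      (Sum.inl ()) (Sum.inr (Sum.inr (Sum.inl ⟨i, hi⟩))) := by
    intro i
    induction i with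
    | zero =>
      intro hi
      exact (zv ⟨K - 1, by omega⟩).trans (single ((adj_vt K N mem ⟨K - 1, by omega⟩ ⟨0, hi⟩).2
        ⟨by simp; omega, rfl⟩))
    | succ i ih =>
      intro hi
      exact ((ih (by omega)).trans (single ((adj_tw K N mem ⟨i, by omega⟩ ⟨i, by omega⟩).2
        rfl))).trans (single ((adj_wt K N mem ⟨i, by omega⟩ ⟨i + 1, hi⟩).2 rfl))
  have fromz : ∀ a : W K N, Relation.ReflTransGen (fun a b => adjW K N mem a b = true)
      (Sum.inl ()) a := by
    rintro (a | a | a | a)
    · exact Relation.ReflTransGen.refl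
    · exact zv a
    · exact zt a a.2
    · exact (zt a a.2).trans (single ((adj_tw K N mem a a).2 rfl))
  exact fun a b => (toz a).trans (fromz b)

omit hg in
theorem sum_split {Q : Type} [AddCommGroup Q] (i : ℕ) (d : ℕ → Q) :
    (∑ j ∈ range K, if mem i j then 0 else d j) + (∑ j ∈ range K, if mem i j then d j else 0) =
      ∑ j ∈ range K, d j := by
  rw [← Finset.sum_add_distrib]
  apply Finset.sum_congr rfl
  intro j _
  split_ifs <;> simp

/-- The classes of the vertices. -/
theorem class_eq {Q : Type} [AddCommGroup Q] {Z : Q} {v t w : ℕ → Q}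
    (h : Rel (adjW K N mem) (asm Z v t w)) :
    ∀ i < N, w i = Z + ∑ j ∈ range K, if mem i j then v j - Z else 0 := by
  rw [rel_iff hg] at h
  obtain ⟨h1, h2, h3, h4, h5⟩ := h
  have hK := hg.hK
  have hd : ∀ j, j + 1 < K → v (j + 1) - Z = (2 : ℤ) • (v j - Z) := by
    intro j hj
    rw [smul_sub, h2 j hj, two_smul]
    abel
  have hd2 : ∀ j < K, v j - Z = ((2 : ℤ) ^ j) • (v 0 - Z) := by
    intro j
    induction j with
    | zero => intro _; simp
    | succ j ih =>
      intro hj
      rw [hd j hj, ih (by omega), pow_succ, mul_comm, mul_smul]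
  have hsum : ∑ j ∈ range K, (v j - Z) = 0 := by
    rw [Finset.sum_sub_distrib, ← h1]
    simp
  have ht0 : t 0 = Z := by
    have e1 : t 0 - Z = (2 : ℤ) • (v (K - 1) - Z) - (v 0 - Z) := by
      rw [smul_sub, h3, two_smul]
      abel
    have e2 : ∑ j ∈ range K, (v j - Z) = ((2 : ℤ) ^ K - 1) • (v 0 - Z) := by
      rw [Finset.sum_congr rfl fun j hj => hd2 j (mem_range.1 hj), ← Finset.sum_smul]
      congr 1
      have := Int.ofNat_inj.2 (sum_range_two_pow K)
      push_cast at this
      rw [Nat.cast_sub Nat.one_le_two_pow] at this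
      push_cast at this
      exact this
    rw [hd2 (K - 1) (by omega)] at e1
    have e3 : (2 : ℤ) • ((2 : ℤ) ^ (K - 1) • (v 0 - Z)) - (v 0 - Z) =
        ((2 : ℤ) ^ K - 1) • (v 0 - Z) := by
      rw [smul_smul, sub_smul, one_smul]
      congr 2
      rw [← pow_succ']
      congr 1
      omega
    rw [e3, ← e2, hsum] at e1
    exact sub_eq_zero.1 e1
  have hw : ∀ i < N, t i = Z → w i = Z + ∑ j ∈ range K, if mem i j then v j - Z else 0 := by
    intro i hi hti
    have e1 := h4 i hi
    have e2 := sum_split (K := K) (mem := mem) i (fun j => v j - Z)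
    rw [hsum] at e2
    have e3 : (∑ j ∈ range K, if mem i j then 0 else v j - Z) =
        (∑ j ∈ range K, if mem i j then 0 else v j) - ((K : ℤ) - 3) • Z := by
      rw [← card_compl hg i hi, Finset.sum_smul, ← Finset.sum_sub_distrib]
      apply Finset.sum_congr rfl
      intro j _
      split_ifs <;> simp
    rw [hti] at e1
    have e4 : (∑ j ∈ range K, if mem i j then 0 else v j) = ((K : ℤ) - 2) • Z - w i := by
      rw [e1]; abel
    rw [e3, e4] at e2
    have e5 : ((K : ℤ) - 2) • Z - ((K : ℤ) - 3) • Z = Z := by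
      rw [← sub_smul]
      have : (K : ℤ) - 2 - (K - 3) = 1 := by ring
      rw [this, one_smul]
    have e6 : ((K : ℤ) - 2) • Z = ((K : ℤ) - 3) • Z + Z := by
      rw [sub_eq_iff_eq_add.1 e5, add_comm]
    rw [e6] at e2
    have e7 : w i = Z + (∑ j ∈ range K, if mem i j then v j - Z else 0) -
        (((K : ℤ) - 3) • Z + Z - w i - ((K : ℤ) - 3) • Z +
          ∑ j ∈ range K, if mem i j then v j - Z else 0) := by
      abel
    rw [e2, sub_zero] at e7
    exact e7
  have ht : ∀ i < N, t i = Z := by
    intro i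
    induction i with
    | zero => intro _; exact ht0
    | succ i ih =>
      intro hi
      have e1 := h5 i (by omega)
      rw [if_pos hi, hw i (by omega) (ih (by omega))] at e1
      have e2 : (∑ j ∈ range K, if mem i j then v (j + 2) else 0) =
          (4 : ℤ) • (∑ j ∈ range K, if mem i j then v j - Z else 0) + (3 : ℤ) • Z := by
        have e3 : (3 : ℤ) = ∑ j ∈ range K, if mem i j then (1 : ℤ) else 0 := by
          have := congrArg (Nat.cast : ℕ → ℤ) (hg.hcard i (by omega))
          push_cast at this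
          exact this.symm
        rw [e3, Finset.sum_smul, Finset.smul_sum, ← Finset.sum_add_distrib]
        apply Finset.sum_congr rfl
        intro j _
        by_cases hm : mem i j = true
        · have h6 := hg.hlt i (by omega) j hm
          have h7 := hd j (by omega)
          have h8 := hd (j + 1) (by omega)
          simp only [hm, if_true, one_smul]
          have h9 : v (j + 2) - Z = (4 : ℤ) • (v j - Z) := by
            rw [h8, h7, smul_smul]
            norm_num
          rw [← h9]
          abel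
        · simp [hm]
      rw [e2, smul_add] at e1
      have e4 : (4 : ℤ) • Z = (3 : ℤ) • Z + Z := by
        have : (4 : ℤ) = 3 + 1 := by norm_num
        rw [this, add_smul, one_smul]
      rw [e4] at e1
      have e5 : t (i + 1) = (4 : ℤ) • (∑ j ∈ range K, if mem i j then v j - Z else 0) +
          (3 : ℤ) • Z + t (i + 1) - ((4 : ℤ) • (∑ j ∈ range K, if mem i j then v j - Z else 0) +
          (3 : ℤ) • Z) := by abel
      rw [e5, ← e1]
      abel
  exact fun i hi => hw i hi (ht i hi)

theorem rel_zmod : Rel (adjW K N mem) (asm (0 : ZMod (2 ^ K - 1)) (fun j => 2 ^ j) (fun _ => 0)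
    (fun i => ∑ j ∈ range K, if mem i j then 2 ^ j else 0)) := by
  have hK := hg.hK
  have hM : (2 : ZMod (2 ^ K - 1)) ^ K = 1 := by
    have h1 : ((2 ^ K - 1 : ℕ) : ZMod (2 ^ K - 1)) = 0 := ZMod.natCast_self _
    rw [Nat.cast_sub Nat.one_le_two_pow] at h1
    push_cast at h1
    exact sub_eq_zero.1 h1
  have hs : ∑ j ∈ range K, (2 : ZMod (2 ^ K - 1)) ^ j = 0 := by
    have h1 : ((∑ j ∈ range K, 2 ^ j : ℕ) : ZMod (2 ^ K - 1)) = 0 := by
      rw [sum_range_two_pow]
      exact ZMod.natCast_self _
    push_cast at h1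
    exact h1
  rw [rel_iff hg]
  refine ⟨by rw [hs, smul_zero], ?_, ?_, ?_, ?_⟩
  · intro j _
    rw [add_zero, pow_succ, mul_comm]
    simp
  · simp only [pow_zero, add_zero]
    have : (2 : ℤ) • (2 : ZMod (2 ^ K - 1)) ^ (K - 1) = 2 ^ K := by
      rw [zsmul_eq_mul]
      push_cast
      rw [← pow_succ']
      congr 1
      omega
    rw [this, hM]
  · intro i _
    rw [smul_zero, add_comm, sum_split i (fun j => (2 : ZMod (2 ^ K - 1)) ^ j), hs]
  · intro i _
    simp only [ite_self, add_zero, Finset.smul_sum, smul_ite, smul_zero]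
    apply Finset.sum_congr rfl
    intro j _
    split_ifs
    · rw [zsmul_eq_mul]
      push_cast
      ring
    · rfl

/-- The initial distribution. -/
def chips (K k : ℕ) {N : ℕ} : W K N → ℤ :=
  asm ((K : ℤ) - 1 + 2 * k) (fun j => if j < 3 * k then 0 else 1) (fun _ => (K : ℤ) - 3) (fun _ => 3)

theorem target_sum {Q : Type} [AddCommGroup Q] (k : ℕ) (hk : 3 * k ≤ K) (Z : Q) (v t w : ℕ → Q) :
    ∑ u : W K N, (outdeg (adjW K N mem) u - 1 - chips K k u) • asm Z v t w u =
      (∑ j ∈ range (3 * k), v j) - (2 * (k : ℤ)) • Z := by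
  have h1 : ∀ u : W K N, outdeg (adjW K N mem) u - 1 - chips K k u =
      asm (-(2 * (k : ℤ))) (fun j => if j < 3 * k then 1 else 0) (fun _ => 0) (fun _ => 0) u := by
    intro u
    rw [outdeg_eq hg]
    rcases u with _ | j | i | i
    · simp only [asm, chips]
      ring
    · simp only [asm, chips]
      split_ifs <;> norm_num
    · simp only [asm, chips]
      ring
    · simp only [asm, chips]
      norm_num
  simp only [h1]
  rw [sum_asm]
  simp only [asm, zero_smul, Finset.sum_const_zero, add_zero, neg_smul]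
  have h2 : ∑ j : Fin K, (if (j : ℕ) < 3 * k then (1 : ℤ) else 0) • v j =
      ∑ j ∈ range (3 * k), v j := by
    rw [← Finset.sum_range (fun j => (if j < 3 * k then (1 : ℤ) else 0) • v j)]
    simp only [ite_smul, one_smul, zero_smul]
    rw [← Finset.sum_filter]
    congr 1
    ext j
    simp
    omega
  rw [h2]
  abel

omit hg in
theorem exists_asm {Q : Type} [Zero Q] (c : W K N → Q) : ∃ (Z : Q) (v t w : ℕ → Q),
    c = asm Z v t w := by
  refine ⟨c (Sum.inl ()), fun j => if h : j < K then c (Sum.inr (Sum.inl ⟨j, h⟩)) else 0,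
    fun i => if h : i < N then c (Sum.inr (Sum.inr (Sum.inl ⟨i, h⟩))) else 0,
    fun i => if h : i < N then c (Sum.inr (Sum.inr (Sum.inr ⟨i, h⟩))) else 0, ?_⟩
  funext u
  rcases u with _ | j | i | i <;> simp [asm]

omit hg in
theorem sum_asm_smul {Q : Type} [AddCommGroup Q] (yz : ℕ) (yv yt yw : ℕ → ℕ) (Z : Q)
    (v t w : ℕ → Q) : ∑ u : W K N, asm yz yv yt yw u • asm Z v t w u =
      yz • Z + ((∑ j ∈ range K, yv j • v j) + ((∑ i ∈ range N, yt i • t i) +
        ∑ i ∈ range N, yw i • w i)) := by
  rw [sum_asm]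
  simp only [asm, Finset.sum_range]

omit hg in
theorem sum_swap (y d : ℕ → ℕ) : ∑ i ∈ range N, y i * (∑ j ∈ range K, if mem i j then d j else 0) =
    ∑ j ∈ range K, (∑ i ∈ range N, if mem i j then y i else 0) * d j := by
  simp only [Finset.mul_sum, Finset.sum_mul]
  rw [Finset.sum_comm]
  apply Finset.sum_congr rfl
  intro j _
  apply Finset.sum_congr rfl
  intro i _
  split_ifs <;> simp

/-- The distribution terminates if and only if the family of triples contains an exact cover. -/
theorem terminating_iff_cover (k : ℕ) (hk : 3 * k < K)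
    (hlt : ∀ i < N, ∀ j, mem i j → j < 3 * k) :
    Terminating (adjW K N mem) (chips K k) ↔
      ∃ y : ℕ → ℕ, ∀ j < 3 * k, ∑ i ∈ range N, (if mem i j then y i else 0) = 1 := by
  have hK := hg.hK
  rw [terminating_iff_class (adjW_loopless K N (by omega) mem) (stronglyConnected hg)]
  constructor
  · rintro ⟨y, hy⟩
    obtain ⟨yz, yv, yt, yw, rfl⟩ := exists_asm y
    -- the degree
    have hdeg := hy ℤ (asm 1 (fun _ => 1) (fun _ => 1) (fun _ => 1)) (by
      rw [rel_iff hg]
      refine ⟨by simp, by intro j _; norm_num, by norm_num, ?_, ?_⟩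
      · intro i hi
        rw [card_compl hg i hi]
        simp
        ring
      · intro i hi
        have := congrArg (Nat.cast : ℕ → ℤ) (hg.hcard i hi)
        push_cast at this
        rw [this]
        simp)
    rw [target_sum hg k hk.le, sum_asm_smul] at hdeg
    have hdeg' : k = yz + ((∑ j ∈ range K, yv j) + ((∑ i ∈ range N, yt i) +
        ∑ i ∈ range N, yw i)) := by
      simp only [Finset.sum_const, card_range, smul_eq_mul, mul_one, nsmul_eq_mul] at hdeg
      have : (k : ℤ) = ((yz + ((∑ j ∈ range K, yv j) + ((∑ i ∈ range N, yt i) +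
        ∑ i ∈ range N, yw i)) : ℕ) : ℤ) := by
        push_cast
        rw [← hdeg]
        push_cast
        ring
      exact_mod_cast this
    -- the residue
    have hres := hy _ _ (rel_zmod hg)
    rw [target_sum hg k hk.le, sum_asm_smul] at hres
    let c : ℕ → ℕ := fun j => yv j + ∑ i ∈ range N, if mem i j then yw i else 0
    have hc : ∑ j ∈ range K, c j * 2 ^ j ≡ ∑ j ∈ range (3 * k), 2 ^ j [MOD 2 ^ K - 1] := by
      have e1 : ∑ j ∈ range K, c j * 2 ^ j = ∑ j ∈ range K, yv j * 2 ^ j +
          ∑ i ∈ range N, yw i * ∑ j ∈ range K, if mem i j then 2 ^ j else 0 := by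
        rw [sum_swap yw (fun j => 2 ^ j), ← Finset.sum_add_distrib]
        apply Finset.sum_congr rfl
        intro j _
        simp only [c]
        ring
      rw [e1, ← ZMod.natCast_eq_natCast_iff]
      push_cast
      simp only [smul_zero, sub_zero, zero_add, Finset.sum_const_zero, nsmul_eq_mul] at hres
      rw [hres]
    have hcs : ∑ j ∈ range K, c j = ∑ j ∈ range K, yv j + 3 * ∑ i ∈ range N, yw i := by
      have e1 : ∑ j ∈ range K, c j = ∑ j ∈ range K, yv j +
          ∑ i ∈ range N, yw i * ∑ j ∈ range K, if mem i j then 1 else 0 := by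
        rw [sum_swap yw (fun j => 1), ← Finset.sum_add_distrib]
        apply Finset.sum_congr rfl
        intro j _
        simp only [c, mul_one]
      rw [e1, Finset.mul_sum]
      congr 1
      apply Finset.sum_congr rfl
      intro i hi
      rw [hg.hcard i (mem_range.1 hi)]
      ring
    have hm := merge K (range (3 * k)) (fun j hj => by rw [mem_range] at hj; omega)
      (by rw [card_range]; exact hk) _ c rfl (by rw [card_range, hcs]; omega) hc
    have hcs2 : ∑ j ∈ range K, c j = 3 * k := by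
      have : ∑ j ∈ range K, c j = ∑ j ∈ range K, if j ∈ range (3 * k) then 1 else 0 :=
        Finset.sum_congr rfl fun i hi => hm i (mem_range.1 hi)
      rw [this, Finset.sum_ite_mem, Finset.inter_eq_right.2
        (Finset.range_subset_range.2 hk.le)]
      simp
    have hyv : ∑ j ∈ range K, yv j = 0 := by omega
    refine ⟨yw, fun j hj => ?_⟩
    have h1 := hm j (by omega)
    rw [if_pos (mem_range.2 hj)] at h1
    have h2 : yv j = 0 := (Finset.sum_eq_zero_iff.1 hyv) j (mem_range.2 (by omega))
    simp only [c, h2, zero_add] at h1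
    exact h1
  · rintro ⟨y, hy⟩
    have hyall : ∀ j ∈ range K, (∑ i ∈ range N, if mem i j then y i else 0) =
        if j ∈ range (3 * k) then 1 else 0 := by
      intro j _
      by_cases hj : j < 3 * k
      · rw [hy j hj, if_pos (mem_range.2 hj)]
      · rw [if_neg (by rw [mem_range]; exact hj)]
        apply Finset.sum_eq_zero
        intro i hi
        rw [if_neg]
        intro hm
        exact hj (hlt i (mem_range.1 hi) j hm)
    have hsum : ∑ i ∈ range N, y i = k := by
      have e1 : ∑ i ∈ range N, y i * ∑ j ∈ range K, (if mem i j then 1 else 0) =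
          3 * ∑ i ∈ range N, y i := by
        rw [Finset.mul_sum]
        apply Finset.sum_congr rfl
        intro i hi
        rw [hg.hcard i (mem_range.1 hi)]
        ring
      rw [sum_swap y (fun _ => 1)] at e1
      simp only [mul_one] at e1
      rw [Finset.sum_congr rfl hyall, Finset.sum_ite_mem, Finset.inter_eq_right.2
        (Finset.range_subset_range.2 hk.le)] at e1
      simp at e1
      omega
    refine ⟨asm 0 (fun _ => 0) (fun _ => 0) y, ?_⟩
    intro Q _ c hc
    obtain ⟨Z, v, t, w, rfl⟩ := exists_asm c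
    have hw := class_eq hg hc
    rw [target_sum hg k hk.le, sum_asm_smul]
    simp only [zero_smul, Finset.sum_const_zero, zero_add]
    have e1 : ∑ i ∈ range N, y i • w i = ∑ i ∈ range N, (y i • Z +
        ∑ j ∈ range K, if mem i j then y i • (v j - Z) else 0) := by
      apply Finset.sum_congr rfl
      intro i hi
      rw [hw i (mem_range.1 hi), smul_add, Finset.smul_sum]
      congr 1
      apply Finset.sum_congr rfl
      intro j _
      split_ifs <;> simp
    rw [e1, Finset.sum_add_distrib, ← Finset.sum_smul, hsum, Finset.sum_comm]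
    have e2 : ∑ j ∈ range K, ∑ i ∈ range N, (if mem i j then y i • (v j - Z) else 0) =
        ∑ j ∈ range (3 * k), (v j - Z) := by
      have e3 : ∀ j ∈ range K, ∑ i ∈ range N, (if mem i j then y i • (v j - Z) else 0) =
          if j ∈ range (3 * k) then (v j - Z) else 0 := by
        intro j hj
        have e4 : ∑ i ∈ range N, (if mem i j then y i • (v j - Z) else 0) =
            (∑ i ∈ range N, if mem i j then y i else 0) • (v j - Z) := by
          rw [Finset.sum_smul]
          apply Finset.sum_congr rfl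
          intro i _
          split_ifs <;> simp
        rw [e4, hyall j hj]
        split_ifs <;> simp
      rw [Finset.sum_congr rfl e3, Finset.sum_ite_mem, Finset.inter_eq_right.2
        (Finset.range_subset_range.2 hk.le)]
    rw [e2, Finset.sum_sub_distrib]
    simp only [Finset.sum_const, card_range]
    have e5 : (3 * k) • Z = (2 * (k : ℤ)) • Z + k • Z := by
      rw [← natCast_zsmul, ← natCast_zsmul Z k, ← add_smul]
      congr 1
      push_cast
      ring
    rw [e5]
    abel

end Main

end Pool.Agent.H418R2.Chip
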