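import Mathlib

/-!
# Perfect graphs: cliques and colourings of finite induced subgraphs

`Good G T` says that the subgraph of `G` induced by the finite set `T` has a clique and a proper
colouring of the same size.  A finite graph is perfect if and only if all `T` are good.
-/

namespace Pool.Agent.H418R2.Perf

open Finset

variable {V : Type} [DecidableEq V]

/-- A finite graph is perfect: every induced subgraph has chromatic number equal to its clique
number. -/
def Perfect {V : Type} (G : SimpleGraph V) : Prop :=
  ∀ s : Set V, (G.induce s).chromaticNumber = ((G.induce s).cliqueNum : ℕ∞)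

/-- `T` can be properly coloured with the colours `0, ..., k - 1`. -/
def Col (G : SimpleGraph V) (T : Finset V) (k : ℕ) : Prop :=
  ∃ f : V → ℕ, (∀ v ∈ T, f v < k) ∧ ∀ u ∈ T, ∀ v ∈ T, G.Adj u v → f u ≠ f v

/-- `T` contains a clique with `k` vertices. -/
def Clq (G : SimpleGraph V) (T : Finset V) (k : ℕ) : Prop :=
  ∃ K ⊆ T, G.IsClique (K : Set V) ∧ K.card = k

def Good (G : SimpleGraph V) (T : Finset V) : Prop := ∃ k, Clq G T k ∧ Col G T k

omit [DecidableEq V] in
theorem clique_le {G : SimpleGraph V} {T K : Finset V} {k : ℕ} (hK : K ⊆ T)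
    (hc : G.IsClique (K : Set V)) (h : Col G T k) : K.card ≤ k := by
  obtain ⟨f, h1, h2⟩ := h
  have : K.card ≤ (range k).card := by
    apply card_le_card_of_injOn f
    · intro v hv
      simpa using h1 v (hK hv)
    · intro u hu v hv huv
      by_contra hne
      exact h2 u (hK hu) v (hK hv) (hc hu hv hne) huv
  simpa using this

omit [DecidableEq V] in
theorem Col.mono {G : SimpleGraph V} {T : Finset V} {k l : ℕ} (h : Col G T k) (hkl : k ≤ l) :
    Col G T l := by
  obtain ⟨f, h1, h2⟩ := h
  exact ⟨f, fun v hv => (h1 v hv).trans_le hkl, h2⟩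

omit [DecidableEq V] in
theorem Col.subset {G : SimpleGraph V} {T T' : Finset V} {k : ℕ} (h : Col G T k) (hT : T' ⊆ T) :
    Col G T' k := by
  obtain ⟨f, h1, h2⟩ := h
  exact ⟨f, fun v hv => h1 v (hT hv), fun u hu v hv => h2 u (hT hu) v (hT hv)⟩

omit [DecidableEq V] in
/-- A colouring with an arbitrary finite set of colours. -/
theorem col_of {γ : Type} [DecidableEq γ] {G : SimpleGraph V} {T : Finset V} {k : ℕ} (C : Finset γ)
    (f : V → γ) (h1 : ∀ v ∈ T, f v ∈ C) (h2 : ∀ u ∈ T, ∀ v ∈ T, G.Adj u v → f u ≠ f v)
    (hC : C.card ≤ k) : Col G T k := by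
  obtain e := C.equivFin
  refine ⟨fun v => if h : f v ∈ C then (e ⟨f v, h⟩ : ℕ) else 0, fun v hv => ?_, ?_⟩
  · simp only [h1 v hv, dite_true]
    exact (e ⟨f v, h1 v hv⟩).2.trans_le hC
  · intro u hu v hv huv
    simp only [h1 v hv, h1 u hu, dite_true]
    intro h
    have := e.injective (Fin.ext h)
    exact h2 u hu v hv huv (by simpa using this)

/-- A simplicial vertex can be removed. -/
theorem good_simplicial {G : SimpleGraph V} {T : Finset V} (w : V)
    (hgood : Good G (T.erase w)) (hN : ∀ u ∈ T, ∀ v ∈ T, G.Adj w u → G.Adj w v → u ≠ v → G.Adj u v) :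
    Good G T := by
  classical
  by_cases hw : w ∈ T
  swap
  · rwa [erase_eq_of_notMem hw] at hgood
  obtain ⟨k, ⟨K, hK, hKc, hKk⟩, f, h1, h2⟩ := hgood
  set N := T.filter (fun u => G.Adj w u) with hNdef
  have hNT : N ⊆ T.erase w := by
    intro u hu
    rw [hNdef, mem_filter] at hu
    exact mem_erase.2 ⟨hu.2.ne', hu.1⟩
  have hNc : G.IsClique (N : Set V) := by
    intro u hu v hv huv
    have hu' := (mem_filter.1 (mem_coe.1 hu))
    have hv' := (mem_filter.1 (mem_coe.1 hv))
    exact hN u hu'.1 v hv'.1 hu'.2 hv'.2 huv
  have hNk : N.card ≤ k := clique_le hNT hNc ⟨f, h1, h2⟩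
  rcases hNk.lt_or_eq with hlt | heq
  · -- a free colour
    have : ∃ c ∈ range k, c ∉ N.image f := by
      by_contra hcon
      push Not at hcon
      have h3 := card_le_card (show range k ⊆ N.image f from hcon)
      have h4 := card_image_le (s := N) (f := f)
      simp at h3
      omega
    obtain ⟨c, hc, hcN⟩ := this
    refine ⟨k, ⟨K, hK.trans (erase_subset _ _), hKc, hKk⟩, Function.update f w c, ?_, ?_⟩
    · intro v hv
      by_cases hvw : v = w
      · subst hvw
        simpa using mem_range.1 hc
      · rw [Function.update_of_ne hvw]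
        exact h1 v (mem_erase.2 ⟨hvw, hv⟩)
    · intro u hu v hv huv
      by_cases huw : u = w
      · subst huw
        have hvu : v ≠ u := huv.ne'
        rw [Function.update_self, Function.update_of_ne hvu]
        intro hcv
        exact hcN (mem_image.2 ⟨v, mem_filter.2 ⟨hv, huv⟩, hcv.symm⟩)
      · by_cases hvw : v = w
        · subst hvw
          rw [Function.update_self, Function.update_of_ne huw]
          intro hcv
          exact hcN (mem_image.2 ⟨u, mem_filter.2 ⟨hu, huv.symm⟩, hcv⟩)
        · rw [Function.update_of_ne hvw, Function.update_of_ne huw]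
          exact h2 u (mem_erase.2 ⟨huw, hu⟩) v (mem_erase.2 ⟨hvw, hv⟩) huv
  · refine ⟨k + 1, ⟨insert w N, ?_, ?_, ?_⟩, Function.update f w k, ?_, ?_⟩
    · exact insert_subset hw (hNT.trans (erase_subset _ _))
    · rw [coe_insert]
      refine SimpleGraph.IsClique.insert hNc ?_
      intro v hv _
      exact (mem_filter.1 (mem_coe.1 hv)).2
    · rw [card_insert_of_notMem, heq]
      intro h
      exact (mem_erase.1 (hNT h)).1 rfl
    · intro v hv
      by_cases hvw : v = w
      · subst hvw
        simp
      · rw [Function.update_of_ne hvw]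
        exact (h1 v (mem_erase.2 ⟨hvw, hv⟩)).trans (Nat.lt_succ_self k)
    · intro u hu v hv huv
      by_cases huw : u = w
      · subst huw
        have hvu : v ≠ u := huv.ne'
        rw [Function.update_self, Function.update_of_ne hvu]
        exact (h1 v (mem_erase.2 ⟨hvu, hv⟩)).ne'
      · by_cases hvw : v = w
        · subst hvw
          rw [Function.update_self, Function.update_of_ne huw]
          exact (h1 u (mem_erase.2 ⟨huw, hu⟩)).ne
        · rw [Function.update_of_ne hvw, Function.update_of_ne huw]
          exact h2 u (mem_erase.2 ⟨huw, hu⟩) v (mem_erase.2 ⟨hvw, hv⟩) huv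

/-- Adding the gadget that forces the edge `uv`. -/
theorem good_edge {G : SimpleGraph V} {T : Finset V} {u v α β γ : V} (huv : G.Adj u v)
    (hαβ : α ≠ β) (hαγ : α ≠ γ) (hβγ : β ≠ γ) (hβu : β ≠ u) (hβv : β ≠ v) (hγu : γ ≠ u)
    (hγv : γ ≠ v) (hαu : α ≠ u) (hαv : α ≠ v)
    (IH : ∀ R ⊆ T, α ∉ R → β ∉ R → γ ∉ R → Good G R)
    (hα : ∀ w ∈ T, G.Adj α w → w = u ∨ w = v)
    (hβ : ∀ w ∈ T, G.Adj β w → w = v ∨ w = γ)
    (hγ : ∀ w ∈ T, G.Adj γ w → w = u ∨ w = β) : Good G T := by
  classical
  apply good_simplicial α
  swap
  · intro a ha b hb h1 h2 hne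
    rcases hα a ha h1 with rfl | rfl <;> rcases hα b hb h2 with rfl | rfl
    · exact absurd rfl hne
    · exact huv
    · exact huv.symm
    · exact absurd rfl hne
  have key : ∀ T' ⊆ T, α ∉ T' → (β ∉ T' ∨ γ ∉ T' ∨ u ∉ T' ∨ v ∉ T') → Good G T' := by
    intro T' hT' hαT' h
    have hgoodβ : (γ ∉ T' ∨ v ∉ T') → (Good G (T'.erase β)) → Good G T' := by
      intro h hg
      apply good_simplicial β hg
      intro a ha b hb h1 h2 hne
      rcases hβ a (hT' ha) h1 with rfl | rfl <;> rcases hβ b (hT' hb) h2 with rfl | rfl
      · exact absurd rfl hne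
      · rcases h with h | h
        · exact absurd hb h
        · exact absurd ha h
      · rcases h with h | h
        · exact absurd ha h
        · exact absurd hb h
      · exact absurd rfl hne
    have hgoodγ : (β ∉ T' ∨ u ∉ T') → (Good G (T'.erase γ)) → Good G T' := by
      intro h hg
      apply good_simplicial γ hg
      intro a ha b hb h1 h2 hne
      rcases hγ a (hT' ha) h1 with rfl | rfl <;> rcases hγ b (hT' hb) h2 with rfl | rfl
      · exact absurd rfl hne
      · rcases h with h | h
        · exact absurd hb h
        · exact absurd ha h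
      · rcases h with h | h
        · exact absurd ha h
        · exact absurd hb h
      · exact absurd rfl hne
    have base : Good G ((T'.erase γ).erase β) := by
      apply IH
      · exact (erase_subset _ _).trans ((erase_subset _ _).trans hT')
      · simp [hαT']
      · simp
      · simp
    have base' : Good G ((T'.erase β).erase γ) := by rwa [erase_right_comm]
    have hβγ' : Good G (T'.erase γ) := by
      apply good_simplicial β base
      intro a ha b hb h1 h2 hne
      rcases hβ a (hT' (mem_of_mem_erase ha)) h1 with rfl | rfl <;>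
        rcases hβ b (hT' (mem_of_mem_erase hb)) h2 with rfl | rfl
      · exact absurd rfl hne
      · exact absurd hb (by simp)
      · exact absurd ha (by simp)
      · exact absurd rfl hne
    have hβγ'' : Good G (T'.erase β) := by
      apply good_simplicial γ base'
      intro a ha b hb h1 h2 hne
      rcases hγ a (hT' (mem_of_mem_erase ha)) h1 with rfl | rfl <;>
        rcases hγ b (hT' (mem_of_mem_erase hb)) h2 with rfl | rfl
      · exact absurd rfl hne
      · exact absurd hb (by simp)
      · exact absurd ha (by simp)
      · exact absurd rfl hne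
    rcases h with h | h | h | h
    · exact hgoodγ (Or.inl h) hβγ'
    · exact hgoodβ (Or.inl h) hβγ''
    · exact hgoodγ (Or.inr h) hβγ'
    · exact hgoodβ (Or.inr h) hβγ''
  by_cases hall : β ∈ T.erase α ∧ γ ∈ T.erase α ∧ u ∈ T.erase α ∧ v ∈ T.erase α
  swap
  · apply key _ (erase_subset _ _) (by simp)
    tauto
  obtain ⟨h1, h2, h3, h4⟩ := hall
  have hR := IH (((T.erase α).erase β).erase γ)
    ((erase_subset _ _).trans ((erase_subset _ _).trans (erase_subset _ _))) (by simp) (by simp)
    (by simp)
  obtain ⟨k, ⟨K, hK, hKc, hKk⟩, f, hf1, hf2⟩ := hR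
  have hu : u ∈ ((T.erase α).erase β).erase γ := by simp [hγu.symm, hβu.symm, mem_of_mem_erase h3, hαu.symm]
  have hv : v ∈ ((T.erase α).erase β).erase γ := by simp [hγv.symm, hβv.symm, mem_of_mem_erase h4, hαv.symm]
  have huvf := hf2 u hu v hv huv
  refine ⟨k, ⟨K, hK.trans ((erase_subset _ _).trans (erase_subset _ _)), hKc, hKk⟩,
    fun w => if w = β then f u else if w = γ then f v else f w, ?_, ?_⟩
  · intro w hw
    simp only
    split_ifs with h5 h6
    · exact hf1 u hu
    · exact hf1 v hv
    · exact hf1 w (mem_erase.2 ⟨h6, mem_erase.2 ⟨h5, hw⟩⟩)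
  · have main : ∀ a ∈ T.erase α, ∀ b ∈ T.erase α, G.Adj a b → b ≠ β → b ≠ γ →
        (if a = β then f u else if a = γ then f v else f a) ≠ f b := by
      intro a ha b hb hab hbβ hbγ
      split_ifs with h5 h6
      · subst h5
        rcases hβ b (mem_of_mem_erase hb) hab with rfl | rfl
        · exact huvf
        · exact absurd rfl hbγ
      · subst h6
        rcases hγ b (mem_of_mem_erase hb) hab with rfl | rfl
        · exact huvf.symm
        · exact absurd rfl hbβ
      · exact hf2 a (mem_erase.2 ⟨h6, mem_erase.2 ⟨h5, ha⟩⟩) b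
          (mem_erase.2 ⟨hbγ, mem_erase.2 ⟨hbβ, hb⟩⟩) hab
    intro a ha b hb hab
    by_cases hb1 : b = β
    · subst hb1
      by_cases ha1 : a = b
      · exact absurd ha1 hab.ne
      by_cases ha2 : a = γ
      · subst ha2
        simp only [if_true, ha1, if_false]
        exact huvf.symm
      · have := main b hb a ha hab.symm ha1 ha2
        simp only [if_true, ha1, ha2, if_false] at this ⊢
        exact this.symm
    · by_cases hb2 : b = γ
      · subst hb2
        by_cases ha1 : a = β
        · subst ha1
          simp only [if_true, hb1, if_false]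
          exact huvf
        · have ha2 : a ≠ b := hab.ne
          have := main b hb a ha hab.symm ha1 ha2
          simp only [if_true, ha1, ha2, hb1, if_false] at this ⊢
          exact this.symm
      · have := main a ha b hb hab hb1 hb2
        simp only [hb1, hb2, if_false]
        exact this

theorem good_ext {G : SimpleGraph V} {T : Finset V} (D : Finset V)
    (hD : ∀ a ∈ T, a ∈ D → ∀ b ∈ T, b ∈ D → ¬ G.Adj a b)
    (hx : ∀ K ⊆ T \ D, G.IsClique (K : Set V) → ∃ x ∈ T, x ∈ D ∧ ∀ w ∈ K, G.Adj x w)
    (hgood : Good G (T \ D)) : Good G T := by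
  classical
  obtain ⟨k, ⟨K, hK, hKc, hKk⟩, f, h1, h2⟩ := hgood
  obtain ⟨x, hxT, hxD, hxK⟩ := hx K hK hKc
  have hxK' : x ∉ K := fun h => (mem_sdiff.1 (hK h)).2 hxD
  refine ⟨k + 1, ⟨insert x K, ?_, ?_, ?_⟩, fun w => if w ∈ D then k else f w, ?_, ?_⟩
  · exact insert_subset hxT (hK.trans sdiff_subset)
  · rw [coe_insert]
    refine SimpleGraph.IsClique.insert hKc ?_
    intro v hv _
    exact hxK v hv
  · rw [card_insert_of_notMem hxK', hKk]
  · intro v hv
    by_cases hvD : v ∈ D
    · simp [hvD]
    · simp only [hvD, if_false]
      exact (h1 v (mem_sdiff.2 ⟨hv, hvD⟩)).trans (Nat.lt_succ_self k)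
  · intro a ha b hb hab
    by_cases haD : a ∈ D <;> by_cases hbD : b ∈ D
    · exact absurd hab (hD a ha haD b hb hbD)
    · simp only [haD, hbD, if_true, if_false]
      exact (h1 b (mem_sdiff.2 ⟨hb, hbD⟩)).ne'
    · simp only [haD, hbD, if_true, if_false]
      exact (h1 a (mem_sdiff.2 ⟨ha, haD⟩)).ne
    · simp only [haD, hbD, if_false]
      exact h2 a (mem_sdiff.2 ⟨ha, haD⟩) b (mem_sdiff.2 ⟨hb, hbD⟩) hab

/-- Adding the gadget that forbids the edge `uv`. -/
theorem good_nonedge {G : SimpleGraph V} {T : Finset V} {u v α β γ : V} (huv : ¬ G.Adj u v)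
    (hne : u ≠ v) (hβu : β ≠ u) (hβv : β ≠ v) (hγu : γ ≠ u)
    (hγv : γ ≠ v) (hαu : α ≠ u) (hαv : α ≠ v)
    (IH : ∀ R ⊆ T, α ∉ R → β ∉ R → γ ∉ R → Good G R)
    (hα : ∀ w ∈ T, w ≠ α → w ≠ β → w ≠ γ → (G.Adj α w ↔ w ≠ u ∧ w ≠ v))
    (hβ : ∀ w ∈ T, w ≠ α → w ≠ β → w ≠ γ → (G.Adj β w ↔ w ≠ v))
    (hγ : ∀ w ∈ T, w ≠ α → w ≠ β → w ≠ γ → (G.Adj γ w ↔ w ≠ u))
    (hαβ : G.Adj α β) (hαγ : G.Adj α γ) (hβγ : ¬ G.Adj β γ) : Good G T := by
  classical
  have e1 : α ≠ β := hαβ.ne
  have e2 : α ≠ γ := hαγ.ne
  have hγβ : ¬ G.Adj γ β := fun h => hβγ h.symm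
  have hvu : ¬ G.Adj v u := fun h => huv h.symm
  by_cases hαT : α ∈ T
  · by_cases hβT : β ∈ T
    · by_cases hγT : γ ∈ T
      · -- all three
        apply good_ext {α, u, v}
        · intro a ha haD b hb hbD
          simp only [mem_insert, mem_singleton] at haD hbD
          have hαu' : u ∈ T → ¬ G.Adj α u := fun h => by
            rw [hα u h hαu.symm hβu.symm hγu.symm]; simp
          have hαv' : v ∈ T → ¬ G.Adj α v := fun h => by
            rw [hα v h hαv.symm hβv.symm hγv.symm]; simp
          rcases haD with rfl | rfl | rfl <;> rcases hbD with rfl | rfl | rfl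
          · exact G.irrefl
          · exact hαu' hb
          · exact hαv' hb
          · exact fun h => hαu' ha h.symm
          · exact G.irrefl
          · exact huv
          · exact fun h => hαv' ha h.symm
          · exact hvu
          · exact G.irrefl
        · intro K hK _
          refine ⟨α, hαT, by simp, fun w hw => ?_⟩
          have hw' := hK hw
          simp only [mem_sdiff, mem_insert, mem_singleton, not_or] at hw'
          by_cases h1 : w = β
          · exact h1 ▸ hαβ
          by_cases h2 : w = γ
          · exact h2 ▸ hαγ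
          exact (hα w hw'.1 hw'.2.1 h1 h2).2 hw'.2.2
        · apply good_ext {β, γ}
          · intro a ha haD b hb hbD
            simp only [mem_insert, mem_singleton] at haD hbD
            rcases haD with rfl | rfl <;> rcases hbD with rfl | rfl
            · exact G.irrefl
            · exact hβγ
            · exact hγβ
            · exact G.irrefl
          · intro K hK _
            refine ⟨β, ?_, by simp, fun w hw => ?_⟩
            · simp [hβT, e1.symm, hβu, hβv]
            have hw' := hK hw
            simp only [mem_sdiff, mem_insert, mem_singleton, not_or] at hw'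
            exact (hβ w hw'.1.1 hw'.1.2.1 hw'.2.1 hw'.2.2).2 hw'.1.2.2.2
          · apply IH
            · exact sdiff_subset.trans sdiff_subset
            all_goals simp
      · -- α, β
        apply good_ext {β, v}
        · intro a ha haD b hb hbD
          simp only [mem_insert, mem_singleton] at haD hbD
          have hv' : v ∈ T → ¬ G.Adj β v := fun h => by
            rw [hβ v h hαv.symm hβv.symm hγv.symm]; simp
          rcases haD with rfl | rfl <;> rcases hbD with rfl | rfl
          · exact G.irrefl
          · exact hv' hb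
          · exact fun h => hv' ha h.symm
          · exact G.irrefl
        · intro K hK _
          refine ⟨β, hβT, by simp, fun w hw => ?_⟩
          have hw' := hK hw
          simp only [mem_sdiff, mem_insert, mem_singleton, not_or] at hw'
          by_cases h1 : w = α
          · exact h1 ▸ hαβ.symm
          have h2 : w ≠ γ := fun h => hγT (h ▸ hw'.1)
          exact (hβ w hw'.1 h1 hw'.2.1 h2).2 hw'.2.2
        · apply good_ext {α, u}
          · intro a ha haD b hb hbD
            simp only [mem_insert, mem_singleton] at haD hbD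
            have hu' : u ∈ T \ {β, v} → ¬ G.Adj α u := fun h => by
              rw [hα u (mem_sdiff.1 h).1 hαu.symm hβu.symm hγu.symm]; simp
            rcases haD with rfl | rfl <;> rcases hbD with rfl | rfl
            · exact G.irrefl
            · exact hu' hb
            · exact fun h => hu' ha h.symm
            · exact G.irrefl
          · intro K hK _
            refine ⟨α, ?_, by simp, fun w hw => ?_⟩
            · simp [hαT, e1, hαv]
            have hw' := hK hw
            simp only [mem_sdiff, mem_insert, mem_singleton, not_or] at hw'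
            have h2 : w ≠ γ := fun h => hγT (h ▸ hw'.1.1)
            exact (hα w hw'.1.1 hw'.2.1 hw'.1.2.1 h2).2 ⟨hw'.2.2, hw'.1.2.2⟩
          · apply IH
            · exact sdiff_subset.trans sdiff_subset
            · simp
            · simp
            · simp [hγT]
    · by_cases hγT : γ ∈ T
      · -- α, γ
        apply good_ext {γ, u}
        · intro a ha haD b hb hbD
          simp only [mem_insert, mem_singleton] at haD hbD
          have hv' : u ∈ T → ¬ G.Adj γ u := fun h => by
            rw [hγ u h hαu.symm hβu.symm hγu.symm]; simp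
          rcases haD with rfl | rfl <;> rcases hbD with rfl | rfl
          · exact G.irrefl
          · exact hv' hb
          · exact fun h => hv' ha h.symm
          · exact G.irrefl
        · intro K hK _
          refine ⟨γ, hγT, by simp, fun w hw => ?_⟩
          have hw' := hK hw
          simp only [mem_sdiff, mem_insert, mem_singleton, not_or] at hw'
          by_cases h1 : w = α
          · exact h1 ▸ hαγ.symm
          have h2 : w ≠ β := fun h => hβT (h ▸ hw'.1)
          exact (hγ w hw'.1 h1 h2 hw'.2.1).2 hw'.2.2
        · apply good_ext {α, v}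
          · intro a ha haD b hb hbD
            simp only [mem_insert, mem_singleton] at haD hbD
            have hu' : v ∈ T \ {γ, u} → ¬ G.Adj α v := fun h => by
              rw [hα v (mem_sdiff.1 h).1 hαv.symm hβv.symm hγv.symm]; simp
            rcases haD with rfl | rfl <;> rcases hbD with rfl | rfl
            · exact G.irrefl
            · exact hu' hb
            · exact fun h => hu' ha h.symm
            · exact G.irrefl
          · intro K hK _
            refine ⟨α, ?_, by simp, fun w hw => ?_⟩
            · simp [hαT, e2, hαu]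
            have hw' := hK hw
            simp only [mem_sdiff, mem_insert, mem_singleton, not_or] at hw'
            have h2 : w ≠ β := fun h => hβT (h ▸ hw'.1.1)
            exact (hα w hw'.1.1 hw'.2.1 h2 hw'.1.2.1).2 ⟨hw'.1.2.2, hw'.2.2⟩
          · apply IH
            · exact sdiff_subset.trans sdiff_subset
            · simp
            · simp [hβT]
            · simp
      · -- α
        apply good_ext {α, u, v}
        · intro a ha haD b hb hbD
          simp only [mem_insert, mem_singleton] at haD hbD
          have hαu' : u ∈ T → ¬ G.Adj α u := fun h => by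
            rw [hα u h hαu.symm hβu.symm hγu.symm]; simp
          have hαv' : v ∈ T → ¬ G.Adj α v := fun h => by
            rw [hα v h hαv.symm hβv.symm hγv.symm]; simp
          rcases haD with rfl | rfl | rfl <;> rcases hbD with rfl | rfl | rfl
          · exact G.irrefl
          · exact hαu' hb
          · exact hαv' hb
          · exact fun h => hαu' ha h.symm
          · exact G.irrefl
          · exact huv
          · exact fun h => hαv' ha h.symm
          · exact hvu
          · exact G.irrefl
        · intro K hK _
          refine ⟨α, hαT, by simp, fun w hw => ?_⟩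
          have hw' := hK hw
          simp only [mem_sdiff, mem_insert, mem_singleton, not_or] at hw'
          have h1 : w ≠ β := fun h => hβT (h ▸ hw'.1)
          have h2 : w ≠ γ := fun h => hγT (h ▸ hw'.1)
          exact (hα w hw'.1 hw'.2.1 h1 h2).2 hw'.2.2
        · apply IH
          · exact sdiff_subset
          · simp
          · simp [hβT]
          · simp [hγT]
  · by_cases hβT : β ∈ T
    · by_cases hγT : γ ∈ T
      · -- β, γ
        apply good_ext {β, γ}
        · intro a ha haD b hb hbD
          simp only [mem_insert, mem_singleton] at haD hbD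
          rcases haD with rfl | rfl <;> rcases hbD with rfl | rfl
          · exact G.irrefl
          · exact hβγ
          · exact hγβ
          · exact G.irrefl
        · intro K hK hKc
          have hmem : ∀ w ∈ K, w ∈ T ∧ w ≠ α ∧ w ≠ β ∧ w ≠ γ := fun w hw => by
            have hw' := hK hw
            simp only [mem_sdiff, mem_insert, mem_singleton, not_or] at hw'
            exact ⟨hw'.1, fun h => hαT (h ▸ hw'.1), hw'.2.1, hw'.2.2⟩
          by_cases hv : v ∈ K
          · refine ⟨γ, hγT, by simp, fun w hw => ?_⟩
            obtain ⟨h1, h2, h3, h4⟩ := hmem w hw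
            refine (hγ w h1 h2 h3 h4).2 ?_
            rintro rfl
            exact huv (hKc hw hv hne)
          · refine ⟨β, hβT, by simp, fun w hw => ?_⟩
            obtain ⟨h1, h2, h3, h4⟩ := hmem w hw
            refine (hβ w h1 h2 h3 h4).2 ?_
            rintro rfl
            exact hv hw
        · apply IH
          · exact sdiff_subset
          · simp [hαT]
          · simp
          · simp
      · -- β
        apply good_ext {β, v}
        · intro a ha haD b hb hbD
          simp only [mem_insert, mem_singleton] at haD hbD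
          have hv' : v ∈ T → ¬ G.Adj β v := fun h => by
            rw [hβ v h hαv.symm hβv.symm hγv.symm]; simp
          rcases haD with rfl | rfl <;> rcases hbD with rfl | rfl
          · exact G.irrefl
          · exact hv' hb
          · exact fun h => hv' ha h.symm
          · exact G.irrefl
        · intro K hK _
          refine ⟨β, hβT, by simp, fun w hw => ?_⟩
          have hw' := hK hw
          simp only [mem_sdiff, mem_insert, mem_singleton, not_or] at hw'
          have h1 : w ≠ α := fun h => hαT (h ▸ hw'.1)
          have h2 : w ≠ γ := fun h => hγT (h ▸ hw'.1)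
          exact (hβ w hw'.1 h1 hw'.2.1 h2).2 hw'.2.2
        · apply IH
          · exact sdiff_subset
          · simp [hαT]
          · simp
          · simp [hγT]
    · by_cases hγT : γ ∈ T
      · -- γ
        apply good_ext {γ, u}
        · intro a ha haD b hb hbD
          simp only [mem_insert, mem_singleton] at haD hbD
          have hv' : u ∈ T → ¬ G.Adj γ u := fun h => by
            rw [hγ u h hαu.symm hβu.symm hγu.symm]; simp
          rcases haD with rfl | rfl <;> rcases hbD with rfl | rfl
          · exact G.irrefl
          · exact hv' hb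
          · exact fun h => hv' ha h.symm
          · exact G.irrefl
        · intro K hK _
          refine ⟨γ, hγT, by simp, fun w hw => ?_⟩
          have hw' := hK hw
          simp only [mem_sdiff, mem_insert, mem_singleton, not_or] at hw'
          have h1 : w ≠ α := fun h => hαT (h ▸ hw'.1)
          have h2 : w ≠ β := fun h => hβT (h ▸ hw'.1)
          exact (hγ w hw'.1 h1 h2 hw'.2.1).2 hw'.2.2
        · apply IH
          · exact sdiff_subset
          · simp [hαT]
          · simp [hβT]
          · simp
      · exact IH T subset_rfl hαT hβT hγT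

/-! ### Odd holes -/

/-- An induced cycle of length `m`, as a function. -/
def Hole (G : SimpleGraph V) (m : ℕ) (f : ℕ → V) : Prop :=
  ∀ i < m, ∀ j < m, (G.Adj (f i) (f j) ↔ (i + 1) % m = j ∨ (j + 1) % m = i)

theorem not_hole {G : SimpleGraph V} {l : ℕ} (hl : 2 ≤ l) {f : ℕ → V}
    (hgood : Good G ((range (2 * l + 1)).image f)) : ¬ Hole G (2 * l + 1) f := by
  classical
  intro hole
  obtain ⟨k, ⟨K, hK, hKc, hKk⟩, c, h1, h2⟩ := hgood
  have hk : k ≤ 2 := by
    by_contra hcon
    have h3 : 2 < K.card := by omega
    obtain ⟨x, y, z, hx, hy, hz, hxy, hxz, hyz⟩ := two_lt_card_iff.1 h3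
    obtain ⟨a, ha, rfl⟩ := mem_image.1 (hK hx)
    obtain ⟨b, hb, rfl⟩ := mem_image.1 (hK hy)
    obtain ⟨d, hd, rfl⟩ := mem_image.1 (hK hz)
    have h4 := (hole a (mem_range.1 ha) b (mem_range.1 hb)).1 (hKc hx hy hxy)
    have h5 := (hole a (mem_range.1 ha) d (mem_range.1 hd)).1 (hKc hx hz hxz)
    have h6 := (hole b (mem_range.1 hb) d (mem_range.1 hd)).1 (hKc hy hz hyz)
    rw [mem_range] at ha hb hd
    have key : ∀ i < 2 * l + 1, (i + 1) % (2 * l + 1) = if i = 2 * l then 0 else i + 1 := by
      intro i hi
      split_ifs with h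
      · subst h; simp
      · exact Nat.mod_eq_of_lt (by omega)
    rw [key a ha, key b hb] at h4
    rw [key a ha, key d hd] at h5
    rw [key b hb, key d hd] at h6
    have hab : a ≠ b := fun h => hxy (by rw [h])
    have had : a ≠ d := fun h => hxz (by rw [h])
    have hbd : b ≠ d := fun h => hyz (by rw [h])
    split_ifs at h4 h5 h6 <;> omega
  have hmem : ∀ i, i < 2 * l + 1 → f i ∈ (range (2 * l + 1)).image f := fun i hi =>
    mem_image_of_mem f (mem_range.2 hi)
  have hstep : ∀ i, i + 1 < 2 * l + 1 → c (f i) ≠ c (f (i + 1)) := fun i hi =>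
    h2 _ (hmem i (by omega)) _ (hmem (i + 1) hi)
      ((hole i (by omega) (i + 1) hi).2 (Or.inl (Nat.mod_eq_of_lt hi)))
  have hlt : ∀ i, i < 2 * l + 1 → c (f i) < 2 := fun i hi => (h1 _ (hmem i hi)).trans_le hk
  have hpar : ∀ i, i < 2 * l + 1 → c (f i) = (c (f 0) + i) % 2 := by
    intro i
    induction i with
    | zero =>
      intro _
      have := hlt 0 (by omega)
      omega
    | succ i ih =>
      intro hi
      have h3 := ih (by omega)
      have h4 := hstep i hi
      have h5 := hlt (i + 1) hi
      have h6 := hlt i (by omega)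
      omega
  have hlast := h2 _ (hmem (2 * l) (by omega)) _ (hmem 0 (by omega))
    ((hole (2 * l) (by omega) 0 (by omega)).2 (Or.inl (by simp)))
  have h7 := hpar (2 * l) (by omega)
  have h8 := hpar 0 (by omega)
  omega

/-! ### Perfect graphs -/

theorem Perfect.good {V : Type} [DecidableEq V] {G : SimpleGraph V} (h : Perfect G)
    (T : Finset V) : Good G T := by
  classical
  have hT := h (T : Set V)
  set H := G.induce (T : Set V) with hH
  have hcol : H.Colorable H.cliqueNum := by
    have hle : H.chromaticNumber ≤ (H.cliqueNum : ℕ∞) := hT.le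
    exact SimpleGraph.chromaticNumber_le_iff_colorable.1 hle
  refine ⟨H.cliqueNum, ?_, ?_⟩
  · obtain ⟨s, hs⟩ := H.exists_isNClique_cliqueNum
    refine ⟨s.map (Function.Embedding.subtype _), ?_, ?_, ?_⟩
    · intro v hv
      rw [mem_map] at hv
      obtain ⟨w, _, rfl⟩ := hv
      exact w.2
    · intro a ha b hb hab
      rw [mem_coe, mem_map] at ha hb
      obtain ⟨a', ha', rfl⟩ := ha
      obtain ⟨b', hb', rfl⟩ := hb
      have hne : a' ≠ b' := fun h => hab (by rw [h])
      exact hs.1 ha' hb' hne
    · rw [card_map]
      exact hs.2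
  · obtain ⟨C⟩ := hcol
    refine ⟨fun v => if hv : v ∈ T then (C ⟨v, hv⟩ : ℕ) else 0, ?_, ?_⟩
    · intro v hv
      simp only [hv, dite_true]
      exact (C ⟨v, hv⟩).2
    · intro u hu v hv huv
      simp only [hu, hv, dite_true]
      intro heq
      exact C.valid (v := ⟨u, hu⟩) (w := ⟨v, hv⟩) huv (Fin.ext heq)

theorem perfect_of_good {V : Type} [Fintype V] [DecidableEq V] {G : SimpleGraph V}
    (h : ∀ T : Finset V, Good G T) : Perfect G := by
  classical
  intro s
  obtain ⟨k, ⟨K, hK, hKc, hKk⟩, f, h1, h2⟩ := h s.toFinset
  have hcol : (G.induce s).Colorable k := by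
    refine ⟨SimpleGraph.Coloring.mk (fun v => (⟨f v, h1 v (by simp)⟩ : Fin k)) ?_⟩
    intro a b hab heq
    exact h2 a (by simp) b (by simp) hab (by simpa using congrArg Fin.val heq)
  have hclq : k ≤ (G.induce s).cliqueNum := by
    have hKs : ∀ v ∈ K, v ∈ s := fun v hv => by simpa using hK hv
    have : (G.induce s).IsNClique k (K.subtype (· ∈ s)) := by
      constructor
      · intro a ha b hb hab
        rw [mem_coe, mem_subtype] at ha hb
        exact hKc ha hb (fun h => hab (Subtype.ext h))
      · rw [card_subtype, filter_true_of_mem hKs, hKk]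
    have h3 := this.1.card_le_cliqueNum
    rw [this.2] at h3
    exact h3
  apply le_antisymm
  · calc (G.induce s).chromaticNumber ≤ (k : ℕ∞) := hcol.chromaticNumber_le
      _ ≤ _ := by exact_mod_cast hclq
  · exact SimpleGraph.cliqueNum_le_chromaticNumber

end Pool.Agent.H418R2.Perf
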