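import Pool.Agent.H418R2.Perf
import Pool.Agent.H671R2.PolyAuto

/-!
# Definitions: partitioned probe perfect graphs
-/

namespace Pool.Agent.H418R2.Perf

open Pool.Agent.NPC

/-- An instance: a graph on the vertices `0, ..., n - 1` with a partition of its vertices into
probes and nonprobes. -/
structure Inst where
  n : ℕ
  G : SimpleGraph (Fin n)
  nonprobe : Fin n → Bool

/-- An instance as a list of bits (which vertices are nonprobes) and an adjacency matrix. -/
noncomputable def Inst.toLists (I : Inst) : List Bool × List (List Bool) :=
  (List.ofFn I.nonprobe, R671.adjMatrix I.G)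

theorem Inst.toLists_injective : Function.Injective Inst.toLists := by
  rintro ⟨n, G, N⟩ ⟨n', G', N'⟩ h
  unfold Inst.toLists at h
  rw [Prod.mk.injEq] at h
  have hn : n = n' := by
    have := congrArg List.length h.1
    simpa using this
  subst hn
  have h1 := List.ofFn_injective h.1
  have h2 := R671.adjMatrix_inj h.2
  simp only at h1 h2
  subst h1 h2
  rfl

/-- Instances are encoded through `Inst.toLists`. -/
noncomputable instance : TEnc Inst :=
  ⟨fun I => toT I.toLists, fun _ _ h => Inst.toLists_injective (TEnc.inj h)⟩

/-- The instance is a partitioned probe perfect graph: the nonprobes are pairwise nonadjacent, and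
a perfect graph can be obtained by adding edges between nonprobes. -/
def PartitionedProbePerfect (I : Inst) : Prop :=
  (∀ u v, I.nonprobe u = true → I.nonprobe v = true → ¬ I.G.Adj u v) ∧
  ∃ F : SimpleGraph (Fin I.n), (∀ u v, F.Adj u v → I.nonprobe u = true ∧ I.nonprobe v = true) ∧
    Perfect (I.G ⊔ F)

end Pool.Agent.H418R2.Perf
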