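import Pool.Agent.H418R2.PerfSound
import Pool.Agent.H418R2.PerfDefs
import Pool.Agent.NPC.Sat2

/-!
# Recognising partitioned probe perfect graphs is NP-hard
-/

namespace Pool.Agent.H418R2.Perf

open Finset Pool.Agent.NPC

/-- Codes of the vertices of the final graph. -/
abbrev CV : Type := HV ⊕ (HV × HV × ℕ)

/-- Adjacency in the final graph (nonprobes are the codes `inl u`). -/
def adjC (st : HV → HV → ℕ) (x y : CV) : Bool :=
  Sum.elim (fun w : HV => Sum.elim (fun _ : HV => false) (fun g : HV × HV × ℕ => side st w g) y)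
    (fun g : HV × HV × ℕ => Sum.elim (fun w : HV => side st w g)
      (fun g' : HV × HV × ℕ => probe st g g') y) x

theorem adjC_comm (st : HV → HV → ℕ) (x y : CV) : adjC st x y = adjC st y x := by
  rcases x with w | g <;> rcases y with w' | g'
  · rfl
  · rfl
  · rfl
  · exact probe_comm st g g'

theorem adjC_self (st : HV → HV → ℕ) (x : CV) : adjC st x x = false := by
  rcases x with w | g
  · rfl
  · exact probe_self st g

def isN (x : CV) : Bool := Sum.elim (fun _ : HV => true) (fun _ : HV × HV × ℕ => false) x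

def hvs (n M : ℕ) : List HV :=
  (List.range n).flatMap (fun x => [Sum.inl (false, x), Sum.inl (true, x)]) ++
  (List.range M).flatMap (fun c => (List.range 8).map (fun i => Sum.inr (c, i)))

def cvs (n M : ℕ) : List CV :=
  (hvs n M).map Sum.inl ++ (hvs n M).flatMap (fun u => (hvs n M).flatMap (fun v =>
    (List.range 3).map (fun r => Sum.inr (u, v, r))))

theorem mem_hvs {n M : ℕ} {u : HV} : u ∈ hvs n M ↔ ValidV n M u := by
  unfold hvs ValidV
  rcases u with ⟨s, x⟩ | ⟨c, i⟩
  · cases s <;> simp
  · simp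

theorem nodup_hvs (n M : ℕ) : (hvs n M).Nodup := by
  unfold hvs
  rw [List.nodup_append']
  refine ⟨?_, ?_, ?_⟩
  · rw [List.nodup_flatMap]
    refine ⟨fun x _ => by simp, ?_⟩
    refine List.Nodup.pairwise_of_forall_ne List.nodup_range ?_
    intro a _ b _ hab
    rw [Function.onFun, List.disjoint_left]
    intro v hv hv'
    simp only [List.mem_cons, List.not_mem_nil, or_false] at hv hv'
    rcases hv with rfl | rfl <;> rcases hv' with h | h <;> simp_all
  · rw [List.nodup_flatMap]
    refine ⟨fun x _ => ?_, ?_⟩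
    · exact List.nodup_range.map (fun a b h => by simpa using h)
    · refine List.Nodup.pairwise_of_forall_ne List.nodup_range ?_
      intro a _ b _ hab
      rw [Function.onFun, List.disjoint_left]
      intro v hv hv'
      simp only [List.mem_map] at hv hv'
      obtain ⟨i, _, rfl⟩ := hv
      obtain ⟨j, _, h⟩ := hv'
      simp only [Sum.inr.injEq, Prod.mk.injEq] at h
      exact hab h.1.symm
  · intro v hv hv'
    simp only [List.mem_flatMap, List.mem_map, List.mem_cons, List.not_mem_nil, or_false] at hv hv'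
    obtain ⟨_, _, h⟩ := hv
    obtain ⟨_, _, _, _, rfl⟩ := hv'
    rcases h with h | h <;> simp at h

theorem mem_cvs {n M : ℕ} {x : CV} : x ∈ cvs n M ↔
    Sum.elim (fun u : HV => ValidV n M u)
      (fun g : HV × HV × ℕ => ValidV n M g.1 ∧ ValidV n M g.2.1 ∧ g.2.2 < 3) x := by
  unfold cvs
  rw [List.mem_append, List.mem_map, List.mem_flatMap]
  rcases x with u | ⟨u, v, r⟩
  · simp only [Sum.elim_inl]
    constructor
    · rintro (⟨w, hw, h⟩ | ⟨w, _, h⟩)
      · rw [← Sum.inl_injective h]
        exact mem_hvs.1 hw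
      · rw [List.mem_flatMap] at h
        obtain ⟨w', _, h⟩ := h
        rw [List.mem_map] at h
        obtain ⟨r, _, h⟩ := h
        exact absurd h (by simp)
    · intro h
      exact Or.inl ⟨u, mem_hvs.2 h, rfl⟩
  · simp only [Sum.elim_inr]
    constructor
    · rintro (⟨w, hw, h⟩ | ⟨w, hw, h⟩)
      · exact absurd h (by simp)
      · rw [List.mem_flatMap] at h
        obtain ⟨w', hw', h⟩ := h
        rw [List.mem_map] at h
        obtain ⟨r', hr', h⟩ := h
        have h' := Sum.inr_injective h
        rw [Prod.mk.injEq, Prod.mk.injEq] at h'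
        obtain ⟨rfl, rfl, rfl⟩ := h'
        exact ⟨mem_hvs.1 hw, mem_hvs.1 hw', List.mem_range.1 hr'⟩
    · rintro ⟨h1, h2, h3⟩
      refine Or.inr ⟨u, mem_hvs.2 h1, ?_⟩
      rw [List.mem_flatMap]
      refine ⟨v, mem_hvs.2 h2, ?_⟩
      rw [List.mem_map]
      exact ⟨r, List.mem_range.2 h3, rfl⟩

theorem nodup_cvs (n M : ℕ) : (cvs n M).Nodup := by
  unfold cvs
  rw [List.nodup_append']
  refine ⟨(nodup_hvs n M).map Sum.inl_injective, ?_, ?_⟩
  · rw [List.nodup_flatMap]
    refine ⟨fun u _ => ?_, ?_⟩
    · rw [List.nodup_flatMap]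
      refine ⟨fun v _ => List.nodup_range.map (fun a b h => by simpa using h), ?_⟩
      refine List.Nodup.pairwise_of_forall_ne (nodup_hvs n M) ?_
      intro a _ b _ hab
      rw [Function.onFun, List.disjoint_left]
      intro v hv hv'
      simp only [List.mem_map] at hv hv'
      obtain ⟨i, _, rfl⟩ := hv
      obtain ⟨j, _, h⟩ := hv'
      simp only [Sum.inr.injEq, Prod.mk.injEq] at h
      exact hab h.2.1.symm
    · refine List.Nodup.pairwise_of_forall_ne (nodup_hvs n M) ?_
      intro a _ b _ hab
      rw [Function.onFun, List.disjoint_left]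
      intro v hv hv'
      simp only [List.mem_map, List.mem_flatMap] at hv hv'
      obtain ⟨_, _, i, _, rfl⟩ := hv
      obtain ⟨_, _, j, _, h⟩ := hv'
      simp only [Sum.inr.injEq, Prod.mk.injEq] at h
      exact hab h.1.symm
  · intro v hv hv'
    simp only [List.mem_flatMap, List.mem_map] at hv hv'
    obtain ⟨_, _, rfl⟩ := hv
    obtain ⟨_, _, _, _, _, _, h⟩ := hv'
    simp at h

/-- The instance built from a list of gadgets. -/
def mkI (n one : ℕ) (gs : List Gad) : Inst where
  n := (cvs n gs.length).length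
  G := R671.listGraph (cvs n gs.length)
    (adjC (stH one (fun c => gs.getD c (false, 0, 0, 0)))) (adjC_comm _) (adjC_self _)
  nonprobe i := isN (cvs n gs.length)[i]

theorem frc_ring {ty e0 e1 e2 : Bool} {i i' : ℕ} (h : frc ty i i' = true) :
    ring ty e0 e1 e2 i i' = true := by
  unfold frc at h
  unfold ring
  cases ty
  · simp only [Bool.false_eq_true, if_false, Bool.or_eq_true] at h ⊢
    exact Or.inr (Or.inr h)
  · simp at h

theorem ring_of {ty e0 e1 e2 : Bool} {i i' : ℕ} (h : ring ty e0 e1 e2 i i' = true) :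
    opt ty i i' = true ∨ frc ty i i' = true := by
  unfold ring at h
  unfold frc opt
  cases ty
  · simp only [Bool.false_eq_true, if_false, Bool.or_eq_true, Bool.and_eq_true] at h ⊢
    tauto
  · simp only [if_true, Bool.or_eq_true, Bool.and_eq_true, Bool.false_eq_true, or_false] at h ⊢
    tauto

theorem stH_edge {one : ℕ} {g : ℕ → Gad} {y : ℕ → Bool} (hone : y one = true) (u v : HV)
    (h : stH one g u v = 1) : (HG g y).Adj u v := by
  rcases u with ⟨s, x⟩ | ⟨c, i⟩ <;> rcases v with ⟨s', x'⟩ | ⟨c', i'⟩
  · simp only [stH, Sum.elim_inl] at h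
    by_cases h1 : x = x'
    · rw [if_pos h1] at h
      by_cases h2 : s = s'
      · rw [if_pos h2] at h
        exact absurd h (by omega)
      · rw [if_neg h2] at h
        by_cases h3 : x = one
        · exact ⟨h1, h2, by rw [h3]; exact hone⟩
        · rw [if_neg h3] at h
          exact absurd h (by omega)
    · rw [if_neg h1] at h
      exact absurd h (by omega)
  · simp only [stH, Sum.elim_inl, Sum.elim_inr] at h
    by_cases h1 : att (g c') s x i' = true
    · exact h1
    · rw [if_neg h1] at h
      exact absurd h (by omega)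
  · simp only [stH, Sum.elim_inl, Sum.elim_inr] at h
    by_cases h1 : att (g c) s' x' i = true
    · exact h1
    · rw [if_neg h1] at h
      exact absurd h (by omega)
  · simp only [stH, Sum.elim_inr] at h
    by_cases h1 : c = c'
    · rw [if_pos h1] at h
      by_cases h2 : i = i'
      · rw [if_pos h2] at h
        exact absurd h (by omega)
      · rw [if_neg h2] at h
        by_cases h3 : opt (g c).1 i i' = true
        · rw [if_pos h3] at h
          exact absurd h (by omega)
        · rw [if_neg h3] at h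
          by_cases h4 : frc (g c).1 i i' = true
          · exact Or.inr (frc_ring h4)
          · rw [if_neg h4] at h
            exact absurd h (by omega)
    · exact Or.inl h1

theorem stH_nonedge {one : ℕ} {g : ℕ → Gad} {y : ℕ → Bool} (u v : HV)
    (h : stH one g u v = 2) : u ≠ v ∧ ¬ (HG g y).Adj u v := by
  rcases u with ⟨s, x⟩ | ⟨c, i⟩ <;> rcases v with ⟨s', x'⟩ | ⟨c', i'⟩
  · simp only [stH, Sum.elim_inl] at h
    by_cases h1 : x = x'
    · rw [if_pos h1] at h
      by_cases h2 : s = s'
      · rw [if_pos h2] at h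
        exact absurd h (by omega)
      · rw [if_neg h2] at h
        by_cases h3 : x = one
        · rw [if_pos h3] at h
          exact absurd h (by omega)
        · rw [if_neg h3] at h
          exact absurd h (by omega)
    · refine ⟨fun h2 => h1 ?_, fun h2 => h1 h2.1⟩
      simpa using (congrArg (fun z : HV => Sum.elim Prod.snd (fun _ => 0) z) h2)
  · simp only [stH, Sum.elim_inl, Sum.elim_inr] at h
    by_cases h1 : att (g c') s x i' = true
    · rw [if_pos h1] at h
      exact absurd h (by omega)
    · exact ⟨by simp, h1⟩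
  · simp only [stH, Sum.elim_inl, Sum.elim_inr] at h
    by_cases h1 : att (g c) s' x' i = true
    · rw [if_pos h1] at h
      exact absurd h (by omega)
    · exact ⟨by simp, h1⟩
  · simp only [stH, Sum.elim_inr] at h
    by_cases h1 : c = c'
    · rw [if_pos h1] at h
      by_cases h2 : i = i'
      · rw [if_pos h2] at h
        exact absurd h (by omega)
      · rw [if_neg h2] at h
        by_cases h3 : opt (g c).1 i i' = true
        · rw [if_pos h3] at h
          exact absurd h (by omega)
        · rw [if_neg h3] at h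
          by_cases h4 : frc (g c).1 i i' = true
          · rw [if_pos h4] at h
            exact absurd h (by omega)
          · refine ⟨fun h5 => h2 ?_, ?_⟩
            · have := congrArg (fun z : HV => Sum.elim (fun _ => 0) Prod.snd z) h5
              simpa using this
            · rintro (h5 | h5)
              · exact h5 h1
              · rcases ring_of h5 with h6 | h6
                · exact h3 h6
                · exact h4 h6
    · rw [if_neg h1] at h
      exact absurd h (by omega)

/-- The conditions on the lists of gadgets. -/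
def OkGs (n one xp : ℕ) (gs : List Gad) : Prop :=
  one < n ∧ xp < n ∧ ∀ g ∈ gs, DistinctG g ∧ posn g xp = 3 ∧
    (∀ j ∈ [0, 1, 2], (g.1 = false → j ≠ 2) → vr g j < n)

section Gen

variable {V : Type} [DecidableEq V] {G : SimpleGraph V} {st : V → V → ℕ} {P : V → Prop}

theorem gen_list (hgood : ∀ T : Finset (V ⊕ (V × V × ℕ)), (∀ x ∈ T, Sum.elim P
      (fun z : V × V × ℕ => P z.1 ∧ P z.2.1 ∧ z.2.2 < 3) x) → Good (hat G st) T)
    {u v : V} (hu : P u) (hv : P v) (l : List (V ⊕ (V × V × ℕ)))
    (hl : ∀ x ∈ l, x = Sum.inl u ∨ x = Sum.inl v ∨ ∃ r < 3, x = Sum.inr (u, v, r)) :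
    Good (hat G st) ((range 5).image (fun i => l.getD i (Sum.inl u))) := by
  apply hgood
  intro x hx
  obtain ⟨i, _, rfl⟩ := mem_image.1 hx
  have hx2 : ∀ z : V ⊕ (V × V × ℕ), (z = Sum.inl u ∨ z = Sum.inl v ∨
      ∃ r < 3, z = Sum.inr (u, v, r)) →
      Sum.elim P (fun z : V × V × ℕ => P z.1 ∧ P z.2.1 ∧ z.2.2 < 3) z := by
    rintro z (rfl | rfl | ⟨r, hr, rfl⟩)
    · exact hu
    · exact hv
    · exact ⟨hu, hv, hr⟩
  by_cases hil : i < l.length
  · rw [List.getD_eq_getElem _ _ hil]
    exact hx2 _ (hl _ (List.getElem_mem hil))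
  · rw [List.getD_eq_default _ _ (by omega)]
    exact hx2 _ (Or.inl rfl)

theorem gen_edge (hgood : ∀ T : Finset (V ⊕ (V × V × ℕ)), (∀ x ∈ T, Sum.elim P
      (fun z : V × V × ℕ => P z.1 ∧ P z.2.1 ∧ z.2.2 < 3) x) → Good (hat G st) T) :
    ∀ u v, P u → P v → u ≠ v → st u v = 1 → G.Adj u v := by
  intro u v hu hv hne h
  apply hat_edge (st := st) h hne
  apply gen_list hgood hu hv
  intro x hx
  simp only [List.mem_cons, List.not_mem_nil, or_false] at hx
  rcases hx with rfl | rfl | rfl | rfl | rfl
  · exact Or.inl rfl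
  · exact Or.inr (Or.inr ⟨0, by omega, rfl⟩)
  · exact Or.inr (Or.inl rfl)
  · exact Or.inr (Or.inr ⟨1, by omega, rfl⟩)
  · exact Or.inr (Or.inr ⟨2, by omega, rfl⟩)

theorem gen_nonedge (hgood : ∀ T : Finset (V ⊕ (V × V × ℕ)), (∀ x ∈ T, Sum.elim P
      (fun z : V × V × ℕ => P z.1 ∧ P z.2.1 ∧ z.2.2 < 3) x) → Good (hat G st) T) :
    ∀ u v, P u → P v → u ≠ v → st u v = 2 → ¬ G.Adj u v := by
  intro u v hu hv hne h
  apply hat_nonedge (st := st) h hne
  apply gen_list hgood hu hv
  intro x hx
  simp only [List.mem_cons, List.not_mem_nil, or_false] at hx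
  rcases hx with rfl | rfl | rfl | rfl | rfl
  · exact Or.inl rfl
  · exact Or.inr (Or.inr ⟨1, by omega, rfl⟩)
  · exact Or.inr (Or.inr ⟨0, by omega, rfl⟩)
  · exact Or.inr (Or.inr ⟨2, by omega, rfl⟩)
  · exact Or.inr (Or.inl rfl)

theorem gen_inl (hgood : ∀ T : Finset (V ⊕ (V × V × ℕ)), (∀ x ∈ T, Sum.elim P
      (fun z : V × V × ℕ => P z.1 ∧ P z.2.1 ∧ z.2.2 < 3) x) → Good (hat G st) T) :
    ∀ T : Finset V, (∀ v ∈ T, P v) → Good G T := by
  intro T hT
  have h1 : (hat G st).comap Sum.inl = G := by
    ext u v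
    rfl
  rw [← h1, good_image Sum.inl_injective]
  apply hgood
  intro x hx
  obtain ⟨u, hu, rfl⟩ := mem_image.1 hx
  exact hT u hu

end Gen

section Abs

variable {N n one xp M : ℕ} {G0 : SimpleGraph (Fin N)} {np : Fin N → Bool} {f : Fin N → CV}
  {g : ℕ → Gad}

theorem abs_forward (hinj : Function.Injective f)
    (hrange : ∀ x : CV, (∃ i, f i = x) ↔ Sum.elim (fun u : HV => ValidV n M u)
      (fun z : HV × HV × ℕ => ValidV n M z.1 ∧ ValidV n M z.2.1 ∧ z.2.2 < 3) x)
    (hG0 : ∀ i j, G0.Adj i j ↔ adjC (stH one g) (f i) (f j) = true)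
    (hnp : ∀ i, np i = isN (f i)) {F : SimpleGraph (Fin N)}
    (hF : ∀ u v, F.Adj u v → np u = true ∧ np v = true) (hperf : Perfect (G0 ⊔ F)) :
    ∃ G : SimpleGraph HV, ∀ T : Finset CV, (∀ x ∈ T, ∃ i, f i = x) →
      Good (hat G (stH one g)) T := by
  classical
  let G : SimpleGraph HV :=
    { Adj := fun u v => ∃ i j : Fin N, f i = Sum.inl u ∧ f j = Sum.inl v ∧ (G0 ⊔ F).Adj i j
      symm := ⟨fun u v ⟨i, j, h1, h2, h3⟩ => ⟨j, i, h2, h1, h3.symm⟩⟩
      loopless := ⟨fun u ⟨i, j, h1, h2, h3⟩ => by
        have : i = j := hinj (h1.trans h2.symm)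
        subst this
        exact (G0 ⊔ F).loopless.irrefl _ h3⟩ }
  refine ⟨G, ?_⟩
  have hnot : ∀ i, (∀ u, f i ≠ Sum.inl u) → ∀ j, ¬ F.Adj i j := by
    intro i hi j h
    have := (hF i j h).1
    rw [hnp] at this
    rcases hfi : f i with u | a
    · exact hi u hfi
    · rw [hfi] at this
      exact absurd this (by simp [isN])
  have hcomap : G0 ⊔ F = (hat G (stH one g)).comap f := by
    ext i j
    rw [SimpleGraph.comap_adj]
    have hor : (G0 ⊔ F).Adj i j ↔ G0.Adj i j ∨ F.Adj i j := SimpleGraph.sup_adj _ _ _ _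
    rcases hi : f i with u | a
    · rcases hj : f j with v | b
      · rw [hat_inl_inl]
        constructor
        · intro h
          exact ⟨i, j, hi, hj, h⟩
        · rintro ⟨i', j', hi', hj', h⟩
          have e1 : i' = i := hinj (hi'.trans hi.symm)
          have e2 : j' = j := hinj (hj'.trans hj.symm)
          rwa [e1, e2] at h
      · rw [hat_inl_inr, hor, hG0, hi, hj]
        constructor
        · rintro (h | h)
          · exact h
          · exact absurd h.symm (hnot j (by rw [hj]; simp) i)
        · intro h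
          exact Or.inl h
    · have hFi := hnot i (by rw [hi]; simp) j
      rcases hj : f j with v | b
      · rw [hat_inr_inl, hor, hG0, hi, hj]
        constructor
        · rintro (h | h)
          · exact h
          · exact absurd h hFi
        · intro h
          exact Or.inl h
      · rw [hat_inr_inr, hor, hG0, hi, hj]
        constructor
        · rintro (h | h)
          · exact h
          · exact absurd h hFi
        · intro h
          exact Or.inl h
  intro T hT
  have hTim : T = (T.preimage f hinj.injOn).image f := by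
    ext x
    simp only [mem_image, mem_preimage]
    constructor
    · intro hx
      obtain ⟨i, hi⟩ := hT x hx
      refine ⟨i, ?_, hi⟩
      rw [hi]
      exact hx
    · rintro ⟨i, hi, rfl⟩
      exact hi
  rw [hTim, ← good_image hinj, ← hcomap]
  exact hperf.good _

theorem abs_sat {gs : List Gad} (hgs : OkGs n one xp gs) (hM : M = gs.length)
    (hg : ∀ c < M, ∀ hc : c < gs.length, g c = gs[c]) {G : SimpleGraph HV}
    (hgoodC : ∀ T : Finset CV, (∀ x ∈ T, Sum.elim (fun u : HV => ValidV n M u)
      (fun z : HV × HV × ℕ => ValidV n M z.1 ∧ ValidV n M z.2.1 ∧ z.2.2 < 3) x) →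
      Good (hat G (stH one g)) T) :
    ∃ y : ℕ → Bool, y one = true ∧ ∀ gg ∈ gs, SatG gg y = true := by
  classical
  have hgoodH : ∀ T : Finset HV, (∀ v ∈ T, ValidV n M v) → Good G T :=
    gen_inl (P := ValidV n M) hgoodC
  have h1 : ∀ u v, ValidV n M u → ValidV n M v → u ≠ v → stH one g u v = 1 → G.Adj u v :=
    gen_edge (P := ValidV n M) hgoodC
  have h2 : ∀ u v, ValidV n M u → ValidV n M v → u ≠ v → stH one g u v = 2 → ¬ G.Adj u v :=
    gen_nonedge (P := ValidV n M) hgoodC
  refine ⟨fun x => decide (G.Adj (Sum.inl (false, x)) (Sum.inl (true, x))), ?_, fun gg hgg => ?_⟩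
  · have hv1 : ValidV n M (Sum.inl (false, one)) := hgs.1
    have hv2 : ValidV n M (Sum.inl (true, one)) := hgs.1
    have hne : (Sum.inl (false, one) : HV) ≠ Sum.inl (true, one) := by simp
    have hst : stH one g (Sum.inl (false, one)) (Sum.inl (true, one)) = 1 := by simp [stH]
    exact decide_eq_true (h1 _ _ hv1 hv2 hne hst)
  · obtain ⟨c, hc, hcg⟩ := List.getElem_of_mem hgg
    have hcM : c < M := by rw [hM]; exact hc
    have hgc : g c = gg := by
      rw [hg c hcM hc, hcg]
    obtain ⟨hd, hp, hv⟩ := hgs.2.2 gg hgg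
    rw [← hgc] at hd hp hv ⊢
    exact sound h1 h2 hgoodH hcM hd hv hgs.2.1 hp _ (fun x => by simp)

theorem abs_backward (hinj : Function.Injective f)
    (hrange : ∀ x : CV, (∃ i, f i = x) ↔ Sum.elim (fun u : HV => ValidV n M u)
      (fun z : HV × HV × ℕ => ValidV n M z.1 ∧ ValidV n M z.2.1 ∧ z.2.2 < 3) x)
    (hG0 : ∀ i j, G0.Adj i j ↔ adjC (stH one g) (f i) (f j) = true)
    (hnp : ∀ i, np i = isN (f i)) {y : ℕ → Bool} (hy1 : y one = true)
    (hsat : ∀ c < M, SatG (g c) y = true) :
    (∀ u v, np u = true → np v = true → ¬ G0.Adj u v) ∧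
    ∃ F : SimpleGraph (Fin N), (∀ u v, F.Adj u v → np u = true ∧ np v = true) ∧
      Perfect (G0 ⊔ F) := by
  classical
  have hN : ∀ i : Fin N, np i = true ↔ ∃ u, f i = Sum.inl u := by
    intro i
    rw [hnp]
    rcases h : f i with u | z
    · simp [isN]
    · simp [isN]
  refine ⟨?_, ?_⟩
  · intro i j hi hj
    obtain ⟨u, hu⟩ := (hN i).1 hi
    obtain ⟨v, hv⟩ := (hN j).1 hj
    rw [hG0, hu, hv]
    simp [adjC]
  · let F : SimpleGraph (Fin N) :=
      { Adj := fun i j => ∃ u v, f i = Sum.inl u ∧ f j = Sum.inl v ∧ (HG g y).Adj u v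
        symm := ⟨fun i j ⟨u, v, h1, h2, h3⟩ => ⟨v, u, h2, h1, h3.symm⟩⟩
        loopless := ⟨fun i ⟨u, v, h1, h2, h3⟩ => by
          have : u = v := Sum.inl_injective (h1.symm.trans h2)
          subst this
          exact (HG g y).loopless.irrefl _ h3⟩ }
    refine ⟨F, ?_, ?_⟩
    · rintro i j ⟨u, v, h1, h2, _⟩
      exact ⟨(hN i).2 ⟨u, h1⟩, (hN j).2 ⟨v, h2⟩⟩
    · have hcomap : G0 ⊔ F = (hat (HG g y) (stH one g)).comap f := by
        ext i j
        rw [SimpleGraph.comap_adj]
        have hor : (G0 ⊔ F).Adj i j ↔ G0.Adj i j ∨ F.Adj i j := SimpleGraph.sup_adj _ _ _ _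
        have hFij : F.Adj i j ↔ ∃ u v, f i = Sum.inl u ∧ f j = Sum.inl v ∧ (HG g y).Adj u v :=
          Iff.rfl
        rw [hor, hG0, hFij]
        rcases hi : f i with u | a <;> rcases hj : f j with v | b
        · rw [hat_inl_inl]
          constructor
          · rintro (h | ⟨u', v', h1, h2, h3⟩)
            · exact absurd h (by simp [adjC])
            · rwa [← Sum.inl_injective h1, ← Sum.inl_injective h2] at h3
          · intro h
            exact Or.inr ⟨u, v, rfl, rfl, h⟩
        · rw [hat_inl_inr]
          constructor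
          · rintro (h | ⟨u', v', h1, h2, h3⟩)
            · exact h
            · exact absurd h2 (by simp)
          · intro h
            exact Or.inl h
        · rw [hat_inr_inl]
          constructor
          · rintro (h | ⟨u', v', h1, h2, h3⟩)
            · exact h
            · exact absurd h1 (by simp)
          · intro h
            exact Or.inl h
        · rw [hat_inr_inr]
          constructor
          · rintro (h | ⟨u', v', h1, h2, h3⟩)
            · exact h
            · exact absurd h1 (by simp)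
          · intro h
            exact Or.inl h
      apply perfect_of_good
      intro T
      rw [hcomap, good_image hinj]
      apply hat_good (S := {u | ValidV n M u}) (fun u v h => stH_edge hy1 u v h)
        (fun u v h => stH_nonedge u v h)
      · intro T' hT'
        apply HG_good hsat
        intro c i hci
        exact hT' _ hci
      · intro w hw
        obtain ⟨i, _, hi⟩ := mem_image.1 hw
        exact (hrange (Sum.inl w)).1 ⟨i, hi⟩
      · intro w hw
        obtain ⟨i, _, hi⟩ := mem_image.1 hw
        exact ((hrange (Sum.inr w)).1 ⟨i, hi⟩).2.2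

end Abs

theorem mkI_spec {n one xp : ℕ} {gs : List Gad} (hgs : OkGs n one xp gs) :
    PartitionedProbePerfect (mkI n one gs) ↔
      ∃ y : ℕ → Bool, y one = true ∧ ∀ g ∈ gs, SatG g y = true := by
  have hinj : Function.Injective (fun i : Fin (cvs n gs.length).length => (cvs n gs.length)[i]) := by
    intro i j h
    exact Fin.ext ((List.Nodup.getElem_inj_iff (nodup_cvs n gs.length)).1 h)
  have hrange : ∀ x : CV, (∃ i : Fin (cvs n gs.length).length, (cvs n gs.length)[i] = x) ↔
      Sum.elim (fun u : HV => ValidV n gs.length u)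
      (fun z : HV × HV × ℕ => ValidV n gs.length z.1 ∧ ValidV n gs.length z.2.1 ∧ z.2.2 < 3) x := by
    intro x
    rw [← mem_cvs]
    constructor
    · rintro ⟨i, rfl⟩
      exact List.getElem_mem i.2
    · intro hx
      obtain ⟨i, hi, hix⟩ := List.getElem_of_mem hx
      exact ⟨⟨i, hi⟩, hix⟩
  have hgc : ∀ c < gs.length, ∀ hc : c < gs.length, gs.getD c (false, 0, 0, 0) = gs[c] :=
    fun c _ hc => List.getD_eq_getElem _ _ hc
  constructor
  · rintro ⟨_, F, hF, hperf⟩
    obtain ⟨G, hG⟩ := abs_forward (N := (cvs n gs.length).length) (one := one)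
      (g := fun c => gs.getD c (false, 0, 0, 0)) hinj hrange (fun i j => Iff.rfl)
      (fun i => rfl) hF hperf
    exact abs_sat hgs rfl hgc (fun T hT => hG T (fun x hx => (hrange x).2 (hT x hx)))
  · rintro ⟨y, hy1, hy⟩
    refine abs_backward (N := (cvs n gs.length).length) (one := one)
      (g := fun c => gs.getD c (false, 0, 0, 0)) hinj hrange (fun i j => Iff.rfl)
      (fun i => rfl) hy1 (fun c hc => ?_)
    rw [hgc c hc hc]
    exact hy _ (List.getElem_mem hc)

end Pool.Agent.H418R2.Perf
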