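import Mathlib

/-!
# The ring gadgets: local facts
-/

namespace Pool.Agent.H418R2.Perf

def pr (a b i i' : ℕ) : Bool :=
  (decide (i = a) && decide (i' = b)) || (decide (i' = a) && decide (i = b))

/-- Adjacency inside a gadget, depending on the type and on three bits. -/
def ring (ty e0 e1 e2 : Bool) (i i' : ℕ) : Bool :=
  if ty = true then (pr 0 1 i i' && e0) || ((pr 1 2 i i' && e1) || (pr 2 0 i i' && e2))
  else (pr 0 1 i i' && e0) || ((pr 2 3 i i' && e1) || (pr 1 2 i i' || (pr 3 4 i i' || pr 4 0 i i')))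

theorem pr_comm (a b i i' : ℕ) : pr a b i i' = pr a b i' i := by
  unfold pr
  rw [Bool.or_comm]

theorem ring_comm (ty e0 e1 e2 : Bool) (i i' : ℕ) :
    ring ty e0 e1 e2 i i' = ring ty e0 e1 e2 i' i := by
  unfold ring
  simp only [pr_comm _ _ i i']

theorem ring_self (ty e0 e1 e2 : Bool) (i : ℕ) : ring ty e0 e1 e2 i i = false := by
  unfold ring pr
  split_ifs
  · by_cases h0 : i = 0 <;> by_cases h1 : i = 1 <;> by_cases h2 : i = 2 <;> simp_all
  · by_cases h0 : i = 0 <;> by_cases h1 : i = 1 <;> by_cases h2 : i = 2 <;>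
      by_cases h3 : i = 3 <;> by_cases h4 : i = 4 <;> simp_all

theorem ring_lt {ty e0 e1 e2 : Bool} {i i' : ℕ} (h : ring ty e0 e1 e2 i i' = true) :
    i < 5 ∧ i' < 5 := by
  unfold ring pr at h
  split_ifs at h <;>
  · simp only [Bool.or_eq_true, Bool.and_eq_true, decide_eq_true_eq] at h
    omega

/-- The constraint expressed by a gadget. -/
def satG (ty e0 e1 e2 : Bool) : Bool :=
  if ty = true then !((e0 && (!e1 && !e2)) || ((!e0 && (e1 && !e2)) || (!e0 && (!e1 && e2))))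
  else xor e0 e1

def hasE (ty e0 e1 e2 p0 p1 p2 p3 p4 : Bool) : Bool :=
  (p0 && p1 && ring ty e0 e1 e2 0 1) || (p1 && p2 && ring ty e0 e1 e2 1 2) ||
  (p2 && p0 && ring ty e0 e1 e2 2 0) || (p2 && p3 && ring ty e0 e1 e2 2 3) ||
  (p3 && p4 && ring ty e0 e1 e2 3 4) || (p4 && p0 && ring ty e0 e1 e2 4 0)

/-- The colours of the ring vertices. -/
def kap (ty e0 e1 e2 p0 p1 p2 p3 p4 : Bool) (i : ℕ) : ℕ :=
  if (ty && e0 && e1 && e2) = true then
    (if i = 1 then p0.toNat else if i = 2 then p0.toNat + p1.toNat else 0)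
  else if hasE ty e0 e1 e2 p0 p1 p2 p3 p4 = true then
    (if ty = true then (if (e0 && e1) = true then decide (i = 1)
      else if (e1 && e2) = true then decide (i = 2) else decide (i = 0)).toNat
     else (if e0 = true then decide (i = 1) || decide (i = 4)
      else decide (i = 2) || decide (i = 4)).toNat)
  else 0

/-- A maximum clique of the ring part (if it has an edge). -/
def clq (ty e0 e1 e2 p0 p1 p2 p3 p4 : Bool) : List ℕ :=
  if (ty && e0 && e1 && e2) = true then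
    (if p0 then [0] else []) ++ ((if p1 then [1] else []) ++ (if p2 then [2] else []))
  else if p0 && p1 && ring ty e0 e1 e2 0 1 then [0, 1]
  else if p1 && p2 && ring ty e0 e1 e2 1 2 then [1, 2]
  else if p2 && p0 && ring ty e0 e1 e2 2 0 then [2, 0]
  else if p2 && p3 && ring ty e0 e1 e2 2 3 then [2, 3]
  else if p3 && p4 && ring ty e0 e1 e2 3 4 then [3, 4]
  else if p4 && p0 && ring ty e0 e1 e2 4 0 then [4, 0]
  else []

def pick (p0 p1 p2 p3 p4 : Bool) (i : ℕ) : Bool :=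
  if i = 0 then p0 else if i = 1 then p1 else if i = 2 then p2 else if i = 3 then p3 else
    if i = 4 then p4 else false

set_option maxRecDepth 100000 in
theorem kap_lt : ∀ ty e0 e1 e2 p0 p1 p2 p3 p4 : Bool, satG ty e0 e1 e2 = true →
    ∀ i ∈ [0, 1, 2, 3, 4], pick p0 p1 p2 p3 p4 i = true →
      kap ty e0 e1 e2 p0 p1 p2 p3 p4 i < max (clq ty e0 e1 e2 p0 p1 p2 p3 p4).length 1 := by
  decide

set_option maxRecDepth 100000 in
theorem kap_ne : ∀ ty e0 e1 e2 p0 p1 p2 p3 p4 : Bool, satG ty e0 e1 e2 = true →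
    ∀ i ∈ [0, 1, 2, 3, 4], pick p0 p1 p2 p3 p4 i = true →
    ∀ i' ∈ [0, 1, 2, 3, 4], pick p0 p1 p2 p3 p4 i' = true → ring ty e0 e1 e2 i i' = true →
      kap ty e0 e1 e2 p0 p1 p2 p3 p4 i ≠ kap ty e0 e1 e2 p0 p1 p2 p3 p4 i' := by
  decide

/-- The endpoints of the couplings. -/
def endp (ty s : Bool) (j : ℕ) : ℕ :=
  if ty = true then (if s = true then (j + 1) % 3 else j) else (if s = true then 2 * j + 1 else 2 * j)

def bit3 (e0 e1 e2 : Bool) (j : ℕ) : Bool := if j = 0 then e0 else if j = 1 then e1 else e2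

set_option maxRecDepth 100000 in
theorem kap_eq : ∀ ty e0 e1 e2 p0 p1 p2 p3 p4 : Bool, satG ty e0 e1 e2 = true →
    ∀ j ∈ [0, 1, 2], (ty = false → j ≠ 2) → bit3 e0 e1 e2 j = false →
      pick p0 p1 p2 p3 p4 (endp ty false j) = true → pick p0 p1 p2 p3 p4 (endp ty true j) = true →
      kap ty e0 e1 e2 p0 p1 p2 p3 p4 (endp ty false j) =
        kap ty e0 e1 e2 p0 p1 p2 p3 p4 (endp ty true j) := by
  decide

theorem ring_endp : ∀ ty e0 e1 e2 : Bool, ∀ j ∈ [0, 1, 2], (ty = false → j ≠ 2) →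
    ring ty e0 e1 e2 (endp ty false j) (endp ty true j) = bit3 e0 e1 e2 j := by
  decide

set_option maxRecDepth 100000 in
theorem clq_spec : ∀ ty e0 e1 e2 p0 p1 p2 p3 p4 : Bool,
    (clq ty e0 e1 e2 p0 p1 p2 p3 p4).Nodup ∧
    ∀ i ∈ clq ty e0 e1 e2 p0 p1 p2 p3 p4, pick p0 p1 p2 p3 p4 i = true ∧
      ∀ i' ∈ clq ty e0 e1 e2 p0 p1 p2 p3 p4, i ≠ i' → ring ty e0 e1 e2 i i' = true := by
  decide

end Pool.Agent.H418R2.Perf
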