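import Mathlib

/-!
# Colouring the two vertices of a variable

The combinatorial choice lemma used in the proof that the graphs of satisfiable instances are
perfect.
-/

namespace Pool.Agent.H418R2.Perf

/-- The choice lemma. Colours are pairs: `(0, e)` with `e < E` or `(c + 1, i)` with `i < ω c`. -/
theorem solver (Cx : Finset ℕ) (ω κa κb : ℕ → ℕ) (pa pb pq : ℕ → Prop)
    [DecidablePred pa] [DecidablePred pb] [DecidablePred pq] (A B : Prop) (y : Bool) (E : ℕ)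
    (h1a : ∀ c ∈ Cx, pa c → κa c < ω c) (h1b : ∀ c ∈ Cx, pb c → κb c < ω c)
    (h1q : ∀ c ∈ Cx, pq c → 1 ≤ ω c)
    (h2 : y = true → ∀ c ∈ Cx, pa c → pb c → κa c ≠ κb c)
    (h3 : y = false → ∀ c ∈ Cx, pa c → pb c → κa c = κb c)
    (Ha : A → 1 ≤ E ∨ ∃ c ∈ Cx, (if pa c ∨ pq c then 1 else 0) < ω c)
    (Hb : B → 1 ≤ E ∨ ∃ c ∈ Cx, (if pb c ∨ pq c then 1 else 0) < ω c)
    (Hab : y = true → A → B → 2 ≤ E ∨ (1 ≤ E ∧ ∃ c ∈ Cx, (if pq c then 1 else 0) < ω c) ∨
      (∃ c ∈ Cx, (if pq c then 1 else 0) + 2 ≤ ω c) ∨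
      ∃ c ∈ Cx, ∃ c' ∈ Cx, c ≠ c' ∧ (if pq c then 1 else 0) < ω c ∧
        (if pq c' then 1 else 0) < ω c') :
    ∃ (fa fb : ℕ × ℕ) (fq : ℕ → ℕ),
      (A → (fa.1 = 0 ∧ fa.2 < E) ∨ ∃ c ∈ Cx, fa.1 = c + 1 ∧ fa.2 < ω c ∧ (pa c → fa.2 ≠ κa c)) ∧
      (B → (fb.1 = 0 ∧ fb.2 < E) ∨ ∃ c ∈ Cx, fb.1 = c + 1 ∧ fb.2 < ω c ∧ (pb c → fb.2 ≠ κb c)) ∧
      (y = true → A → B → fa ≠ fb) ∧
      (∀ c ∈ Cx, pq c → fq c < ω c ∧ (A → fa ≠ (c + 1, fq c)) ∧ (B → fb ≠ (c + 1, fq c))) := by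
  classical
  suffices h : ∃ (fa fb : ℕ × ℕ),
      (A → (fa.1 = 0 ∧ fa.2 < E) ∨ ∃ c ∈ Cx, fa.1 = c + 1 ∧ fa.2 < ω c ∧ (pa c → fa.2 ≠ κa c)) ∧
      (B → (fb.1 = 0 ∧ fb.2 < E) ∨ ∃ c ∈ Cx, fb.1 = c + 1 ∧ fb.2 < ω c ∧ (pb c → fb.2 ≠ κb c)) ∧
      (y = true → A → B → fa ≠ fb) ∧
      (∀ c ∈ Cx, pq c → ∃ i, i < ω c ∧ (A → fa ≠ (c + 1, i)) ∧ (B → fb ≠ (c + 1, i))) by
    obtain ⟨fa, fb, g1, g2, g3, g4⟩ := h
    refine ⟨fa, fb, fun c => if h : c ∈ Cx ∧ pq c then (g4 c h.1 h.2).choose else 0, g1, g2, g3,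
      fun c hc hq => ?_⟩
    simp only [hc, hq, and_self, dite_true]
    exact (g4 c hc hq).choose_spec
  -- slots
  let slotA : ℕ → ℕ → Prop := fun c i => i < ω c ∧ (pa c → i ≠ κa c) ∧ (pq c → 2 ≤ ω c)
  let slotB : ℕ → ℕ → Prop := fun c i => i < ω c ∧ (pb c → i ≠ κb c) ∧ (pq c → 2 ≤ ω c)
  have avoid : ∀ w k : ℕ, 2 ≤ w → ∃ i, i < w ∧ i ≠ k := by
    intro w k hw
    by_cases h : k = 0
    · exact ⟨1, by omega, by omega⟩
    · exact ⟨0, by omega, by omega⟩
  have avoid2 : ∀ w k l : ℕ, 3 ≤ w → ∃ i, i < w ∧ i ≠ k ∧ i ≠ l := by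
    intro w k l hw
    by_cases h0 : k ≠ 0 ∧ l ≠ 0
    · exact ⟨0, by omega, by omega, by omega⟩
    by_cases h1 : k ≠ 1 ∧ l ≠ 1
    · exact ⟨1, by omega, by omega, by omega⟩
    · exact ⟨2, by omega, by omega, by omega⟩
  have slotA_of : ∀ c, (if pa c ∨ pq c then 1 else 0) < ω c → ∃ i, slotA c i := by
    intro c hc
    by_cases hw : 2 ≤ ω c
    · obtain ⟨i, hi, hik⟩ := avoid (ω c) (κa c) hw
      exact ⟨i, hi, fun _ => hik, fun _ => hw⟩
    · split_ifs at hc with h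
      · omega
      · exact ⟨0, hc, fun h' => absurd (Or.inl h') h, fun h' => absurd (Or.inr h') h⟩
  have slotB_of : ∀ c, (if pb c ∨ pq c then 1 else 0) < ω c → ∃ i, slotB c i := by
    intro c hc
    by_cases hw : 2 ≤ ω c
    · obtain ⟨i, hi, hik⟩ := avoid (ω c) (κb c) hw
      exact ⟨i, hi, fun _ => hik, fun _ => hw⟩
    · split_ifs at hc with h
      · omega
      · exact ⟨0, hc, fun h' => absurd (Or.inl h') h, fun h' => absurd (Or.inr h') h⟩
  have slotAB : y = true → ∀ c ∈ Cx, (if pq c then 1 else 0) < ω c →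
      (∃ i, slotA c i) ∨ (∃ i, slotB c i) := by
    intro hy c hcx hc
    by_cases hw : 2 ≤ ω c
    · obtain ⟨i, hi, hik⟩ := avoid (ω c) (κa c) hw
      exact Or.inl ⟨i, hi, fun _ => hik, fun _ => hw⟩
    · have hq : ¬ pq c := by
        intro h
        rw [if_pos h] at hc
        omega
      rw [if_neg hq] at hc
      by_cases ha : pa c
      · by_cases hb : pb c
        · have := h2 hy c hcx ha hb
          have := h1a c hcx ha
          have := h1b c hcx hb
          omega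
        · exact Or.inr ⟨0, hc, fun h => absurd h hb, fun h => absurd h hq⟩
      · exact Or.inl ⟨0, hc, fun h => absurd h ha, fun h => absurd h hq⟩
  -- a in a slot, b extra or absent
  have placeA : ∀ c ∈ Cx, ∀ i, slotA c i → (B → 1 ≤ E) →
      ∃ (fa fb : ℕ × ℕ),
      (A → (fa.1 = 0 ∧ fa.2 < E) ∨ ∃ c ∈ Cx, fa.1 = c + 1 ∧ fa.2 < ω c ∧ (pa c → fa.2 ≠ κa c)) ∧
      (B → (fb.1 = 0 ∧ fb.2 < E) ∨ ∃ c ∈ Cx, fb.1 = c + 1 ∧ fb.2 < ω c ∧ (pb c → fb.2 ≠ κb c)) ∧
      (y = true → A → B → fa ≠ fb) ∧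
      (∀ c ∈ Cx, pq c → ∃ i, i < ω c ∧ (A → fa ≠ (c + 1, i)) ∧ (B → fb ≠ (c + 1, i))) := by
    intro c hc i hs hBE
    refine ⟨(c + 1, i), (0, 0), fun _ => Or.inr ⟨c, hc, rfl, hs.1, hs.2.1⟩,
      fun hB => Or.inl ⟨rfl, hBE hB⟩, fun _ _ _ => by simp, ?_⟩
    intro c' hc' hq
    by_cases hcc : c' = c
    · subst hcc
      obtain ⟨i', hi', hne⟩ := avoid (ω c') i (hs.2.2 hq)
      exact ⟨i', hi', fun _ h => hne (by simpa using (congrArg Prod.snd h).symm), fun _ => by simp⟩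
    · exact ⟨0, h1q c' hc' hq, fun _ h => hcc (by simpa using (congrArg Prod.fst h).symm),
        fun _ => by simp⟩
  have placeB : ∀ c ∈ Cx, ∀ i, slotB c i → (A → 1 ≤ E) →
      ∃ (fa fb : ℕ × ℕ),
      (A → (fa.1 = 0 ∧ fa.2 < E) ∨ ∃ c ∈ Cx, fa.1 = c + 1 ∧ fa.2 < ω c ∧ (pa c → fa.2 ≠ κa c)) ∧
      (B → (fb.1 = 0 ∧ fb.2 < E) ∨ ∃ c ∈ Cx, fb.1 = c + 1 ∧ fb.2 < ω c ∧ (pb c → fb.2 ≠ κb c)) ∧
      (y = true → A → B → fa ≠ fb) ∧
      (∀ c ∈ Cx, pq c → ∃ i, i < ω c ∧ (A → fa ≠ (c + 1, i)) ∧ (B → fb ≠ (c + 1, i))) := by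
    intro c hc i hs hAE
    refine ⟨(0, 0), (c + 1, i), fun hA => Or.inl ⟨rfl, hAE hA⟩,
      fun _ => Or.inr ⟨c, hc, rfl, hs.1, hs.2.1⟩, fun _ _ _ => by simp, ?_⟩
    intro c' hc' hq
    by_cases hcc : c' = c
    · subst hcc
      obtain ⟨i', hi', hne⟩ := avoid (ω c') i (hs.2.2 hq)
      exact ⟨i', hi', fun _ => by simp, fun _ h => hne (by simpa using (congrArg Prod.snd h).symm)⟩
    · exact ⟨0, h1q c' hc' hq, fun _ => by simp,
        fun _ h => hcc (by simpa using (congrArg Prod.fst h).symm)⟩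
  have place2 : ∀ ca ∈ Cx, ∀ cb ∈ Cx, ca ≠ cb → ∀ i j, slotA ca i → slotB cb j →
      ∃ (fa fb : ℕ × ℕ),
      (A → (fa.1 = 0 ∧ fa.2 < E) ∨ ∃ c ∈ Cx, fa.1 = c + 1 ∧ fa.2 < ω c ∧ (pa c → fa.2 ≠ κa c)) ∧
      (B → (fb.1 = 0 ∧ fb.2 < E) ∨ ∃ c ∈ Cx, fb.1 = c + 1 ∧ fb.2 < ω c ∧ (pb c → fb.2 ≠ κb c)) ∧
      (y = true → A → B → fa ≠ fb) ∧
      (∀ c ∈ Cx, pq c → ∃ i, i < ω c ∧ (A → fa ≠ (c + 1, i)) ∧ (B → fb ≠ (c + 1, i))) := by
    intro ca hca cb hcb hne i j hi hj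
    refine ⟨(ca + 1, i), (cb + 1, j), fun _ => Or.inr ⟨ca, hca, rfl, hi.1, hi.2.1⟩,
      fun _ => Or.inr ⟨cb, hcb, rfl, hj.1, hj.2.1⟩,
      fun _ _ _ h => hne (by simpa using congrArg Prod.fst h), ?_⟩
    intro c' hc' hq
    by_cases h1 : c' = ca
    · subst h1
      obtain ⟨i', hi', hne'⟩ := avoid (ω c') i (hi.2.2 hq)
      exact ⟨i', hi', fun _ h => hne' (by simpa using (congrArg Prod.snd h).symm),
        fun _ h => hne (by simpa using (congrArg Prod.fst h).symm)⟩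
    · by_cases h2 : c' = cb
      · subst h2
        obtain ⟨i', hi', hne'⟩ := avoid (ω c') j (hj.2.2 hq)
        exact ⟨i', hi', fun _ h => hne (by simpa using (congrArg Prod.fst h)),
          fun _ h => hne' (by simpa using (congrArg Prod.snd h).symm)⟩
      · exact ⟨0, h1q c' hc' hq, fun _ h => h1 (by simpa using (congrArg Prod.fst h).symm),
          fun _ h => h2 (by simpa using (congrArg Prod.fst h).symm)⟩
  have placeS : ∀ c ∈ Cx, ∀ i j, i ≠ j → i < ω c → j < ω c → (pa c → i ≠ κa c) →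
      (pb c → j ≠ κb c) → (pq c → 3 ≤ ω c) →
      ∃ (fa fb : ℕ × ℕ),
      (A → (fa.1 = 0 ∧ fa.2 < E) ∨ ∃ c ∈ Cx, fa.1 = c + 1 ∧ fa.2 < ω c ∧ (pa c → fa.2 ≠ κa c)) ∧
      (B → (fb.1 = 0 ∧ fb.2 < E) ∨ ∃ c ∈ Cx, fb.1 = c + 1 ∧ fb.2 < ω c ∧ (pb c → fb.2 ≠ κb c)) ∧
      (y = true → A → B → fa ≠ fb) ∧
      (∀ c ∈ Cx, pq c → ∃ i, i < ω c ∧ (A → fa ≠ (c + 1, i)) ∧ (B → fb ≠ (c + 1, i))) := by
    intro c hc i j hij hi hj hia hjb hq3
    refine ⟨(c + 1, i), (c + 1, j), fun _ => Or.inr ⟨c, hc, rfl, hi, hia⟩,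
      fun _ => Or.inr ⟨c, hc, rfl, hj, hjb⟩,
      fun _ _ _ h => hij (by simpa using congrArg Prod.snd h), ?_⟩
    intro c' hc' hq
    by_cases h1 : c' = c
    · subst h1
      obtain ⟨i', hi', hne1, hne2⟩ := avoid2 (ω c') i j (hq3 hq)
      exact ⟨i', hi', fun _ h => hne1 (by simpa using (congrArg Prod.snd h).symm),
        fun _ h => hne2 (by simpa using (congrArg Prod.snd h).symm)⟩
    · exact ⟨0, h1q c' hc' hq, fun _ h => h1 (by simpa using (congrArg Prod.fst h).symm),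
        fun _ h => h1 (by simpa using (congrArg Prod.fst h).symm)⟩
  by_cases hyAB : y = true ∧ A ∧ B
  · obtain ⟨hy, hA, hB⟩ := hyAB
    by_cases hE2 : 2 ≤ E
    · refine ⟨(0, 0), (0, 1), fun _ => Or.inl ⟨rfl, by simp; omega⟩,
        fun _ => Or.inl ⟨rfl, by simp; omega⟩, fun _ _ _ => by simp, ?_⟩
      intro c hc hq
      exact ⟨0, h1q c hc hq, fun _ => by simp, fun _ => by simp⟩
    by_cases hE1 : 1 ≤ E
    · have : ∃ c ∈ Cx, (if pq c then 1 else 0) < ω c := by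
        rcases Hab hy hA hB with h | ⟨_, h⟩ | ⟨c, hc, h⟩ | ⟨c, hc, _, _, _, h, _⟩
        · exact absurd h hE2
        · exact h
        · exact ⟨c, hc, by omega⟩
        · exact ⟨c, hc, h⟩
      obtain ⟨c, hc, hcω⟩ := this
      rcases slotAB hy c hc hcω with ⟨i, hi⟩ | ⟨i, hi⟩
      · exact placeA c hc i hi (fun _ => hE1)
      · exact placeB c hc i hi (fun _ => hE1)
    · rcases Hab hy hA hB with h | ⟨h, _⟩ | ⟨c, hc, h⟩ | ⟨c1, hc1, c2, hc2, hne, h, h'⟩
      · exact absurd h hE2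
      · exact absurd h hE1
      · -- both in the same palette
        by_cases ha : pa c
        · by_cases hb : pb c
          · have e1 := h1a c hc ha
            have e2 := h1b c hc hb
            have e3 := h2 hy c hc ha hb
            exact placeS c hc (κb c) (κa c) e3.symm e2 e1 (fun _ => e3.symm) (fun _ => e3)
              (fun hq => by rw [if_pos hq] at h; omega)
          · obtain ⟨i, hi, hik⟩ := avoid (ω c) (κa c) (by omega)
            exact placeS c hc i (κa c) hik hi (h1a c hc ha) (fun _ => hik)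
              (fun hb' => absurd hb' hb) (fun hq => by rw [if_pos hq] at h; omega)
        · by_cases hb : pb c
          · obtain ⟨i, hi, hik⟩ := avoid (ω c) (κb c) (by omega)
            exact placeS c hc (κb c) i hik.symm (h1b c hc hb) hi (fun ha' => absurd ha' ha)
              (fun _ => hik) (fun hq => by rw [if_pos hq] at h; omega)
          · exact placeS c hc 0 1 (by omega) (by omega) (by omega) (fun ha' => absurd ha' ha)
              (fun hb' => absurd hb' hb) (fun hq => by rw [if_pos hq] at h; omega)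
      · have hEa := (Ha hA).resolve_left hE1
        have hEb := (Hb hB).resolve_left hE1
        obtain ⟨ca, hca, hwa⟩ := hEa
        obtain ⟨cb, hcb, hwb⟩ := hEb
        obtain ⟨i, hi⟩ := slotA_of ca hwa
        obtain ⟨j, hj⟩ := slotB_of cb hwb
        by_cases hab : ca = cb
        · subst hab
          have : ∃ c ∈ Cx, c ≠ ca ∧ (if pq c then 1 else 0) < ω c := by
            by_cases h1 : c1 = ca
            · exact ⟨c2, hc2, fun h2 => hne (h1.trans h2.symm), h'⟩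
            · exact ⟨c1, hc1, h1, h⟩
          obtain ⟨c, hc, hcne, hcw⟩ := this
          rcases slotAB hy c hc hcw with ⟨i', hi'⟩ | ⟨i', hi'⟩
          · exact place2 c hc ca hca hcne i' j hi' hj
          · exact place2 ca hca c hc hcne.symm i i' hi hi'
        · exact place2 ca hca cb hcb hab i j hi hj
  · by_cases hE1 : 1 ≤ E
    · refine ⟨(0, 0), (0, 0), fun _ => Or.inl ⟨rfl, hE1⟩, fun _ => Or.inl ⟨rfl, hE1⟩,
        fun h h' h'' => absurd ⟨h, h', h''⟩ hyAB, ?_⟩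
      intro c hc hq
      exact ⟨0, h1q c hc hq, fun _ => by simp, fun _ => by simp⟩
    by_cases hA : A
    · obtain ⟨ca, hca, hwa⟩ := (Ha hA).resolve_left hE1
      by_cases hB : B
      · have hy : y = false := by
          cases y
          · rfl
          · exact absurd ⟨rfl, hA, hB⟩ hyAB
        obtain ⟨cb, hcb, hwb⟩ := (Hb hB).resolve_left hE1
        by_cases hbig : ∃ c ∈ Cx, 2 ≤ ω c
        · obtain ⟨c, hc, hw⟩ := hbig
          have : ∃ i, i < ω c ∧ (pa c → i ≠ κa c) ∧ (pb c → i ≠ κb c) := by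
            by_cases ha : pa c
            · obtain ⟨i, hi, hik⟩ := avoid (ω c) (κa c) hw
              exact ⟨i, hi, fun _ => hik, fun hb => by rw [← h3 hy c hc ha hb]; exact hik⟩
            · obtain ⟨i, hi, hik⟩ := avoid (ω c) (κb c) hw
              exact ⟨i, hi, fun ha' => absurd ha' ha, fun _ => hik⟩
          obtain ⟨i, hi, hia, hib⟩ := this
          refine ⟨(c + 1, i), (c + 1, i), fun _ => Or.inr ⟨c, hc, rfl, hi, hia⟩,
            fun _ => Or.inr ⟨c, hc, rfl, hi, hib⟩, fun h => by rw [hy] at h; exact absurd h (by simp), ?_⟩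
          intro c' hc' hq
          by_cases h1 : c' = c
          · subst h1
            obtain ⟨i', hi', hne⟩ := avoid (ω c') i hw
            exact ⟨i', hi', fun _ h => hne (by simpa using (congrArg Prod.snd h).symm),
              fun _ h => hne (by simpa using (congrArg Prod.snd h).symm)⟩
          · exact ⟨0, h1q c' hc' hq, fun _ h => h1 (by simpa using (congrArg Prod.fst h).symm),
              fun _ h => h1 (by simpa using (congrArg Prod.fst h).symm)⟩
        · push Not at hbig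
          have e1 := hbig ca hca
          have e2 := hbig cb hcb
          have f1 : ¬ (pa ca ∨ pq ca) := by
            intro h
            rw [if_pos h] at hwa
            omega
          have f2 : ¬ (pb cb ∨ pq cb) := by
            intro h
            rw [if_pos h] at hwb
            omega
          rw [if_neg f1] at hwa
          rw [if_neg f2] at hwb
          refine ⟨(ca + 1, 0), (cb + 1, 0),
            fun _ => Or.inr ⟨ca, hca, rfl, hwa, fun h => absurd (Or.inl h) f1⟩,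
            fun _ => Or.inr ⟨cb, hcb, rfl, hwb, fun h => absurd (Or.inl h) f2⟩,
            fun h => by rw [hy] at h; exact absurd h (by simp), ?_⟩
          intro c' hc' hq
          refine ⟨0, h1q c' hc' hq, fun _ h => ?_, fun _ h => ?_⟩
          · have : ca = c' := by simpa using congrArg Prod.fst h
            subst this
            exact f1 (Or.inr hq)
          · have : cb = c' := by simpa using congrArg Prod.fst h
            subst this
            exact f2 (Or.inr hq)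
      · obtain ⟨i, hi⟩ := slotA_of ca hwa
        exact placeA ca hca i hi (fun h => absurd h hB)
    · by_cases hB : B
      · obtain ⟨cb, hcb, hwb⟩ := (Hb hB).resolve_left hE1
        obtain ⟨i, hi⟩ := slotB_of cb hwb
        exact placeB cb hcb i hi (fun h => absurd h hA)
      · exact ⟨(0, 0), (0, 0), fun h => absurd h hA, fun h => absurd h hB,
          fun _ h => absurd h hA, fun c hc hq => ⟨0, h1q c hc hq, fun h => absurd h hA,
            fun h => absurd h hB⟩⟩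

end Pool.Agent.H418R2.Perf
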