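import Pool.Agent.H418R2.PerfSand
import Pool.Agent.H418R2.PerfSolve
import Pool.Agent.H418R2.PerfGad

/-!
# The graph of a list of gadgets and an assignment, and its perfection
-/

namespace Pool.Agent.H418R2.Perf

open Finset

/-- Vertices: `inl (false, x)` and `inl (true, x)` are the two vertices of the variable `x`;
`inr (c, i)` with `i < 8` are the vertices of gadget `c`. -/
abbrev HV : Type := (Bool × ℕ) ⊕ (ℕ × ℕ)

/-- A gadget: its type and three variables (the third one is used only if the type is `true`). -/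
abbrev Gad : Type := Bool × ℕ × ℕ × ℕ

def vr (g : Gad) (j : ℕ) : ℕ := if j = 0 then g.2.1 else if j = 1 then g.2.2.1 else g.2.2.2

/-- The position of the variable `x` in the gadget (`3` if it does not occur). -/
def posn (g : Gad) (x : ℕ) : ℕ :=
  if x = g.2.1 then 0 else if x = g.2.2.1 then 1 else if g.1 = true ∧ x = g.2.2.2 then 2 else 3

/-- Adjacency between a variable vertex and a gadget vertex. -/
def att (g : Gad) (s : Bool) (x i : ℕ) : Bool :=
  decide (posn g x = 3) || (decide (i = endp g.1 s (posn g x)) || decide (i = 5 + posn g x))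

def DistinctG (g : Gad) : Prop :=
  g.2.1 ≠ g.2.2.1 ∧ (g.1 = true → g.2.1 ≠ g.2.2.2 ∧ g.2.2.1 ≠ g.2.2.2)

def ringG (g : Gad) (y : ℕ → Bool) (i i' : ℕ) : Bool :=
  ring g.1 (y g.2.1) (y g.2.2.1) (y g.2.2.2) i i'

def SatG (g : Gad) (y : ℕ → Bool) : Bool := satG g.1 (y g.2.1) (y g.2.2.1) (y g.2.2.2)

def HG (g : ℕ → Gad) (y : ℕ → Bool) : SimpleGraph HV where
  Adj u v := match u, v with
    | Sum.inl (s, x), Sum.inl (s', x') => x = x' ∧ s ≠ s' ∧ y x = true
    | Sum.inl (s, x), Sum.inr (c, i) => att (g c) s x i = true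
    | Sum.inr (c, i), Sum.inl (s, x) => att (g c) s x i = true
    | Sum.inr (c, i), Sum.inr (c', i') => c ≠ c' ∨ ringG (g c) y i i' = true
  symm := ⟨by
    rintro (⟨s, x⟩ | ⟨c, i⟩) (⟨s', x'⟩ | ⟨c', i'⟩) h
    · exact ⟨h.1.symm, h.2.1.symm, h.1 ▸ h.2.2⟩
    · exact h
    · exact h
    · by_cases hc : c = c'
      · subst hc
        rcases h with h | h
        · exact absurd rfl h
        · right
          unfold ringG
          rw [ring_comm]
          exact h
      · exact Or.inl (Ne.symm hc)⟩
  loopless := ⟨by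
    rintro (⟨s, x⟩ | ⟨c, i⟩) h
    · exact h.2.1 rfl
    · rcases h with h | h
      · exact h rfl
      · unfold ringG at h
        rw [ring_self] at h
        exact absurd h (by simp)⟩

section Adj
variable (g : ℕ → Gad) (y : ℕ → Bool)

@[simp] theorem HG_ll (s x s' x') : (HG g y).Adj (Sum.inl (s, x)) (Sum.inl (s', x')) ↔
    x = x' ∧ s ≠ s' ∧ y x = true := Iff.rfl
@[simp] theorem HG_lr (s x c i) : (HG g y).Adj (Sum.inl (s, x)) (Sum.inr (c, i)) ↔
    att (g c) s x i = true := Iff.rfl
@[simp] theorem HG_rl (s x c i) : (HG g y).Adj (Sum.inr (c, i)) (Sum.inl (s, x)) ↔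
    att (g c) s x i = true := Iff.rfl
@[simp] theorem HG_rr (c i c' i') : (HG g y).Adj (Sum.inr (c, i)) (Sum.inr (c', i')) ↔
    (c ≠ c' ∨ ringG (g c) y i i' = true) := Iff.rfl

end Adj

theorem posn_le (g : Gad) (x : ℕ) : posn g x ≤ 3 := by
  unfold posn; split_ifs <;> omega

theorem posn_spec (g : Gad) (x : ℕ) (h : posn g x < 3) :
    vr g (posn g x) = x ∧ (g.1 = false → posn g x ≠ 2) := by
  unfold posn at h ⊢
  unfold vr
  split_ifs at h ⊢ with h1 h2 h3 <;> simp_all

theorem posn_vr {g : Gad} (hg : DistinctG g) {j : ℕ} (hj : j < 3) (h2 : g.1 = false → j ≠ 2) :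
    posn g (vr g j) = j := by
  obtain ⟨ty, a, b, c⟩ := g
  unfold DistinctG at hg
  unfold posn vr
  simp only at *
  interval_cases j
  · simp
  · simp [hg.1.symm]
  · cases ty
    · exact absurd rfl (h2 rfl)
    · simp [(hg.2 rfl).1.symm, (hg.2 rfl).2.symm]

theorem endp_lt (ty s : Bool) {j : ℕ} (hj : j < 3) (h2 : ty = false → j ≠ 2) :
    endp ty s j < 5 := by
  unfold endp
  cases ty
  · have := h2 rfl
    cases s <;> simp <;> omega
  · cases s <;> simp <;> omega

theorem bit3_vr (g : Gad) (y : ℕ → Bool) (j : ℕ) :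
    bit3 (y g.2.1) (y g.2.2.1) (y g.2.2.2) j = y (vr g j) := by
  unfold bit3 vr
  split_ifs <;> rfl

/-- Unions of cliques in different gadgets. -/
theorem clique_union {g : ℕ → Gad} {y : ℕ → Bool} {T : Finset HV} {M k : ℕ}
    (hk : ∀ K ⊆ T, (HG g y).IsClique (K : Set HV) → K.card ≤ k)
    (L : ℕ → Finset HV) (hL : ∀ c < M, L c ⊆ T ∧ (HG g y).IsClique (L c : Set HV) ∧
      ∀ v ∈ L c, ∃ i, v = Sum.inr (c, i))
    (W : Finset HV) (hW : W ⊆ T) (hWc : (HG g y).IsClique (W : Set HV))
    (hWl : ∀ w ∈ W, ∃ a, w = Sum.inl a)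
    (hWL : ∀ w ∈ W, ∀ c < M, ∀ v ∈ L c, (HG g y).Adj w v) :
    W.card + ∑ c ∈ range M, (L c).card ≤ k := by
  classical
  have hdisj : Set.PairwiseDisjoint (range M : Set ℕ) L := by
    intro c hc c' hc' hne
    rw [Function.onFun, disjoint_left]
    intro v hv hv'
    obtain ⟨i, rfl⟩ := (hL c (by simpa using hc)).2.2 v hv
    obtain ⟨i', h⟩ := (hL c' (by simpa using hc')).2.2 _ hv'
    exact hne (by simpa using (congrArg (fun z : HV => Sum.elim (fun _ => 0) Prod.fst z) h))
  have hdisj2 : Disjoint W ((range M).biUnion L) := by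
    rw [disjoint_left]
    intro v hv hv'
    obtain ⟨a, rfl⟩ := hWl v hv
    obtain ⟨c, hc, hvc⟩ := mem_biUnion.1 hv'
    obtain ⟨i, h⟩ := (hL c (by simpa using hc)).2.2 _ hvc
    exact absurd h (by simp)
  rw [← card_biUnion (fun c hc c' hc' hne => hdisj (by simpa using hc) (by simpa using hc') hne),
    ← card_union_of_disjoint hdisj2]
  apply hk
  · apply union_subset hW
    intro v hv
    obtain ⟨c, hc, hvc⟩ := mem_biUnion.1 hv
    exact (hL c (by simpa using hc)).1 hvc
  · intro a ha b hb hab
    rw [mem_coe, mem_union] at ha hb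
    rcases ha with ha | ha <;> rcases hb with hb | hb
    · exact hWc ha hb hab
    · obtain ⟨c, hc, hvc⟩ := mem_biUnion.1 hb
      exact hWL a ha c (by simpa using hc) b hvc
    · obtain ⟨c, hc, hvc⟩ := mem_biUnion.1 ha
      exact (hWL b hb c (by simpa using hc) a hvc).symm
    · obtain ⟨c, hc, hvc⟩ := mem_biUnion.1 ha
      obtain ⟨c', hc', hvc'⟩ := mem_biUnion.1 hb
      by_cases hcc : c = c'
      · subst hcc
        exact (hL c (by simpa using hc)).2.1 hvc hvc' hab
      · obtain ⟨i, rfl⟩ := (hL c (by simpa using hc)).2.2 _ hvc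
        obtain ⟨i', rfl⟩ := (hL c' (by simpa using hc')).2.2 _ hvc'
        exact Or.inl hcc

/-- A sum bound. -/
theorem sum_le_one {M : ℕ} {w u : ℕ → ℕ} (h1 : ∀ c < M, w c ≤ u c + 1)
    (h2 : ∀ c < M, ∀ c' < M, c ≠ c' → u c < w c → w c' ≤ u c') :
    ∑ c ∈ range M, w c ≤ ∑ c ∈ range M, u c + 1 := by
  by_cases h : ∃ c < M, u c < w c
  · obtain ⟨c, hc, hlt⟩ := h
    have e1 := add_sum_erase (range M) w (mem_range.2 hc)
    have e2 := add_sum_erase (range M) u (mem_range.2 hc)
    have e3 : ∑ x ∈ (range M).erase c, w x ≤ ∑ x ∈ (range M).erase c, u x := by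
      apply sum_le_sum
      intro c' hc'
      rw [mem_erase, mem_range] at hc'
      exact h2 c hc c' hc'.2 hc'.1.symm hlt
    have := h1 c hc
    omega
  · push Not at h
    have : ∑ c ∈ range M, w c ≤ ∑ c ∈ range M, u c :=
      sum_le_sum fun c hc => h c (mem_range.1 hc)
    omega

theorem HG_good {g : ℕ → Gad} {y : ℕ → Bool} {M : ℕ} (hsat : ∀ c < M, SatG (g c) y = true)
    (T : Finset HV)
    (hT : ∀ c i, Sum.inr (c, i) ∈ T → c < M ∧ i < 8) : Good (HG g y) T := by
  classical
  -- a maximum clique
  obtain ⟨K0, hK0, hmax⟩ := exists_max_image (T.powerset.filter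
    (fun K : Finset HV => (HG g y).IsClique (K : Set HV))) Finset.card ⟨∅, by simp⟩
  rw [mem_filter, mem_powerset] at hK0
  set k := K0.card with hk
  have hkmax : ∀ K ⊆ T, (HG g y).IsClique (K : Set HV) → K.card ≤ k := fun K hK hKc =>
    hmax K (mem_filter.2 ⟨mem_powerset.2 hK, hKc⟩)
  refine ⟨k, ⟨K0, hK0.1, hK0.2, rfl⟩, ?_⟩
  -- local data
  let P : ℕ → ℕ → Bool := fun c i => decide (Sum.inr (c, i) ∈ T)
  let lst : ℕ → List ℕ := fun c => clq (g c).1 (y (g c).2.1) (y (g c).2.2.1) (y (g c).2.2.2)
    (P c 0) (P c 1) (P c 2) (P c 3) (P c 4)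
  let κ : ℕ → ℕ → ℕ := fun c i => kap (g c).1 (y (g c).2.1) (y (g c).2.2.1) (y (g c).2.2.2)
    (P c 0) (P c 1) (P c 2) (P c 3) (P c 4) i
  let any : ℕ → Prop := fun c => ∃ i, Sum.inr (c, i) ∈ T
  let ω : ℕ → ℕ := fun c => max (lst c).length (if any c then 1 else 0)
  have hpick : ∀ c i, i < 5 → pick (P c 0) (P c 1) (P c 2) (P c 3) (P c 4) i = P c i := by
    intro c i hi
    interval_cases i <;> simp [pick]
  have hpick5 : ∀ c i, pick (P c 0) (P c 1) (P c 2) (P c 3) (P c 4) i = true → i < 5 := by
    intro c i h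
    by_contra h5
    have : pick (P c 0) (P c 1) (P c 2) (P c 3) (P c 4) i = false := by
      unfold pick
      rw [if_neg (by omega), if_neg (by omega), if_neg (by omega), if_neg (by omega),
        if_neg (by omega)]
    rw [this] at h
    exact absurd h (by simp)
  have h5 : ∀ i, i < 5 → i ∈ [0, 1, 2, 3, 4] := by
    intro i hi
    interval_cases i <;> simp
  have hω1 : ∀ c i, Sum.inr (c, i) ∈ T → 1 ≤ ω c := by
    intro c i h
    have : any c := ⟨i, h⟩
    simp only [ω, this, if_true]
    omega
  have hκlt : ∀ c < M, ∀ i < 5, Sum.inr (c, i) ∈ T → κ c i < ω c := by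
    intro c hc i hi h
    have h1 := kap_lt (g c).1 (y (g c).2.1) (y (g c).2.2.1) (y (g c).2.2.2)
      (P c 0) (P c 1) (P c 2) (P c 3) (P c 4) (hsat c hc) i (h5 i hi)
      (by rw [hpick c i hi]; simpa [P] using h)
    have h2 := hω1 c i h
    simp only [ω, κ, lst] at h1 h2 ⊢
    omega
  have hκne : ∀ c < M, ∀ i i', Sum.inr (c, i) ∈ T → Sum.inr (c, i') ∈ T →
      ringG (g c) y i i' = true → κ c i ≠ κ c i' := by
    intro c hc i i' h h' hr
    obtain ⟨hi, hi'⟩ := ring_lt hr
    exact kap_ne (g c).1 (y (g c).2.1) (y (g c).2.2.1) (y (g c).2.2.2)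
      (P c 0) (P c 1) (P c 2) (P c 3) (P c 4) (hsat c hc) i (h5 i hi)
      (by rw [hpick c i hi]; simpa [P] using h) i' (h5 i' hi')
      (by rw [hpick c i' hi']; simpa [P] using h') hr
  -- the cliques in the gadgets
  have hKc : ∀ c, ∃ K : Finset HV, K ⊆ T ∧ (HG g y).IsClique (K : Set HV) ∧
      (∀ v ∈ K, ∃ i, v = Sum.inr (c, i)) ∧ K.card = ω c := by
    intro c
    obtain ⟨hnd, hmem⟩ := clq_spec (g c).1 (y (g c).2.1) (y (g c).2.2.1) (y (g c).2.2.2)
      (P c 0) (P c 1) (P c 2) (P c 3) (P c 4)
    have hinj : Function.Injective (fun i : ℕ => (Sum.inr (c, i) : HV)) := by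
      intro a b h
      simpa using h
    by_cases hl : 1 ≤ (lst c).length
    · refine ⟨(lst c).toFinset.image (fun i => Sum.inr (c, i)), ?_, ?_, ?_, ?_⟩
      · intro v hv
        obtain ⟨i, hi, rfl⟩ := mem_image.1 hv
        have h1 := (hmem i (List.mem_toFinset.1 hi)).1
        have h2 := hpick5 c i h1
        rw [hpick c i h2] at h1
        simpa [P] using h1
      · intro a ha b hb hab
        obtain ⟨i, hi, rfl⟩ := mem_image.1 (mem_coe.1 ha)
        obtain ⟨i', hi', rfl⟩ := mem_image.1 (mem_coe.1 hb)
        right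
        exact (hmem i (List.mem_toFinset.1 hi)).2 i' (List.mem_toFinset.1 hi')
          (fun h => hab (by rw [h]))
      · intro v hv
        obtain ⟨i, hi, rfl⟩ := mem_image.1 hv
        exact ⟨i, rfl⟩
      · rw [card_image_of_injective _ hinj, List.toFinset_card_of_nodup hnd]
        have : (if any c then 1 else 0) ≤ 1 := by split_ifs <;> omega
        change (lst c).length = max (lst c).length (if any c then 1 else 0)
        omega
    · by_cases ha : any c
      · have hω : ω c = 1 := by
          simp only [ω, ha, if_true]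
          omega
        obtain ⟨i, hi⟩ := ha
        refine ⟨{Sum.inr (c, i)}, by simpa using hi, by simp, ?_, ?_⟩
        · intro v hv
          exact ⟨i, by simpa using hv⟩
        · simp [hω]
      · refine ⟨∅, by simp, by simp, by simp, ?_⟩
        simp only [ω, ha, if_false, card_empty]
        omega
  choose Kc hKcT hKcC hKcI hKcω using hKc
  have hbase : ∑ c ∈ range M, ω c ≤ k := by
    have := clique_union (M := M) hkmax Kc (fun c _ => ⟨hKcT c, hKcC c, hKcI c⟩) ∅ (by simp)
      (by simp) (by simp) (by simp)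
    simpa [hKcω] using this
  set E := k - ∑ c ∈ range M, ω c with hE
  have hkE : k = ∑ c ∈ range M, ω c + E := by omega
  -- the choice for every variable
  have hsolve : ∀ x : ℕ, ∃ (fa fb : ℕ × ℕ) (fq : ℕ → ℕ),
      (Sum.inl (false, x) ∈ T → (fa.1 = 0 ∧ fa.2 < E) ∨
        ∃ c ∈ (range M).filter (fun c => posn (g c) x < 3), fa.1 = c + 1 ∧ fa.2 < ω c ∧
          (Sum.inr (c, endp (g c).1 false (posn (g c) x)) ∈ T →
            fa.2 ≠ κ c (endp (g c).1 false (posn (g c) x)))) ∧
      (Sum.inl (true, x) ∈ T → (fb.1 = 0 ∧ fb.2 < E) ∨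
        ∃ c ∈ (range M).filter (fun c => posn (g c) x < 3), fb.1 = c + 1 ∧ fb.2 < ω c ∧
          (Sum.inr (c, endp (g c).1 true (posn (g c) x)) ∈ T →
            fb.2 ≠ κ c (endp (g c).1 true (posn (g c) x)))) ∧
      (y x = true → Sum.inl (false, x) ∈ T → Sum.inl (true, x) ∈ T → fa ≠ fb) ∧
      (∀ c ∈ (range M).filter (fun c => posn (g c) x < 3), Sum.inr (c, 5 + posn (g c) x) ∈ T →
        fq c < ω c ∧ (Sum.inl (false, x) ∈ T → fa ≠ (c + 1, fq c)) ∧
        (Sum.inl (true, x) ∈ T → fb ≠ (c + 1, fq c))) := by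
    intro x
    have hpos : ∀ c ∈ (range M).filter (fun c => posn (g c) x < 3), c < M ∧ posn (g c) x < 3 ∧
        vr (g c) (posn (g c) x) = x ∧ ((g c).1 = false → posn (g c) x ≠ 2) := by
      intro c hc
      rw [mem_filter, mem_range] at hc
      exact ⟨hc.1, hc.2, posn_spec _ _ hc.2⟩
    have h3' : ∀ j, j < 3 → j ∈ [0, 1, 2] := by
      intro j hj
      interval_cases j <;> simp
    -- clique bounds for one vertex
    have hone : ∀ s : Bool, Sum.inl (s, x) ∈ T → 1 ≤ E ∨
        ∃ c ∈ (range M).filter (fun c => posn (g c) x < 3),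
          (if Sum.inr (c, endp (g c).1 s (posn (g c) x)) ∈ T ∨ Sum.inr (c, 5 + posn (g c) x) ∈ T
            then 1 else 0) < ω c := by
      intro s hs
      by_contra hcon
      push Not at hcon
      obtain ⟨hE0, hcon⟩ := hcon
      let L : ℕ → Finset HV := fun c => if posn (g c) x < 3 then
        (if Sum.inr (c, endp (g c).1 s (posn (g c) x)) ∈ T then
          {Sum.inr (c, endp (g c).1 s (posn (g c) x))}
        else if Sum.inr (c, 5 + posn (g c) x) ∈ T then {Sum.inr (c, 5 + posn (g c) x)} else ∅)
        else Kc c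
      have h1 := clique_union (M := M) hkmax L ?_ {Sum.inl (s, x)} (by simpa using hs)
        (by simp) (by simp) ?_
      · have h2 : ∑ c ∈ range M, ω c ≤ ∑ c ∈ range M, (L c).card := by
          apply sum_le_sum
          intro c hc
          simp only [L]
          by_cases hp : posn (g c) x < 3
          · have h3 := hcon c (mem_filter.2 ⟨hc, hp⟩)
            rw [if_pos hp]
            refine h3.trans ?_
            split_ifs with h4 h5 h6 h7 h8
            · simp
            · simp
            · exact absurd h4 (not_or.2 ⟨h5, h6⟩)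
            · exact absurd (Or.inl h7) h4
            · exact absurd (Or.inr h8) h4
            · simp
          · rw [if_neg hp, hKcω]
        rw [card_singleton] at h1
        omega
      · intro c hc
        simp only [L]
        split_ifs with h4 h5 h6
        · exact ⟨by simpa using h5, by simp, fun v hv => ⟨_, by simpa using hv⟩⟩
        · exact ⟨by simpa using h6, by simp, fun v hv => ⟨_, by simpa using hv⟩⟩
        · exact ⟨by simp, by simp, by simp⟩
        · exact ⟨hKcT c, hKcC c, hKcI c⟩
      · intro w hw c hc v hv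
        rw [mem_singleton] at hw
        subst hw
        simp only [L] at hv
        split_ifs at hv with h4 h5 h6
        · rw [mem_singleton] at hv
          subst hv
          simp [att]
        · rw [mem_singleton] at hv
          subst hv
          simp [att]
        · simp at hv
        · obtain ⟨i, rfl⟩ := hKcI c v hv
          have := posn_le (g c) x
          have h7 : posn (g c) x = 3 := by omega
          simp [att, h7]
    have htwo : y x = true → Sum.inl (false, x) ∈ T → Sum.inl (true, x) ∈ T → 2 ≤ E ∨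
        (1 ≤ E ∧ ∃ c ∈ (range M).filter (fun c => posn (g c) x < 3),
          (if Sum.inr (c, 5 + posn (g c) x) ∈ T then 1 else 0) < ω c) ∨
        (∃ c ∈ (range M).filter (fun c => posn (g c) x < 3),
          (if Sum.inr (c, 5 + posn (g c) x) ∈ T then 1 else 0) + 2 ≤ ω c) ∨
        ∃ c ∈ (range M).filter (fun c => posn (g c) x < 3),
          ∃ c' ∈ (range M).filter (fun c => posn (g c) x < 3), c ≠ c' ∧
          (if Sum.inr (c, 5 + posn (g c) x) ∈ T then 1 else 0) < ω c ∧
          (if Sum.inr (c', 5 + posn (g c') x) ∈ T then 1 else 0) < ω c' := by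
      intro hy ha hb
      by_contra hcon
      push Not at hcon
      obtain ⟨hE2, hE1, hcon2, hcon1⟩ := hcon
      let L : ℕ → Finset HV := fun c => if posn (g c) x < 3 then
        (if Sum.inr (c, 5 + posn (g c) x) ∈ T then {Sum.inr (c, 5 + posn (g c) x)} else ∅)
        else Kc c
      have hL : ∀ c, posn (g c) x < 3 → (L c).card =
          if Sum.inr (c, 5 + posn (g c) x) ∈ T then 1 else 0 := by
        intro c hc
        simp only [L, if_pos hc]
        split_ifs <;> simp
      have hL' : ∀ c, ¬ posn (g c) x < 3 → (L c).card = ω c := by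
        intro c hc
        simp only [L, if_neg hc, hKcω]
      have h1 := clique_union (M := M) hkmax L ?_ {Sum.inl (false, x), Sum.inl (true, x)} ?_ ?_ ?_ ?_
      · rw [card_pair (by simp)] at h1
        have h2 : ∑ c ∈ range M, ω c ≤ ∑ c ∈ range M, (L c).card + 1 := by
          apply sum_le_one
          · intro c hc
            by_cases hp : posn (g c) x < 3
            · have h3 := hcon2 c (mem_filter.2 ⟨mem_range.2 hc, hp⟩)
              rw [hL c hp]
              omega
            · rw [hL' c hp]
              omega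
          · intro c hc c' hc' hne hlt
            by_cases hp : posn (g c) x < 3
            · by_cases hp' : posn (g c') x < 3
              · rw [hL c hp] at hlt
                rw [hL c' hp']
                exact hcon1 c (mem_filter.2 ⟨mem_range.2 hc, hp⟩) c'
                  (mem_filter.2 ⟨mem_range.2 hc', hp'⟩) hne hlt
              · exact (hL' c' hp').ge
            · rw [hL' c hp] at hlt
              omega
        by_cases hE' : 1 ≤ E
        · have h3 : ∑ c ∈ range M, ω c ≤ ∑ c ∈ range M, (L c).card := by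
            apply sum_le_sum
            intro c hc
            by_cases hp : posn (g c) x < 3
            · rw [hL c hp]
              exact hE1 hE' c (mem_filter.2 ⟨hc, hp⟩)
            · exact (hL' c hp).ge
          omega
        · omega
      · intro c hc
        simp only [L]
        split_ifs with h4 h5
        · exact ⟨by simpa using h5, by simp, fun v hv => ⟨_, by simpa using hv⟩⟩
        · exact ⟨by simp, by simp, by simp⟩
        · exact ⟨hKcT c, hKcC c, hKcI c⟩
      · intro v hv
        rw [mem_insert, mem_singleton] at hv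
        rcases hv with rfl | rfl
        · exact ha
        · exact hb
      · intro v hv w hw hvw
        rw [mem_coe, mem_insert, mem_singleton] at hv hw
        rcases hv with rfl | rfl <;> rcases hw with rfl | rfl
        · exact absurd rfl hvw
        · simp [hy]
        · simp [hy]
        · exact absurd rfl hvw
      · intro v hv
        rw [mem_insert, mem_singleton] at hv
        rcases hv with rfl | rfl
        · exact ⟨_, rfl⟩
        · exact ⟨_, rfl⟩
      · intro w hw c hc v hv
        rw [mem_insert, mem_singleton] at hw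
        have hv' : ∀ s : Bool, (HG g y).Adj (Sum.inl (s, x)) v := by
          intro s
          simp only [L] at hv
          split_ifs at hv with h4 h5
          · rw [mem_singleton] at hv
            subst hv
            simp [att]
          · simp at hv
          · obtain ⟨i, rfl⟩ := hKcI c v hv
            have := posn_le (g c) x
            have h7 : posn (g c) x = 3 := by omega
            simp [att, h7]
        rcases hw with rfl | rfl
        · exact hv' _
        · exact hv' _
    exact solver ((range M).filter (fun c => posn (g c) x < 3)) ω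
      (fun c => κ c (endp (g c).1 false (posn (g c) x)))
      (fun c => κ c (endp (g c).1 true (posn (g c) x)))
      (fun c => Sum.inr (c, endp (g c).1 false (posn (g c) x)) ∈ T)
      (fun c => Sum.inr (c, endp (g c).1 true (posn (g c) x)) ∈ T)
      (fun c => Sum.inr (c, 5 + posn (g c) x) ∈ T)
      (Sum.inl (false, x) ∈ T) (Sum.inl (true, x) ∈ T) (y x) E
      (fun c hc h => hκlt c (hpos c hc).1 _ (endp_lt _ _ (hpos c hc).2.1 (hpos c hc).2.2.2) h)
      (fun c hc h => hκlt c (hpos c hc).1 _ (endp_lt _ _ (hpos c hc).2.1 (hpos c hc).2.2.2) h)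
      (fun c hc h => hω1 c _ h)
      (fun hy c hc ha hb => by
        refine hκne c (hpos c hc).1 _ _ ha hb ?_
        unfold ringG
        rw [ring_endp _ _ _ _ _ (h3' _ (hpos c hc).2.1) (hpos c hc).2.2.2, bit3_vr,
          (hpos c hc).2.2.1]
        exact hy)
      (fun hy c hc ha hb => by
        refine kap_eq (g c).1 (y (g c).2.1) (y (g c).2.2.1) (y (g c).2.2.2)
          (P c 0) (P c 1) (P c 2) (P c 3) (P c 4) (hsat c (hpos c hc).1) _
          (h3' _ (hpos c hc).2.1) (hpos c hc).2.2.2 ?_ ?_ ?_
        · rw [bit3_vr, (hpos c hc).2.2.1]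
          exact hy
        · rw [hpick c _ (endp_lt _ _ (hpos c hc).2.1 (hpos c hc).2.2.2)]
          simpa [P] using ha
        · rw [hpick c _ (endp_lt _ _ (hpos c hc).2.1 (hpos c hc).2.2.2)]
          simpa [P] using hb)
      (hone false) (hone true) htwo
  choose fa fb fq hfa hfb hfab hfq using hsolve
  -- the colouring
  let C : Finset (ℕ × ℕ) := (range E).image (fun e => (0, e)) ∪
    (range M).biUnion (fun c => (range (ω c)).image (fun i => (c + 1, i)))
  have hCcard : C.card ≤ k := by
    calc C.card ≤ ((range E).image (fun e => (0, e))).card +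
          ((range M).biUnion (fun c => (range (ω c)).image (fun i => (c + 1, i)))).card :=
        card_union_le _ _
      _ ≤ E + ∑ c ∈ range M, ω c := by
        apply Nat.add_le_add
        · exact card_image_le.trans (by simp)
        · refine card_biUnion_le.trans ?_
          apply sum_le_sum
          intro c _
          exact card_image_le.trans (by simp)
      _ = k := by omega
  have hC0 : ∀ a : ℕ × ℕ, a.1 = 0 → a.2 < E → a ∈ C := by
    rintro ⟨a1, a2⟩ h1 h2
    simp only at h1 h2
    subst h1
    exact mem_union_left _ (mem_image.2 ⟨a2, mem_range.2 h2, rfl⟩)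
  have hC1 : ∀ c < M, ∀ a : ℕ × ℕ, a.1 = c + 1 → a.2 < ω c → a ∈ C := by
    rintro c hc ⟨a1, a2⟩ h1 h2
    simp only at h1 h2
    subst h1
    exact mem_union_right _ (mem_biUnion.2 ⟨c, mem_range.2 hc, mem_image.2
      ⟨a2, mem_range.2 h2, rfl⟩⟩)
  let qc : ℕ → ℕ → ℕ := fun c i => if posn (g c) (vr (g c) (i - 5)) = i - 5 then
    fq (vr (g c) (i - 5)) c else 0
  let f : HV → ℕ × ℕ := fun v => match v with
    | Sum.inl (s, x) => if s = true then fb x else fa x
    | Sum.inr (c, i) => (c + 1, if i < 5 then κ c i else qc c i)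
  have hqlt : ∀ c i, Sum.inr (c, i) ∈ T → ¬ i < 5 → qc c i < ω c := by
    intro c i h hi
    have hv := hT c i h
    simp only [qc]
    split_ifs with h1
    · have h2 : posn (g c) (vr (g c) (i - 5)) < 3 := by omega
      refine (hfq (vr (g c) (i - 5)) c (mem_filter.2 ⟨mem_range.2 hv.1, h2⟩) ?_).1
      rw [h1]
      have : 5 + (i - 5) = i := by omega
      rw [this]
      exact h
    · exact hω1 c i h
  refine col_of C f ?_ ?_ hCcard
  · rintro (⟨s, x⟩ | ⟨c, i⟩) hv
    · cases s
      · change fa x ∈ C
        rcases hfa x hv with h | ⟨c, hc, h1, h2, _⟩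
        · exact hC0 _ h.1 h.2
        · exact hC1 c (mem_range.1 (mem_filter.1 hc).1) _ h1 h2
      · change fb x ∈ C
        rcases hfb x hv with h | ⟨c, hc, h1, h2, _⟩
        · exact hC0 _ h.1 h.2
        · exact hC1 c (mem_range.1 (mem_filter.1 hc).1) _ h1 h2
    · have h := hT c i hv
      refine hC1 c h.1 _ rfl ?_
      change (if i < 5 then κ c i else qc c i) < ω c
      split_ifs with hi
      · exact hκlt c h.1 i hi hv
      · exact hqlt c i hv hi
  · -- properness
    have hab : ∀ x, Sum.inl (false, x) ∈ T → Sum.inl (true, x) ∈ T → y x = true → fa x ≠ fb x :=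
      fun x h1 h2 h3 => hfab x h3 h1 h2
    have hlr : ∀ s x c i, Sum.inl (s, x) ∈ T → Sum.inr (c, i) ∈ T → att (g c) s x i = true →
        f (Sum.inl (s, x)) ≠ f (Sum.inr (c, i)) := by
      intro s x c i h1 h2 h3 heq
      have hv := hT c i h2
      have heq1 := congrArg Prod.fst heq
      have heq2 := congrArg Prod.snd heq
      have hval : ∃ z : ℕ × ℕ, f (Sum.inl (s, x)) = z ∧ ((z.1 = 0 ∧ z.2 < E) ∨
          ∃ c ∈ (range M).filter (fun c => posn (g c) x < 3), z.1 = c + 1 ∧ z.2 < ω c ∧
          (Sum.inr (c, endp (g c).1 s (posn (g c) x)) ∈ T →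
            z.2 ≠ κ c (endp (g c).1 s (posn (g c) x)))) := by
        cases s
        · exact ⟨fa x, rfl, hfa x h1⟩
        · exact ⟨fb x, rfl, hfb x h1⟩
      obtain ⟨z, hz, hz'⟩ := hval
      rw [hz] at heq1 heq2 heq
      simp only [f] at heq1 heq2
      rcases hz' with ⟨h0, _⟩ | ⟨c', hc', hz1, hz2, hz3⟩
      · omega
      · have hcc : c' = c := by omega
        subst hcc
        have hp : posn (g c') x < 3 := (mem_filter.1 hc').2
        unfold att at h3
        simp only [Bool.or_eq_true, decide_eq_true_eq] at h3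
        rcases h3 with h3 | h3 | h3
        · omega
        · have hi : i < 5 := by
            rw [h3]
            exact endp_lt _ _ hp (posn_spec _ _ hp).2
          rw [if_pos hi] at heq2
          rw [← h3] at hz3
          exact hz3 h2 heq2
        · have hi : ¬ i < 5 := by omega
          rw [if_neg hi] at heq2
          have e1 : i - 5 = posn (g c') x := by omega
          have e2 : vr (g c') (i - 5) = x := by rw [e1]; exact (posn_spec _ _ hp).1
          have e3 : qc c' i = fq x c' := by
            simp only [qc]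
            rw [e2, e1, if_pos rfl]
          rw [e3] at heq2
          have e4 := hfq x c' hc' (by rw [← h3]; exact h2)
          have e5 : z = (c' + 1, fq x c') := Prod.ext hz1 heq2
          cases s
          · exact e4.2.1 h1 (by rw [← e5, ← hz]; rfl)
          · exact e4.2.2 h1 (by rw [← e5, ← hz]; rfl)
    rintro (⟨s, x⟩ | ⟨c, i⟩) hu (⟨s', x'⟩ | ⟨c', i'⟩) hv hadj
    · obtain ⟨rfl, hs, hy⟩ := hadj
      cases s <;> cases s'
      · exact absurd rfl hs
      · exact hab x hu hv hy
      · exact (hab x hv hu hy).symm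
      · exact absurd rfl hs
    · exact hlr s x c' i' hu hv hadj
    · exact (hlr s' x' c i hv hu hadj).symm
    · by_cases hcc : c = c'
      · subst hcc
        rcases hadj with h | h
        · exact absurd rfl h
        · obtain ⟨hi, hi'⟩ := ring_lt h
          intro heq
          have heq2 := congrArg Prod.snd heq
          simp only [f, if_pos hi, if_pos hi'] at heq2
          exact hκne c (hT c i hu).1 i i' hu hv h heq2
      · intro heq
        have heq1 := congrArg Prod.fst heq
        simp only [f] at heq1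
        exact hcc (by omega)

end Pool.Agent.H418R2.Perf
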