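import Pool.Agent.H418R2.PerfRed

/-!
# The reduction is computable in polynomial time
-/

namespace Pool.Agent.H418R2.Perf

open Pool.Agent.NPC

variable {α : Type} [TEnc α]

theorem poly_posn {g : α → Gad} {x : α → ℕ} (hg : Poly g) (hx : Poly x) :
    Poly (fun a => posn (g a) (x a)) := by
  unfold posn
  fun_prop

theorem poly_endp {ty s : α → Bool} {j : α → ℕ} (hty : Poly ty) (hs : Poly s) (hj : Poly j) :
    Poly (fun a => endp (ty a) (s a) (j a)) := by
  unfold endp
  fun_prop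

theorem poly_att {g : α → Gad} {s : α → Bool} {x i : α → ℕ} (hg : Poly g) (hs : Poly s)
    (hx : Poly x) (hi : Poly i) : Poly (fun a => att (g a) (s a) (x a) (i a)) := by
  have h1 := poly_posn hg hx
  have h2 := poly_endp (NPC.Poly.fst hg) hs h1
  unfold att
  fun_prop

theorem poly_pr {i i' : α → ℕ} (p q : ℕ) (hi : Poly i) (hi' : Poly i') :
    Poly (fun a => pr p q (i a) (i' a)) := by
  unfold pr
  fun_prop

theorem poly_opt {ty : α → Bool} {i i' : α → ℕ} (hty : Poly ty) (hi : Poly i) (hi' : Poly i') :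
    Poly (fun a => opt (ty a) (i a) (i' a)) := by
  have h1 := poly_pr 0 1 hi hi'
  have h2 := poly_pr 1 2 hi hi'
  have h3 := poly_pr 2 0 hi hi'
  have h4 := poly_pr 2 3 hi hi'
  unfold opt
  fun_prop

theorem poly_frc {ty : α → Bool} {i i' : α → ℕ} (hty : Poly ty) (hi : Poly i) (hi' : Poly i') :
    Poly (fun a => frc (ty a) (i a) (i' a)) := by
  have h1 := poly_pr 1 2 hi hi'
  have h2 := poly_pr 3 4 hi hi'
  have h3 := poly_pr 4 0 hi hi'
  unfold frc
  fun_prop

theorem poly_stH {one : α → ℕ} {gs : α → List Gad} {u v : α → HV} (ho : Poly one)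
    (hgs : Poly gs) (hu : Poly u) (hv : Poly v) :
    Poly (fun a => stH (one a) (fun c => (gs a).getD c (false, 0, 0, 0)) (u a) (v a)) := by
  unfold stH
  refine NPC.Poly.sumElim (o := u) hu ?_ ?_
  · refine NPC.Poly.sumElim (o := fun p : α × (Bool × ℕ) => v p.1)
      (hv.comp (NPC.Poly.fst NPC.Poly.id)) ?_ ?_
    · have h1 : Poly (fun q : (α × (Bool × ℕ)) × (Bool × ℕ) => one q.1.1) :=
        ho.comp (NPC.Poly.fst (NPC.Poly.fst NPC.Poly.id))
      fun_prop
    · have h1 : Poly (fun q : (α × (Bool × ℕ)) × (ℕ × ℕ) => (gs q.1.1).getD q.2.1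
          (false, 0, 0, 0)) :=
        NPC.Poly.getD (hgs.comp (NPC.Poly.fst (NPC.Poly.fst NPC.Poly.id)))
          (NPC.Poly.fst (NPC.Poly.snd NPC.Poly.id)) (NPC.Poly.const _)
      have h2 : Poly (fun q : (α × (Bool × ℕ)) × (ℕ × ℕ) =>
          att ((gs q.1.1).getD q.2.1 (false, 0, 0, 0)) q.1.2.1 q.1.2.2 q.2.2) :=
        poly_att h1 (by fun_prop) (by fun_prop) (by fun_prop)
      fun_prop
  · refine NPC.Poly.sumElim (o := fun p : α × (ℕ × ℕ) => v p.1)
      (hv.comp (NPC.Poly.fst NPC.Poly.id)) ?_ ?_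
    · have h1 : Poly (fun q : (α × (ℕ × ℕ)) × (Bool × ℕ) => (gs q.1.1).getD q.1.2.1
          (false, 0, 0, 0)) :=
        NPC.Poly.getD (hgs.comp (NPC.Poly.fst (NPC.Poly.fst NPC.Poly.id)))
          (NPC.Poly.fst (NPC.Poly.snd (NPC.Poly.fst NPC.Poly.id))) (NPC.Poly.const _)
      have h2 : Poly (fun q : (α × (ℕ × ℕ)) × (Bool × ℕ) =>
          att ((gs q.1.1).getD q.1.2.1 (false, 0, 0, 0)) q.2.1 q.2.2 q.1.2.2) :=
        poly_att h1 (by fun_prop) (by fun_prop) (by fun_prop)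
      fun_prop
    · have h1 : Poly (fun q : (α × (ℕ × ℕ)) × (ℕ × ℕ) => (gs q.1.1).getD q.1.2.1
          (false, 0, 0, 0)) :=
        NPC.Poly.getD (hgs.comp (NPC.Poly.fst (NPC.Poly.fst NPC.Poly.id)))
          (NPC.Poly.fst (NPC.Poly.snd (NPC.Poly.fst NPC.Poly.id))) (NPC.Poly.const _)
      have h2 : Poly (fun q : (α × (ℕ × ℕ)) × (ℕ × ℕ) =>
          opt ((gs q.1.1).getD q.1.2.1 (false, 0, 0, 0)).1 q.1.2.2 q.2.2) :=
        poly_opt (NPC.Poly.fst h1) (by fun_prop) (by fun_prop)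
      have h3 : Poly (fun q : (α × (ℕ × ℕ)) × (ℕ × ℕ) =>
          frc ((gs q.1.1).getD q.1.2.1 (false, 0, 0, 0)).1 q.1.2.2 q.2.2) :=
        poly_frc (NPC.Poly.fst h1) (by fun_prop) (by fun_prop)
      fun_prop

theorem poly_side {st : α → HV → HV → ℕ} {w : α → HV} {g : α → HV × HV × ℕ}
    (hst : ∀ {β : Type} [TEnc β] (e : β → α) (u v : β → HV), Poly e → Poly u → Poly v →
      Poly (fun b => st (e b) (u b) (v b))) (hw : Poly w) (hg : Poly g) :
    Poly (fun a => side (st a) (w a) (g a)) := by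
  have h1 : Poly (fun a => st a (g a).1 (g a).2.1) :=
    hst (fun a => a) _ _ NPC.Poly.id (by fun_prop) (by fun_prop)
  unfold side
  fun_prop

theorem poly_probe {st : α → HV → HV → ℕ} {g g' : α → HV × HV × ℕ}
    (hst : ∀ {β : Type} [TEnc β] (e : β → α) (u v : β → HV), Poly e → Poly u → Poly v →
      Poly (fun b => st (e b) (u b) (v b))) (hg : Poly g) (hg' : Poly g') :
    Poly (fun a => probe (st a) (g a) (g' a)) := by
  have h1 : Poly (fun a => st a (g a).1 (g a).2.1) :=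
    hst (fun a => a) _ _ NPC.Poly.id (by fun_prop) (by fun_prop)
  have h2 : Poly (fun a => st a (g' a).1 (g' a).2.1) :=
    hst (fun a => a) _ _ NPC.Poly.id (by fun_prop) (by fun_prop)
  unfold probe
  fun_prop

theorem poly_adjC {st : α → HV → HV → ℕ} {x y : α → CV}
    (hst : ∀ {β : Type} [TEnc β] (e : β → α) (u v : β → HV), Poly e → Poly u → Poly v →
      Poly (fun b => st (e b) (u b) (v b))) (hx : Poly x) (hy : Poly y) :
    Poly (fun a => adjC (st a) (x a) (y a)) := by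
  unfold adjC
  refine NPC.Poly.sumElim (o := x) hx ?_ ?_
  · refine NPC.Poly.sumElim (o := fun p : α × HV => y p.1)
      (hy.comp (NPC.Poly.fst NPC.Poly.id)) (NPC.Poly.const _) ?_
    exact poly_side (st := fun q : (α × HV) × (HV × HV × ℕ) => st q.1.1)
      (fun e u v he hu hv => hst (fun b => (e b).1.1) u v (by fun_prop) hu hv)
      (by fun_prop) (by fun_prop)
  · refine NPC.Poly.sumElim (o := fun p : α × (HV × HV × ℕ) => y p.1)
      (hy.comp (NPC.Poly.fst NPC.Poly.id)) ?_ ?_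
    · exact poly_side (st := fun q : (α × (HV × HV × ℕ)) × HV => st q.1.1)
        (fun e u v he hu hv => hst (fun b => (e b).1.1) u v (by fun_prop) hu hv)
        (by fun_prop) (by fun_prop)
    · exact poly_probe (st := fun q : (α × (HV × HV × ℕ)) × (HV × HV × ℕ) => st q.1.1)
        (fun e u v he hu hv => hst (fun b => (e b).1.1) u v (by fun_prop) hu hv)
        (by fun_prop) (by fun_prop)

theorem poly_hvs {n M : α → ℕ} (hn : UPoly n) (hM : UPoly M) :
    Poly (fun a => hvs (n a) (M a)) := by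
  have h1 := hn.range
  have h2 := hM.range
  unfold hvs
  fun_prop

theorem poly_cvs {n M : α → ℕ} (hn : UPoly n) (hM : UPoly M) :
    Poly (fun a => cvs (n a) (M a)) := by
  have h1 := poly_hvs hn hM
  unfold cvs
  refine NPC.Poly.append (by fun_prop) ?_
  refine NPC.Poly.flatMap (l := fun a => hvs (n a) (M a))
    (F := fun (a : α) (u : HV) => (hvs (n a) (M a)).flatMap (fun v =>
      (List.range 3).map (fun r => (Sum.inr (u, v, r) : CV)))) h1 ?_
  refine NPC.Poly.flatMap (l := fun p : α × HV => hvs (n p.1) (M p.1))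
    (F := fun (p : α × HV) (v : HV) =>
      (List.range 3).map (fun r => (Sum.inr (p.2, v, r) : CV)))
    (h1.comp (NPC.Poly.fst NPC.Poly.id)) ?_
  refine NPC.Poly.map (l := fun _ : (α × HV) × HV => List.range 3)
    (F := fun (q : (α × HV) × HV) (r : ℕ) => (Sum.inr (q.1.2, q.2, r) : CV))
    (NPC.Poly.const _) ?_
  fun_prop

theorem poly_litv {l : α → Lit ℕ} (hl : Poly l) : Poly (fun a => litv (l a)) := by
  unfold litv
  fun_prop

theorem poly_gsOf : Poly gsOf := by
  have hN : UPoly (fun φ : List (Lit ℕ × Lit ℕ × Lit ℕ) => φ.length) := UPoly.length NPC.Poly.id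
  have h1 : Poly (fun φ : List (Lit ℕ × Lit ℕ × Lit ℕ) => List.range (3 * φ.length)) :=
    (UPoly.mul (UPoly.const 3) hN).range
  unfold gsOf
  refine NPC.Poly.append (by fun_prop) ?_
  refine NPC.Poly.flatMap (l := fun φ : List (Lit ℕ × Lit ℕ × Lit ℕ) => φ.zipIdx)
    (F := fun (φ : List (Lit ℕ × Lit ℕ × Lit ℕ)) (p : (Lit ℕ × Lit ℕ × Lit ℕ) × ℕ) =>
      [((true, litv p.1.1, litv p.1.2.1, 6 * φ.length + p.2) : Gad),
        (true, 6 * φ.length + p.2, litv p.1.2.2, 7 * φ.length)]) (by fun_prop) ?_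
  have l1 : Poly (fun q : List (Lit ℕ × Lit ℕ × Lit ℕ) × ((Lit ℕ × Lit ℕ × Lit ℕ) × ℕ) =>
      litv q.2.1.1) := poly_litv (by fun_prop)
  have l2 : Poly (fun q : List (Lit ℕ × Lit ℕ × Lit ℕ) × ((Lit ℕ × Lit ℕ × Lit ℕ) × ℕ) =>
      litv q.2.1.2.1) := poly_litv (by fun_prop)
  have l3 : Poly (fun q : List (Lit ℕ × Lit ℕ × Lit ℕ) × ((Lit ℕ × Lit ℕ × Lit ℕ) × ℕ) =>
      litv q.2.1.2.2) := poly_litv (by fun_prop)
  fun_prop

theorem mkI_toLists (n one : ℕ) (gs : List Gad) : (mkI n one gs).toLists =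
    ((cvs n gs.length).map isN, (cvs n gs.length).map (fun x => (cvs n gs.length).map (fun y =>
      adjC (stH one (fun c => gs.getD c (false, 0, 0, 0))) x y))) := by
  unfold Inst.toLists mkI
  rw [Prod.mk.injEq]
  refine ⟨?_, R671.adjMatrix_listGraph _ _ (adjC_comm _) (adjC_self _)⟩
  apply List.ext_getElem
  · simp
  · intro i h1 h2
    simp only [List.getElem_ofFn, List.getElem_map]
    rfl

theorem poly_red : Poly red := by
  have hN : UPoly (fun φ : List (Lit ℕ × Lit ℕ × Lit ℕ) => φ.length) := UPoly.length NPC.Poly.id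
  have hn : UPoly (fun φ : List (Lit ℕ × Lit ℕ × Lit ℕ) => 7 * φ.length + 2) :=
    UPoly.add (UPoly.mul (UPoly.const 7) hN) (UPoly.const 2)
  have hM : UPoly (fun φ : List (Lit ℕ × Lit ℕ × Lit ℕ) => (gsOf φ).length) :=
    UPoly.length poly_gsOf
  have hv : Poly (fun φ : List (Lit ℕ × Lit ℕ × Lit ℕ) => cvs (7 * φ.length + 2)
      (gsOf φ).length) := poly_cvs hn hM
  have h1 : Poly (fun φ : List (Lit ℕ × Lit ℕ × Lit ℕ) =>
      (cvs (7 * φ.length + 2) (gsOf φ).length).map isN) := by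
    refine NPC.Poly.map (F := fun (_ : List (Lit ℕ × Lit ℕ × Lit ℕ)) (x : CV) => isN x) hv ?_
    unfold isN
    exact NPC.Poly.sumElim (o := fun p : List (Lit ℕ × Lit ℕ × Lit ℕ) × CV => p.2)
      (NPC.Poly.snd NPC.Poly.id) (NPC.Poly.const _) (NPC.Poly.const _)
  have hst : ∀ {β : Type} [TEnc β] (e : β → List (Lit ℕ × Lit ℕ × Lit ℕ)) (u v : β → HV),
      Poly e → Poly u → Poly v → Poly (fun b => stH (7 * (e b).length)
        (fun c => (gsOf (e b)).getD c (false, 0, 0, 0)) (u b) (v b)) := by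
    intro β _ e u v he hu hv
    exact poly_stH (one := fun b => 7 * (e b).length) (gs := fun b => gsOf (e b))
      (by fun_prop) (poly_gsOf.comp he) hu hv
  have h2 : Poly (fun φ : List (Lit ℕ × Lit ℕ × Lit ℕ) =>
      (cvs (7 * φ.length + 2) (gsOf φ).length).map (fun x =>
        (cvs (7 * φ.length + 2) (gsOf φ).length).map (fun y =>
          adjC (stH (7 * φ.length) (fun c => (gsOf φ).getD c (false, 0, 0, 0))) x y))) := by
    refine NPC.Poly.map (F := fun (φ : List (Lit ℕ × Lit ℕ × Lit ℕ)) (x : CV) =>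
        (cvs (7 * φ.length + 2) (gsOf φ).length).map (fun y =>
          adjC (stH (7 * φ.length) (fun c => (gsOf φ).getD c (false, 0, 0, 0))) x y)) hv ?_
    refine NPC.Poly.map (l := fun p : List (Lit ℕ × Lit ℕ × Lit ℕ) × CV =>
        cvs (7 * p.1.length + 2) (gsOf p.1).length)
      (F := fun (p : List (Lit ℕ × Lit ℕ × Lit ℕ) × CV) (y : CV) =>
        adjC (stH (7 * p.1.length) (fun c => (gsOf p.1).getD c (false, 0, 0, 0))) p.2 y)
      (hv.comp (NPC.Poly.fst NPC.Poly.id)) ?_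
    exact poly_adjC
      (st := fun q : (List (Lit ℕ × Lit ℕ × Lit ℕ) × CV) × CV =>
        stH (7 * q.1.1.length) (fun c => (gsOf q.1.1).getD c (false, 0, 0, 0)))
      (fun e u v he hu hv => hst (fun b => (e b).1.1) u v (by fun_prop) hu hv)
      (by fun_prop) (by fun_prop)
  exact (NPC.Poly.toT' (NPC.Poly.pair h1 h2)).congr fun φ => by
    rw [red, ← mkI_toLists]

theorem hardPr_probe : HardPr (fun _ : Inst => True) PartitionedProbePerfect :=
  hardPr_SAT3b.trans poly_red (fun _ _ => trivial) (fun _ h => red_spec h)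

end Pool.Agent.H418R2.Perf
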