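import Pool.Agent.H418R2.PerfFinal

/-!
# Recognising partitioned probe perfect graphs is NP-hard: the reduction from 3SAT
-/

namespace Pool.Agent.H418R2.Perf

open Pool.Agent.NPC

/-- The variable of a literal. -/
def litv (l : Lit ℕ) : ℕ := bif l.1 then 2 * l.2 else 2 * l.2 + 1

/-- The gadgets of a formula. -/
def gsOf (φ : List (Lit ℕ × Lit ℕ × Lit ℕ)) : List Gad :=
  (List.range (3 * φ.length)).map (fun v => ((false, 2 * v, 2 * v + 1, 0) : Gad)) ++
  φ.zipIdx.flatMap (fun p => [((true, litv p.1.1, litv p.1.2.1, 6 * φ.length + p.2) : Gad),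
    (true, 6 * φ.length + p.2, litv p.1.2.2, 7 * φ.length)])

def red (φ : List (Lit ℕ × Lit ℕ × Lit ℕ)) : Inst :=
  mkI (7 * φ.length + 2) (7 * φ.length) (gsOf φ)

theorem mem_gsOf {φ : List (Lit ℕ × Lit ℕ × Lit ℕ)} {g : Gad} : g ∈ gsOf φ ↔
    (∃ v < 3 * φ.length, g = (false, 2 * v, 2 * v + 1, 0)) ∨
    (∃ i, ∃ h : i < φ.length, g = (true, litv φ[i].1, litv φ[i].2.1, 6 * φ.length + i) ∨
      g = (true, 6 * φ.length + i, litv φ[i].2.2, 7 * φ.length)) := by
  unfold gsOf
  rw [List.mem_append, List.mem_map, List.mem_flatMap]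
  apply or_congr
  · constructor
    · rintro ⟨v, hv, rfl⟩
      exact ⟨v, List.mem_range.1 hv, rfl⟩
    · rintro ⟨v, hv, rfl⟩
      exact ⟨v, List.mem_range.2 hv, rfl⟩
  · constructor
    · rintro ⟨⟨c, i⟩, hp, hg⟩
      rw [List.mem_zipIdx_iff_getElem?] at hp
      simp only at hp
      obtain ⟨hi, hci⟩ := List.getElem?_eq_some_iff.1 hp
      simp only [List.mem_cons, List.not_mem_nil, or_false] at hg
      refine ⟨i, hi, ?_⟩
      rw [hci]
      exact hg
    · rintro ⟨i, hi, hg⟩
      refine ⟨(φ[i], i), ?_, ?_⟩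
      · rw [List.mem_zipIdx_iff_getElem?]
        exact List.getElem?_eq_getElem hi
      · simp only [List.mem_cons, List.not_mem_nil, or_false]
        exact hg

theorem litv_lt {l : Lit ℕ} {m : ℕ} (h : l.2 < 3 * m) : litv l < 6 * m := by
  unfold litv
  rcases l with ⟨b, v⟩
  cases b <;> simp only [cond_true, cond_false] at h ⊢ <;> omega

theorem litv_ne {l l' : Lit ℕ} (h : l.2 ≠ l'.2) : litv l ≠ litv l' := by
  unfold litv
  rcases l with ⟨b, v⟩
  rcases l' with ⟨b', v'⟩
  cases b <;> cases b' <;> simp only [cond_true, cond_false] at h ⊢ <;> omega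

theorem okGs {φ : List (Lit ℕ × Lit ℕ × Lit ℕ)} (h1 : Distinct3 φ) (h2 : Bounded3 φ) :
    OkGs (7 * φ.length + 2) (7 * φ.length) (7 * φ.length + 1) (gsOf φ) := by
  refine ⟨by omega, by omega, fun g hg => ?_⟩
  rw [mem_gsOf] at hg
  rcases hg with ⟨v, hv, rfl⟩ | ⟨i, hi, hg⟩
  · refine ⟨⟨by simp, by simp⟩, ?_, ?_⟩
    · unfold posn
      simp only [Bool.false_eq_true, false_and, if_false]
      rw [if_neg (by omega), if_neg (by omega)]
    · intro j hj hj2
      have : j = 0 ∨ j = 1 ∨ j = 2 := by simpa using hj
      rcases this with rfl | rfl | rfl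
      · simp only [vr, if_true]
        omega
      · simp only [vr, if_true, one_ne_zero, if_false]
        omega
      · exact absurd rfl (hj2 rfl)
  · have hd := h1 _ (List.getElem_mem hi)
    obtain ⟨b0, b1, b2⟩ := h2 _ (List.getElem_mem hi)
    have c0 := litv_lt b0
    have c1 := litv_lt b1
    have c2 := litv_lt b2
    have d0 := litv_ne hd.1
    rcases hg with rfl | rfl
    · refine ⟨⟨d0, fun _ => ⟨?_, ?_⟩⟩, ?_, ?_⟩
      · simp only
        omega
      · simp only
        omega
      · unfold posn
        simp only [true_and]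
        rw [if_neg (by omega), if_neg (by omega), if_neg (by omega)]
      · intro j hj _
        have : j = 0 ∨ j = 1 ∨ j = 2 := by simpa using hj
        rcases this with rfl | rfl | rfl
        · simp only [vr, if_true]
          omega
        · simp only [vr, if_true, one_ne_zero, if_false]
          omega
        · simp only [vr, OfNat.ofNat_ne_zero, OfNat.ofNat_ne_one, if_false]
          omega
    · refine ⟨⟨?_, fun _ => ⟨?_, ?_⟩⟩, ?_, ?_⟩
      · simp only
        omega
      · simp only
        omega
      · simp only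
        omega
      · unfold posn
        simp only [true_and]
        rw [if_neg (by omega), if_neg (by omega), if_neg (by omega)]
      · intro j hj _
        have : j = 0 ∨ j = 1 ∨ j = 2 := by simpa using hj
        rcases this with rfl | rfl | rfl
        · simp only [vr, if_true]
          omega
        · simp only [vr, if_true, one_ne_zero, if_false]
          omega
        · simp only [vr, OfNat.ofNat_ne_zero, OfNat.ofNat_ne_one, if_false]
          omega

theorem satG_xor (a b c : Bool) : satG false a b c = true ↔ b = !a := by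
  revert a b c
  decide

theorem satG_or (a b c d : Bool) (h1 : satG true a b c = true) (h2 : satG true c d true = true) :
    a = true ∨ b = true ∨ d = true := by
  revert a b c d
  decide

theorem satG_or' (a b d : Bool) (h : a = true ∨ b = true ∨ d = true) :
    satG true a b (a || b) = true ∧ satG true (a || b) d true = true := by
  revert a b d
  decide

/-- The value of the variable with number `k`. -/
def valY (φ : List (Lit ℕ × Lit ℕ × Lit ℕ)) (τ : ℕ → Bool) (k : ℕ) : Bool :=
  if k < 6 * φ.length then (if k % 2 = 0 then τ (k / 2) else !τ (k / 2))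
  else if h : k - 6 * φ.length < φ.length then
    (τ φ[k - 6 * φ.length].1.2 == φ[k - 6 * φ.length].1.1) ||
      (τ φ[k - 6 * φ.length].2.1.2 == φ[k - 6 * φ.length].2.1.1)
  else true

theorem valY_lit {φ : List (Lit ℕ × Lit ℕ × Lit ℕ)} {τ : ℕ → Bool} {l : Lit ℕ}
    (h : l.2 < 3 * φ.length) : valY φ τ (litv l) = (τ l.2 == l.1) := by
  unfold valY
  rw [if_pos (litv_lt h)]
  unfold litv
  rcases l with ⟨b, v⟩
  cases b
  · simp only [cond_false]
    rw [if_neg (by omega), show (2 * v + 1) / 2 = v by omega]
    cases τ v <;> rfl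
  · simp only [cond_true]
    rw [if_pos (by omega), show (2 * v) / 2 = v by omega]
    cases τ v <;> rfl

theorem sat_iff {φ : List (Lit ℕ × Lit ℕ × Lit ℕ)} (h2 : Bounded3 φ) :
    SAT3 φ ↔ ∃ y : ℕ → Bool, y (7 * φ.length) = true ∧ ∀ g ∈ gsOf φ, SatG g y = true := by
  constructor
  · rintro ⟨τ, hτ⟩
    refine ⟨valY φ τ, ?_, ?_⟩
    · unfold valY
      rw [dif_neg (by omega)]
      split_ifs with h
      · omega
      · omega
      · rfl
    · intro g hg
      rw [mem_gsOf] at hg
      rcases hg with ⟨v, hv, rfl⟩ | ⟨i, hi, hg⟩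
      · unfold SatG
        simp only
        rw [satG_xor]
        have e1 := valY_lit (φ := φ) (τ := τ) (l := (true, v)) hv
        have e2 := valY_lit (φ := φ) (τ := τ) (l := (false, v)) hv
        simp only [litv, cond_true, cond_false] at e1 e2
        rw [e1, e2]
        cases τ v <;> rfl
      · obtain ⟨b0, b1, b2⟩ := h2 _ (List.getElem_mem hi)
        have hc := hτ _ (List.getElem_mem hi)
        have hu : valY φ τ (6 * φ.length + i) =
            ((τ φ[i].1.2 == φ[i].1.1) || (τ φ[i].2.1.2 == φ[i].2.1.1)) := by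
          unfold valY
          rw [if_neg (by omega), dif_pos (by omega)]
          simp only [show 6 * φ.length + i - 6 * φ.length = i by omega]
        have hone : valY φ τ (7 * φ.length) = true := by
          unfold valY
          have : φ.length ≠ 0 := by omega
          rw [if_neg (by omega), dif_neg (by omega)]
        have hc' : (τ φ[i].1.2 == φ[i].1.1) = true ∨ (τ φ[i].2.1.2 == φ[i].2.1.1) = true ∨
            (τ φ[i].2.2.2 == φ[i].2.2.1) = true := by
          simpa only [beq_iff_eq] using hc
        have key := satG_or' _ _ _ hc'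
        rcases hg with rfl | rfl
        · unfold SatG
          simp only
          rw [valY_lit b0, valY_lit b1, hu]
          exact key.1
        · unfold SatG
          simp only
          rw [valY_lit b2, hu, hone]
          exact key.2
  · rintro ⟨y, hone, hy⟩
    have hneg : ∀ v < 3 * φ.length, y (2 * v + 1) = !y (2 * v) := by
      intro v hv
      have := hy _ (mem_gsOf.2 (Or.inl ⟨v, hv, rfl⟩))
      unfold SatG at this
      simp only at this
      rwa [satG_xor] at this
    have hlit : ∀ l : Lit ℕ, l.2 < 3 * φ.length → y (litv l) = true → y (2 * l.2) = l.1 := by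
      rintro ⟨b, v⟩ hv h
      cases b
      · simp only [litv, cond_false] at h
        rw [hneg v hv] at h
        simpa using h
      · simpa only [litv, cond_true] using h
    refine ⟨fun v => y (2 * v), fun c hc => ?_⟩
    obtain ⟨i, hi, rfl⟩ := List.getElem_of_mem hc
    obtain ⟨b0, b1, b2⟩ := h2 _ (List.getElem_mem hi)
    have e1 := hy _ (mem_gsOf.2 (Or.inr ⟨i, hi, Or.inl rfl⟩))
    have e2 := hy _ (mem_gsOf.2 (Or.inr ⟨i, hi, Or.inr rfl⟩))
    unfold SatG at e1 e2
    simp only at e1 e2
    rw [hone] at e2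
    rcases satG_or _ _ _ _ e1 e2 with h | h | h
    · exact Or.inl (hlit _ b0 h)
    · exact Or.inr (Or.inl (hlit _ b1 h))
    · exact Or.inr (Or.inr (hlit _ b2 h))

theorem red_spec {φ : List (Lit ℕ × Lit ℕ × Lit ℕ)} (h : Distinct3 φ ∧ Bounded3 φ ∧ φ ≠ []) :
    SAT3 φ ↔ PartitionedProbePerfect (red φ) := by
  rw [sat_iff h.2.1]
  unfold red
  rw [mkI_spec (okGs h.1 h.2.1)]

end Pool.Agent.H418R2.Perf
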