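import Pool.Agent.H418R2.Perf

/-!
# From sandwich instances to partitioned probe graphs

`hat G st` is obtained from `G` by adding three new vertices for every ordered pair `(u, v)`.  If
`st u v = 1` they force the edge `uv`, if `st u v = 2` they forbid it.
-/

namespace Pool.Agent.H418R2.Perf

open Finset

variable {V : Type} [DecidableEq V]

/-- Adjacency of an old vertex `w` and the new vertex `g = (u, v, r)`. -/
def side (st : V → V → ℕ) (w : V) (g : V × V × ℕ) : Bool :=
  (decide (st g.1 g.2.1 = 1) &&
    ((decide (g.2.2 = 0) && (decide (w = g.1) || decide (w = g.2.1))) ||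
     ((decide (g.2.2 = 1) && decide (w = g.2.1)) || (decide (g.2.2 = 2) && decide (w = g.1))))) ||
  (decide (st g.1 g.2.1 = 2) &&
    ((decide (g.2.2 = 0) && (!decide (w = g.1) && !decide (w = g.2.1))) ||
     ((decide (g.2.2 = 1) && !decide (w = g.2.1)) || (decide (g.2.2 = 2) && !decide (w = g.1)))))

/-- Adjacency of two new vertices. -/
def probe (st : V → V → ℕ) (g g' : V × V × ℕ) : Bool :=
  if g.1 = g'.1 ∧ g.2.1 = g'.2.1 then
    (decide (st g.1 g.2.1 = 1) &&
      ((decide (g.2.2 = 1) && decide (g'.2.2 = 2)) || (decide (g.2.2 = 2) && decide (g'.2.2 = 1)))) ||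
    (decide (st g.1 g.2.1 = 2) &&
      ((decide (g.2.2 = 0) && (decide (g'.2.2 = 1) || decide (g'.2.2 = 2))) ||
       (decide (g'.2.2 = 0) && (decide (g.2.2 = 1) || decide (g.2.2 = 2)))))
  else decide (st g.1 g.2.1 = 2) || decide (st g'.1 g'.2.1 = 2)

theorem probe_comm (st : V → V → ℕ) (g g' : V × V × ℕ) : probe st g g' = probe st g' g := by
  unfold probe
  by_cases h : g.1 = g'.1 ∧ g.2.1 = g'.2.1
  · rw [if_pos h, if_pos ⟨h.1.symm, h.2.symm⟩, h.1, h.2]
    generalize decide (st g'.1 g'.2.1 = 1) = A
    generalize decide (st g'.1 g'.2.1 = 2) = B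
    generalize decide (g.2.2 = 0) = a0
    generalize decide (g.2.2 = 1) = a1
    generalize decide (g.2.2 = 2) = a2
    generalize decide (g'.2.2 = 0) = b0
    generalize decide (g'.2.2 = 1) = b1
    generalize decide (g'.2.2 = 2) = b2
    revert A B a0 a1 a2 b0 b1 b2
    decide
  · rw [if_neg h, if_neg (fun h' => h ⟨h'.1.symm, h'.2.symm⟩), Bool.or_comm]

theorem probe_self (st : V → V → ℕ) (g : V × V × ℕ) : probe st g g = false := by
  unfold probe
  simp only [and_self, if_true]
  rcases hr : g.2.2 with _ | _ | _ | r <;> simp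

/-- The extended graph. -/
def hat (G : SimpleGraph V) (st : V → V → ℕ) : SimpleGraph (V ⊕ (V × V × ℕ)) where
  Adj x y := match x, y with
    | Sum.inl w, Sum.inl w' => G.Adj w w'
    | Sum.inl w, Sum.inr g => side st w g = true
    | Sum.inr g, Sum.inl w => side st w g = true
    | Sum.inr g, Sum.inr g' => probe st g g' = true
  symm := ⟨by
    rintro (w | g) (w' | g') h
    · exact SimpleGraph.Adj.symm h
    · exact h
    · exact h
    · change probe st g' g = true
      rw [probe_comm]
      exact h⟩
  loopless := ⟨by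
    rintro (w | g) h
    · exact G.loopless.irrefl _ h
    · change probe st g g = true at h
      rw [probe_self] at h
      exact absurd h (by simp)⟩

@[simp] theorem hat_inl_inl (G : SimpleGraph V) (st : V → V → ℕ) (w w' : V) :
    (hat G st).Adj (Sum.inl w) (Sum.inl w') ↔ G.Adj w w' := Iff.rfl
@[simp] theorem hat_inl_inr (G : SimpleGraph V) (st : V → V → ℕ) (w : V) (g : V × V × ℕ) :
    (hat G st).Adj (Sum.inl w) (Sum.inr g) ↔ side st w g = true := Iff.rfl
@[simp] theorem hat_inr_inl (G : SimpleGraph V) (st : V → V → ℕ) (w : V) (g : V × V × ℕ) :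
    (hat G st).Adj (Sum.inr g) (Sum.inl w) ↔ side st w g = true := Iff.rfl
@[simp] theorem hat_inr_inr (G : SimpleGraph V) (st : V → V → ℕ) (g g' : V × V × ℕ) :
    (hat G st).Adj (Sum.inr g) (Sum.inr g') ↔ probe st g g' = true := Iff.rfl

omit [DecidableEq V] in
/-- Goodness and injective maps. -/
theorem good_image {W : Type} [DecidableEq W] {G : SimpleGraph W} {f : V → W}
    (hf : Function.Injective f) (T : Finset V) : Good (G.comap f) T ↔ Good G (T.image f) := by
  classical
  constructor
  · rintro ⟨k, ⟨K, hK, hKc, hKk⟩, c, h1, h2⟩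
    refine ⟨k, ⟨K.image f, image_subset_image hK, ?_, ?_⟩, ?_⟩
    · intro a ha b hb hab
      obtain ⟨a', ha', rfl⟩ := mem_image.1 (mem_coe.1 ha)
      obtain ⟨b', hb', rfl⟩ := mem_image.1 (mem_coe.1 hb)
      exact hKc ha' hb' (fun h => hab (by rw [h]))
    · rw [card_image_of_injective _ hf, hKk]
    · refine ⟨fun w => if h : ∃ v, f v = w then c h.choose else 0, ?_, ?_⟩
      · intro w hw
        obtain ⟨v, hv, rfl⟩ := mem_image.1 hw
        have hex : ∃ v', f v' = f v := ⟨v, rfl⟩
        have : hex.choose = v := hf hex.choose_spec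
        simp only [hex, dite_true, this]
        exact h1 v hv
      · intro a ha b hb hab
        obtain ⟨a', ha', rfl⟩ := mem_image.1 ha
        obtain ⟨b', hb', rfl⟩ := mem_image.1 hb
        have hexa : ∃ v', f v' = f a' := ⟨a', rfl⟩
        have hexb : ∃ v', f v' = f b' := ⟨b', rfl⟩
        have ea : hexa.choose = a' := hf hexa.choose_spec
        have eb : hexb.choose = b' := hf hexb.choose_spec
        simp only [hexa, hexb, dite_true, ea, eb]
        exact h2 a' ha' b' hb' hab
  · rintro ⟨k, ⟨K, hK, hKc, hKk⟩, c, h1, h2⟩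
    refine ⟨k, ⟨T.filter (fun v => f v ∈ K), filter_subset _ _, ?_, ?_⟩, fun v => c (f v), ?_, ?_⟩
    · intro a ha b hb hab
      have ha' := (mem_filter.1 (mem_coe.1 ha)).2
      have hb' := (mem_filter.1 (mem_coe.1 hb)).2
      exact hKc ha' hb' (fun h => hab (hf h))
    · rw [← hKk, ← card_image_of_injective _ hf]
      congr 1
      ext w
      simp only [mem_image, mem_filter]
      constructor
      · rintro ⟨v, ⟨_, hv⟩, rfl⟩
        exact hv
      · intro hw
        obtain ⟨v, hv, rfl⟩ := mem_image.1 (hK hw)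
        exact ⟨v, ⟨hv, hw⟩, rfl⟩
    · intro v hv
      exact h1 _ (mem_image_of_mem f hv)
    · intro a ha b hb hab
      exact h2 _ (mem_image_of_mem f ha) _ (mem_image_of_mem f hb) hab

/-- If `G` is perfect on `S` and respects `st`, then the extended graph is perfect. -/
theorem hat_good {G : SimpleGraph V} {st : V → V → ℕ} (h1 : ∀ u v, st u v = 1 → G.Adj u v)
    (h2 : ∀ u v, st u v = 2 → u ≠ v ∧ ¬ G.Adj u v) {S : Set V}
    (hS : ∀ T : Finset V, (∀ w ∈ T, w ∈ S) → Good G T) :
    ∀ T : Finset (V ⊕ (V × V × ℕ)), (∀ w, Sum.inl w ∈ T → w ∈ S) →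
      (∀ g, Sum.inr g ∈ T → g.2.2 < 3) → Good (hat G st) T := by
  classical
  intro T
  induction hn : T.card using Nat.strong_induction_on generalizing T with
  | _ n ih =>
  intro hT1 hT2
  have ihT : ∀ R ⊆ T, ∀ g, Sum.inr g ∈ T → Sum.inr g ∉ R → Good (hat G st) R := by
    intro R hR g hg hgR
    refine ih R.card ?_ R rfl (fun w hw => hT1 w (hR hw)) (fun g' hg' => hT2 g' (hR hg'))
    rw [← hn]
    exact card_lt_card ⟨hR, fun h => hgR (h hg)⟩
  by_cases hA : ∃ g, Sum.inr g ∈ T ∧ st g.1 g.2.1 = 2
  · obtain ⟨⟨u, v, r⟩, hg, hst⟩ := hA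
    simp only at hst
    obtain ⟨hne, hnadj⟩ := h2 u v hst
    have hr := hT2 _ hg
    simp only at hr
    have hsame : ∀ g, Sum.inr g ∈ T → g.1 = u → g.2.1 = v → g = (u, v, 0) ∨ g = (u, v, 1) ∨
        g = (u, v, 2) := by
      rintro ⟨u', v', r'⟩ hg' rfl rfl
      have := hT2 _ hg'
      simp only at this
      interval_cases r' <;> simp
    have hprobe : ∀ (i : ℕ) (g' : V × V × ℕ), ¬ (u = g'.1 ∧ v = g'.2.1) →
        probe st (u, v, i) g' = true := by
      intro i g' h
      unfold probe
      simp [h, hst]
    apply good_nonedge (u := Sum.inl u) (v := Sum.inl v) (α := Sum.inr (u, v, 0))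
      (β := Sum.inr (u, v, 1)) (γ := Sum.inr (u, v, 2))
    · exact hnadj
    · exact fun h => hne (Sum.inl_injective h)
    · simp
    · simp
    · simp
    · simp
    · simp
    · simp
    · intro R hR hα hβ hγ
      interval_cases r
      · exact ihT R hR _ hg hα
      · exact ihT R hR _ hg hβ
      · exact ihT R hR _ hg hγ
    · rintro (w | g) hw hw0 hw1 hw2
      · simp [side, hst]
      · have : ¬ (u = g.1 ∧ v = g.2.1) := by
          rintro ⟨rfl, rfl⟩
          rcases hsame g hw rfl rfl with h | h | h
          · exact hw0 (by rw [← h])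
          · exact hw1 (by rw [← h])
          · exact hw2 (by rw [← h])
        simp [hprobe 0 g this]
    · rintro (w | g) hw hw0 hw1 hw2
      · simp [side, hst]
      · have : ¬ (u = g.1 ∧ v = g.2.1) := by
          rintro ⟨rfl, rfl⟩
          rcases hsame g hw rfl rfl with h | h | h
          · exact hw0 (by rw [← h])
          · exact hw1 (by rw [← h])
          · exact hw2 (by rw [← h])
        simp [hprobe 1 g this]
    · rintro (w | g) hw hw0 hw1 hw2
      · simp [side, hst]
      · have : ¬ (u = g.1 ∧ v = g.2.1) := by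
          rintro ⟨rfl, rfl⟩
          rcases hsame g hw rfl rfl with h | h | h
          · exact hw0 (by rw [← h])
          · exact hw1 (by rw [← h])
          · exact hw2 (by rw [← h])
        simp [hprobe 2 g this]
    · simp [probe, hst]
    · simp [probe, hst]
    · simp [probe, hst]
  by_cases hB : ∃ g, Sum.inr g ∈ T ∧ st g.1 g.2.1 = 1
  · obtain ⟨⟨u, v, r⟩, hg, hst⟩ := hB
    simp only at hst
    have hadj := h1 u v hst
    have hr := hT2 _ hg
    simp only at hr
    have hno2 : ∀ g, Sum.inr g ∈ T → st g.1 g.2.1 ≠ 2 := fun g hg h => hA ⟨g, hg, h⟩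
    have hprobe : ∀ (i : ℕ) (g' : V × V × ℕ), Sum.inr g' ∈ T → probe st (u, v, i) g' = true →
        g'.1 = u ∧ g'.2.1 = v := by
      intro i g' hg' h
      by_contra hcon
      unfold probe at h
      rw [if_neg (fun h' => hcon ⟨h'.1.symm, h'.2.symm⟩)] at h
      simp [hst, hno2 g' hg'] at h
    apply good_edge (u := Sum.inl u) (v := Sum.inl v) (α := Sum.inr (u, v, 0))
      (β := Sum.inr (u, v, 1)) (γ := Sum.inr (u, v, 2))
    · exact hadj
    · simp
    · simp
    · simp
    · simp
    · simp
    · simp
    · simp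
    · simp
    · simp
    · intro R hR hα hβ hγ
      interval_cases r
      · exact ihT R hR _ hg hα
      · exact ihT R hR _ hg hβ
      · exact ihT R hR _ hg hγ
    · rintro (w | g) hw h
      · simpa [side, hst] using h
      · exfalso
        have h3 := hprobe 0 g hw h
        obtain ⟨u', v', r'⟩ := g
        simp only at h3
        obtain ⟨rfl, rfl⟩ := h3
        simp [probe, hst] at h
    · rintro (w | g) hw h
      · left
        simpa [side, hst] using h
      · right
        have h3 := hprobe 1 g hw h
        obtain ⟨u', v', r'⟩ := g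
        simp only at h3
        obtain ⟨rfl, rfl⟩ := h3
        simp [probe, hst] at h
        rw [h]
    · rintro (w | g) hw h
      · left
        simpa [side, hst] using h
      · right
        have h3 := hprobe 2 g hw h
        obtain ⟨u', v', r'⟩ := g
        simp only at h3
        obtain ⟨rfl, rfl⟩ := h3
        simp [probe, hst] at h
        rw [h]
  by_cases hC : ∃ g, Sum.inr g ∈ T
  · obtain ⟨g, hg⟩ := hC
    have hno : ∀ g, Sum.inr g ∈ T → st g.1 g.2.1 ≠ 2 ∧ st g.1 g.2.1 ≠ 1 :=
      fun g hg => ⟨fun h => hA ⟨g, hg, h⟩, fun h => hB ⟨g, hg, h⟩⟩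
    apply good_simplicial (Sum.inr g)
    · exact ihT _ (erase_subset _ _) g hg (by simp)
    · rintro (w | g') hw _ _ h
      · simp [side, hno g hg] at h
      · simp only [hat_inr_inr] at h
        unfold probe at h
        split_ifs at h
        · simp [hno g hg] at h
        · simp [hno g hg, hno g' hw] at h
  · -- only old vertices
    have hT : T = (T.preimage Sum.inl Sum.inl_injective.injOn).image Sum.inl := by
      ext x
      rcases x with w | g
      · simp
      · simp only [mem_image, mem_preimage, reduceCtorEq, and_false, exists_false, iff_false]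
        exact fun h => hC ⟨g, h⟩
    rw [hT, ← good_image Sum.inl_injective]
    have : (hat G st).comap Sum.inl = G := by
      ext u v
      rfl
    rw [this]
    apply hS
    intro w hw
    exact hT1 w (by simpa using hw)

/-- In a perfect extended graph the edges with `st u v = 1` are present. -/
theorem hat_edge {G : SimpleGraph V} {st : V → V → ℕ} {u v : V} (hst : st u v = 1) (hne : u ≠ v)
    (hgood : Good (hat G st) ((range 5).image (fun i => ([Sum.inl u, Sum.inr (u, v, 0), Sum.inl v,
      Sum.inr (u, v, 1), Sum.inr (u, v, 2)] : List (V ⊕ (V × V × ℕ))).getD i (Sum.inl u)))) :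
    G.Adj u v := by
  by_contra hadj
  refine not_hole (l := 2) le_rfl hgood ?_
  have hadj' : ¬ G.Adj v u := fun h => hadj h.symm
  intro i hi j hj
  interval_cases i <;> interval_cases j <;> simp [side, probe, hst, hadj, hadj', hne, hne.symm]

theorem hat_nonedge {G : SimpleGraph V} {st : V → V → ℕ} {u v : V} (hst : st u v = 2) (hne : u ≠ v)
    (hgood : Good (hat G st) ((range 5).image (fun i => ([Sum.inl u, Sum.inr (u, v, 1),
      Sum.inr (u, v, 0), Sum.inr (u, v, 2), Sum.inl v] : List (V ⊕ (V × V × ℕ))).getD i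
        (Sum.inl u)))) : ¬ G.Adj u v := by
  intro hadj
  refine not_hole (l := 2) le_rfl hgood ?_
  have hadj' : G.Adj v u := hadj.symm
  intro i hi j hj
  interval_cases i <;> interval_cases j <;> simp [side, probe, hst, hadj, hadj', hne, hne.symm]

end Pool.Agent.H418R2.Perf
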