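import Pool.Agent.H418R2.PerfH

/-!
# Perfect completions give satisfying assignments
-/

namespace Pool.Agent.H418R2.Perf

open Finset

/-- Pairs inside a gadget that may or may not be adjacent. -/
def opt (ty : Bool) (i i' : ℕ) : Bool :=
  if ty = true then pr 0 1 i i' || (pr 1 2 i i' || pr 2 0 i i') else pr 0 1 i i' || pr 2 3 i i'

/-- Pairs inside a gadget that are always adjacent. -/
def frc (ty : Bool) (i i' : ℕ) : Bool :=
  if ty = true then false else pr 1 2 i i' || (pr 3 4 i i' || pr 4 0 i i')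

/-- The sandwich instance: `0` no condition, `1` edge, `2` non-edge. -/
def stH (one : ℕ) (g : ℕ → Gad) (u v : HV) : ℕ :=
  Sum.elim
    (fun a : Bool × ℕ => Sum.elim
      (fun b : Bool × ℕ => if a.2 = b.2 then (if a.1 = b.1 then 0 else if a.2 = one then 1 else 0)
        else 2)
      (fun d : ℕ × ℕ => if att (g d.1) a.1 a.2 d.2 = true then 1 else 2) v)
    (fun d : ℕ × ℕ => Sum.elim
      (fun a : Bool × ℕ => if att (g d.1) a.1 a.2 d.2 = true then 1 else 2)
      (fun d' : ℕ × ℕ => if d.1 = d'.1 then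
        (if d.2 = d'.2 then 0 else if opt (g d.1).1 d.2 d'.2 = true then 0
          else if frc (g d.1).1 d.2 d'.2 = true then 1 else 2)
        else 1) v) u

/-- Local vertices of a gadget: variable vertices (`k = 3` stands for the unused variable) and
gadget vertices. -/
abbrev LV : Type := (Bool × ℕ) ⊕ ℕ

def adjL (ty y0 y1 y2 e0 e1 e2 : Bool) (u v : LV) : Bool :=
  Sum.elim
    (fun a : Bool × ℕ => Sum.elim
      (fun b : Bool × ℕ => decide (a.2 = b.2) && (!decide (a.1 = b.1) && bit3 y0 y1 y2 a.2))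
      (fun i : ℕ => decide (a.2 = 3) || (decide (i = endp ty a.1 a.2) || decide (i = 5 + a.2))) v)
    (fun i : ℕ => Sum.elim
      (fun a : Bool × ℕ => decide (a.2 = 3) || (decide (i = endp ty a.1 a.2) ||
        decide (i = 5 + a.2)))
      (fun i' : ℕ => ring ty e0 e1 e2 i i') v) u

def okL (ty : Bool) (u : LV) : Bool :=
  Sum.elim (fun a : Bool × ℕ => (decide (a.2 < 3) && (ty || !decide (a.2 = 2))) ||
    (decide (a.2 = 3) && !a.1)) (fun i : ℕ => decide (i < 8)) u

def isHoleL (ty y0 y1 y2 e0 e1 e2 : Bool) (l : List LV) : Bool :=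
  l.all (okL ty) && (List.range l.length).all fun i => (List.range l.length).all fun j =>
    adjL ty y0 y1 y2 e0 e1 e2 (l.getD i (Sum.inr 0)) (l.getD j (Sum.inr 0)) ==
      (decide ((i + 1) % l.length = j) || decide ((j + 1) % l.length = i))

def holeP (ty : Bool) (j : ℕ) : List LV :=
  [Sum.inl (false, 3), Sum.inr (endp ty false j), Sum.inl (false, j), Sum.inl (true, j),
    Sum.inr (endp ty true j)]

def holeQ (ty : Bool) (j : ℕ) : List LV :=
  [Sum.inr (endp ty false j), Sum.inl (false, j), Sum.inr (5 + j), Sum.inl (true, j),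
    Sum.inr (endp ty true j)]

def holeN (j : ℕ) : List LV :=
  [Sum.inr (j % 3), Sum.inr ((j + 1) % 3), Sum.inl (false, (j + 1) % 3),
    Sum.inr (5 + (j + 1) % 3), Sum.inl (true, (j + 1) % 3), Sum.inr ((j + 2) % 3),
    Sum.inl (false, (j + 2) % 3), Sum.inr (5 + (j + 2) % 3), Sum.inl (true, (j + 2) % 3)]

def holeX (b : Bool) : List LV :=
  if b = true then [Sum.inr 0, Sum.inr 1, Sum.inr 2, Sum.inr 3, Sum.inr 4]
  else [Sum.inr 0, Sum.inl (false, 0), Sum.inr 5, Sum.inl (true, 0), Sum.inr 1, Sum.inr 2,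
    Sum.inl (false, 1), Sum.inr 6, Sum.inl (true, 1), Sum.inr 3, Sum.inr 4]

def holeBad (ty y0 y1 : Bool) : List LV :=
  if ty = true then (if y0 = true then holeN 0 else if y1 = true then holeN 1 else holeN 2)
  else holeX y0

set_option maxRecDepth 100000 in
theorem holeP_spec : ∀ ty y0 y1 y2 e0 e1 e2 : Bool, ∀ j ∈ [0, 1, 2], (ty = false → j ≠ 2) →
    bit3 y0 y1 y2 j = true → bit3 e0 e1 e2 j = false →
    isHoleL ty y0 y1 y2 e0 e1 e2 (holeP ty j) = true := by
  decide

set_option maxRecDepth 100000 in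
theorem holeQ_spec : ∀ ty y0 y1 y2 e0 e1 e2 : Bool, ∀ j ∈ [0, 1, 2], (ty = false → j ≠ 2) →
    bit3 y0 y1 y2 j = false → bit3 e0 e1 e2 j = true →
    isHoleL ty y0 y1 y2 e0 e1 e2 (holeQ ty j) = true := by
  decide

set_option maxRecDepth 100000 in
theorem holeBad_spec : ∀ ty y0 y1 y2 e2 : Bool, satG ty y0 y1 y2 = false →
    (ty = true → e2 = y2) →
    isHoleL ty y0 y1 y2 y0 y1 e2 (holeBad ty y0 y1) = true := by
  decide

theorem hole_length (ty y0 y1 : Bool) (j : ℕ) : (holeP ty j).length = 5 ∧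
    (holeQ ty j).length = 5 ∧ ∃ l, 2 ≤ l ∧ (holeBad ty y0 y1).length = 2 * l + 1 := by
  refine ⟨rfl, rfl, ?_⟩
  cases ty <;> cases y0 <;> cases y1
  · exact ⟨5, by omega, rfl⟩
  · exact ⟨5, by omega, rfl⟩
  · exact ⟨2, by omega, rfl⟩
  · exact ⟨2, by omega, rfl⟩
  · exact ⟨4, by omega, rfl⟩
  · exact ⟨4, by omega, rfl⟩
  · exact ⟨4, by omega, rfl⟩
  · exact ⟨4, by omega, rfl⟩

/-- The embedding of the local vertices. -/
def emb (g : ℕ → Gad) (xp c : ℕ) (u : LV) : HV :=
  Sum.elim (fun a : Bool × ℕ => Sum.inl (a.1, if a.2 = 3 then xp else vr (g c) a.2))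
    (fun i : ℕ => Sum.inr (c, i)) u

section Sound

variable {one : ℕ} {g : ℕ → Gad} {n M xp : ℕ} {G : SimpleGraph HV}

/-- The vertices of the instance. -/
def ValidV (n M : ℕ) (u : HV) : Prop :=
  Sum.elim (fun a : Bool × ℕ => a.2 < n) (fun d : ℕ × ℕ => d.1 < M ∧ d.2 < 8) u

theorem pr_iff {a b i i' : ℕ} : pr a b i i' = true ↔ (i = a ∧ i' = b) ∨ (i' = a ∧ i = b) := by
  unfold pr
  simp

theorem ring_adj
    (h1 : ∀ u v, ValidV n M u → ValidV n M v → u ≠ v → stH one g u v = 1 → G.Adj u v)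
    (h2 : ∀ u v, ValidV n M u → ValidV n M v → u ≠ v → stH one g u v = 2 → ¬ G.Adj u v)
    {c : ℕ} (hc : c < M) (e0 e1 e2 : Bool)
    (he : ∀ j ∈ [0, 1, 2], ((g c).1 = false → j ≠ 2) →
      (G.Adj (Sum.inr (c, endp (g c).1 false j)) (Sum.inr (c, endp (g c).1 true j)) ↔
        bit3 e0 e1 e2 j = true)) {i i' : ℕ} (hi : i < 8) (hi' : i' < 8) :
    G.Adj (Sum.inr (c, i)) (Sum.inr (c, i')) ↔ ring (g c).1 e0 e1 e2 i i' = true := by
  by_cases hii : i = i'
  · subst hii
    rw [ring_self]
    simp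
  have hne : (Sum.inr (c, i) : HV) ≠ Sum.inr (c, i') := by
    intro h
    exact hii (by simpa using h)
  have hv : ValidV n M (Sum.inr (c, i)) := ⟨hc, hi⟩
  have hv' : ValidV n M (Sum.inr (c, i')) := ⟨hc, hi'⟩
  have hst1 := h1 _ _ hv hv' hne
  have hst2 := h2 _ _ hv hv' hne
  simp only [stH, Sum.elim_inr, if_true, if_neg hii] at hst1 hst2
  have hopt : ∀ j ∈ [0, 1, 2], ((g c).1 = false → j ≠ 2) →
      pr (endp (g c).1 false j) (endp (g c).1 true j) i i' = true →
      (G.Adj (Sum.inr (c, i)) (Sum.inr (c, i')) ↔ bit3 e0 e1 e2 j = true) := by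
    intro j hj hj2 hpr
    rw [← he j hj hj2]
    rcases pr_iff.1 hpr with ⟨rfl, rfl⟩ | ⟨rfl, rfl⟩
    · rfl
    · exact G.adj_comm _ _
  cases hty : (g c).1
  · rw [hty] at hst1 hst2 hopt
    have q0 := hopt 0 (by simp) (by simp)
    have q1 := hopt 1 (by simp) (by simp)
    simp only [endp, if_false, if_true, bit3, Bool.false_eq_true, Nat.mul_zero, Nat.mul_one,
      Nat.zero_add, one_ne_zero] at q0 q1
    simp only [opt, frc, Bool.false_eq_true, if_false] at hst1 hst2
    simp only [ring, Bool.false_eq_true, if_false]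
    by_cases p0 : pr 0 1 i i' = true
    · rw [q0 p0]
      rw [pr_iff] at p0
      rcases p0 with ⟨rfl, rfl⟩ | ⟨rfl, rfl⟩ <;> simp [pr]
    by_cases p1 : pr 2 3 i i' = true
    · rw [q1 p1]
      rw [pr_iff] at p1
      rcases p1 with ⟨rfl, rfl⟩ | ⟨rfl, rfl⟩ <;> simp [pr]
    simp only [Bool.not_eq_true] at p0 p1
    simp only [p0, p1, Bool.false_or, Bool.false_and, Bool.false_eq_true, if_false] at hst1 hst2 ⊢
    by_cases p2 : (pr 1 2 i i' || (pr 3 4 i i' || pr 4 0 i i')) = true
    · simp only [p2, iff_true]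
      exact hst1 (by simp [p2])
    · simp only [p2, iff_false, Bool.false_eq_true]
      exact hst2 (by simp [p2])
  · rw [hty] at hst1 hst2 hopt
    have q0 := hopt 0 (by simp) (by simp)
    have q1 := hopt 1 (by simp) (by simp)
    have q2 := hopt 2 (by simp) (by simp)
    simp only [endp, if_false, if_true, bit3, Bool.false_eq_true, Nat.mul_zero, Nat.mul_one,
      Nat.zero_add, one_ne_zero, Nat.one_mod, Nat.reduceMod, Nat.reduceAdd, OfNat.ofNat_ne_zero,
      OfNat.ofNat_ne_one] at q0 q1 q2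
    simp only [opt, frc, if_true] at hst1 hst2
    simp only [ring, if_true]
    by_cases p0 : pr 0 1 i i' = true
    · rw [q0 p0]
      rw [pr_iff] at p0
      rcases p0 with ⟨rfl, rfl⟩ | ⟨rfl, rfl⟩ <;> simp [pr]
    by_cases p1 : pr 1 2 i i' = true
    · rw [q1 p1]
      rw [pr_iff] at p1
      rcases p1 with ⟨rfl, rfl⟩ | ⟨rfl, rfl⟩ <;> simp [pr]
    by_cases p2 : pr 2 0 i i' = true
    · rw [q2 p2]
      rw [pr_iff] at p2
      rcases p2 with ⟨rfl, rfl⟩ | ⟨rfl, rfl⟩ <;> simp [pr]
    simp only [Bool.not_eq_true] at p0 p1 p2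
    simp only [p0, p1, p2, Bool.false_or, Bool.false_and, Bool.false_eq_true, if_false] at hst1 hst2 ⊢
    simp only [iff_false]
    exact hst2 (by simp)

theorem emb_adj
    (h1 : ∀ u v, ValidV n M u → ValidV n M v → u ≠ v → stH one g u v = 1 → G.Adj u v)
    (h2 : ∀ u v, ValidV n M u → ValidV n M v → u ≠ v → stH one g u v = 2 → ¬ G.Adj u v)
    {c : ℕ} (hc : c < M) (hd : DistinctG (g c))
    (hvar : ∀ j ∈ [0, 1, 2], ((g c).1 = false → j ≠ 2) → vr (g c) j < n)
    (hxp : xp < n) (hxp3 : posn (g c) xp = 3) (y0 y1 y2 e0 e1 e2 : Bool)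
    (hy : ∀ j ∈ [0, 1, 2], ((g c).1 = false → j ≠ 2) →
      (G.Adj (Sum.inl (false, vr (g c) j)) (Sum.inl (true, vr (g c) j)) ↔
        bit3 y0 y1 y2 j = true))
    (he : ∀ j ∈ [0, 1, 2], ((g c).1 = false → j ≠ 2) →
      (G.Adj (Sum.inr (c, endp (g c).1 false j)) (Sum.inr (c, endp (g c).1 true j)) ↔
        bit3 e0 e1 e2 j = true)) {u v : LV} (hu : okL (g c).1 u = true) (hv : okL (g c).1 v = true) :
    G.Adj (emb g xp c u) (emb g xp c v) ↔ adjL (g c).1 y0 y1 y2 e0 e1 e2 u v = true := by
  have h3' : ∀ j, j < 3 → j ∈ [0, 1, 2] := by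
    intro j hj
    interval_cases j <;> simp
  have hok : ∀ a : Bool × ℕ, okL (g c).1 (Sum.inl a) = true →
      (a.2 < 3 ∧ ((g c).1 = false → a.2 ≠ 2)) ∨ (a.2 = 3 ∧ a.1 = false) := by
    intro a ha
    simp only [okL, Sum.elim_inl, Bool.or_eq_true, Bool.and_eq_true, decide_eq_true_eq,
      Bool.not_eq_true', decide_eq_false_iff_not] at ha
    rcases ha with ⟨h, h'⟩ | h
    · left
      refine ⟨h, fun hty => ?_⟩
      rcases h' with h' | h'
      · rw [hty] at h'
        exact absurd h' (by simp)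
      · exact h'
    · exact Or.inr h
  have hvalid : ∀ a : Bool × ℕ, okL (g c).1 (Sum.inl a) = true →
      (if a.2 = 3 then xp else vr (g c) a.2) < n := by
    intro a ha
    rcases hok a ha with ⟨h, h'⟩ | h
    · rw [if_neg (by omega)]
      exact hvar _ (h3' _ h) h'
    · rw [if_pos h.1]
      exact hxp
  have hposn : ∀ a : Bool × ℕ, okL (g c).1 (Sum.inl a) = true →
      posn (g c) (if a.2 = 3 then xp else vr (g c) a.2) = a.2 := by
    intro a ha
    rcases hok a ha with ⟨h, h'⟩ | h
    · rw [if_neg (by omega)]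
      exact posn_vr hd h h'
    · rw [if_pos h.1, hxp3, h.1]
  have hlr : ∀ (a : Bool × ℕ) (i : ℕ), okL (g c).1 (Sum.inl a) = true →
      okL (g c).1 (Sum.inr i) = true →
      (G.Adj (emb g xp c (Sum.inl a)) (emb g xp c (Sum.inr i)) ↔
        (decide (a.2 = 3) || (decide (i = endp (g c).1 a.1 a.2) || decide (i = 5 + a.2))) = true) := by
    intro a i ha hi
    have hi8 : i < 8 := by simpa [okL] using hi
    have va : ValidV n M (emb g xp c (Sum.inl a)) := hvalid a ha
    have vi : ValidV n M (emb g xp c (Sum.inr i)) := ⟨hc, hi8⟩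
    have hne : emb g xp c (Sum.inl a) ≠ emb g xp c (Sum.inr i) := by simp [emb]
    have g1 := h1 _ _ va vi hne
    have g2 := h2 _ _ va vi hne
    have hst : stH one g (emb g xp c (Sum.inl a)) (emb g xp c (Sum.inr i)) =
        if (decide (a.2 = 3) || (decide (i = endp (g c).1 a.1 a.2) || decide (i = 5 + a.2))) = true
          then 1 else 2 := by
      simp only [stH, emb, Sum.elim_inl, Sum.elim_inr, att, hposn a ha]
    rw [hst] at g1 g2
    by_cases hb : (decide (a.2 = 3) || (decide (i = endp (g c).1 a.1 a.2) ||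
        decide (i = 5 + a.2))) = true
    · rw [if_pos hb] at g1
      exact iff_of_true (g1 rfl) hb
    · rw [if_neg hb] at g2
      exact iff_of_false (g2 rfl) hb
  rcases u with a | i <;> rcases v with b | i'
  · -- two variable vertices
    by_cases hab : a.2 = b.2
    · by_cases hs : a.1 = b.1
      · have : a = b := Prod.ext hs hab
        subst this
        simp [adjL]
      · have ha3 : ¬ (a.2 = 3) := by
          intro h
          have := (hok a hu).resolve_left (by omega)
          have h' := (hok b hv).resolve_left (by omega)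
          exact hs (this.2.trans h'.2.symm)
        have ha := (hok a hu).resolve_right (fun h => ha3 h.1)
        have key := hy a.2 (h3' _ ha.1) ha.2
        have hadj : adjL (g c).1 y0 y1 y2 e0 e1 e2 (Sum.inl a) (Sum.inl b) =
            bit3 y0 y1 y2 a.2 := by
          simp [adjL, hab, hs]
        rw [hadj, ← key]
        have hb3 : ¬ (b.2 = 3) := by rwa [← hab]
        simp only [emb, Sum.elim_inl, if_neg ha3, if_neg hb3]
        obtain ⟨a1, a2⟩ := a
        obtain ⟨b1, b2⟩ := b
        simp only at hab hs ⊢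
        subst hab
        cases a1 <;> cases b1
        · exact absurd rfl hs
        · exact Iff.rfl
        · exact G.adj_comm _ _
        · exact absurd rfl hs
    · have hadj : adjL (g c).1 y0 y1 y2 e0 e1 e2 (Sum.inl a) (Sum.inl b) = false := by
        simp [adjL, hab]
      rw [hadj]
      simp only [Bool.false_eq_true, iff_false]
      have hxx : (if a.2 = 3 then xp else vr (g c) a.2) ≠ (if b.2 = 3 then xp else vr (g c) b.2) := by
        intro h
        have := congrArg (posn (g c)) h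
        rw [hposn a hu, hposn b hv] at this
        exact hab this
      have va : ValidV n M (emb g xp c (Sum.inl a)) := hvalid a hu
      have vb : ValidV n M (emb g xp c (Sum.inl b)) := hvalid b hv
      apply h2 _ _ va vb
      · intro h
        simp only [emb, Sum.elim_inl, Sum.inl.injEq, Prod.mk.injEq] at h
        exact hxx h.2
      · simp only [emb, stH, Sum.elim_inl, if_neg hxx]
  · exact hlr a i' hu hv
  · rw [G.adj_comm]
    exact hlr b i hv hu
  · have hi8 : i < 8 := by simpa [okL] using hu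
    have hi8' : i' < 8 := by simpa [okL] using hv
    exact ring_adj h1 h2 hc e0 e1 e2 he hi8 hi8'

theorem sound
    (h1 : ∀ u v, ValidV n M u → ValidV n M v → u ≠ v → stH one g u v = 1 → G.Adj u v)
    (h2 : ∀ u v, ValidV n M u → ValidV n M v → u ≠ v → stH one g u v = 2 → ¬ G.Adj u v)
    (hgood : ∀ T : Finset HV, (∀ v ∈ T, ValidV n M v) → Good G T)
    {c : ℕ} (hc : c < M) (hd : DistinctG (g c))
    (hvar : ∀ j ∈ [0, 1, 2], ((g c).1 = false → j ≠ 2) → vr (g c) j < n)
    (hxp : xp < n) (hxp3 : posn (g c) xp = 3) (y : ℕ → Bool)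
    (hy : ∀ x, G.Adj (Sum.inl (false, x)) (Sum.inl (true, x)) ↔ y x = true) :
    SatG (g c) y = true := by
  classical
  set y0 := y (g c).2.1 with hy0
  set y1 := y (g c).2.2.1 with hy1
  set y2 := y (g c).2.2.2 with hy2
  let e : ℕ → Bool := fun j =>
    decide (G.Adj (Sum.inr (c, endp (g c).1 false j)) (Sum.inr (c, endp (g c).1 true j)))
  have he : ∀ j ∈ [0, 1, 2], ((g c).1 = false → j ≠ 2) →
      (G.Adj (Sum.inr (c, endp (g c).1 false j)) (Sum.inr (c, endp (g c).1 true j)) ↔
        bit3 (e 0) (e 1) (e 2) j = true) := by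
    intro j hj _
    have : j = 0 ∨ j = 1 ∨ j = 2 := by simpa using hj
    rcases this with rfl | rfl | rfl <;> simp [bit3, e]
  have hy' : ∀ j ∈ [0, 1, 2], ((g c).1 = false → j ≠ 2) →
      (G.Adj (Sum.inl (false, vr (g c) j)) (Sum.inl (true, vr (g c) j)) ↔
        bit3 y0 y1 y2 j = true) := by
    intro j _ _
    rw [hy, hy0, hy1, hy2, bit3_vr]
  have hnohole : ∀ (l : List LV) (m : ℕ), 2 ≤ m → l.length = 2 * m + 1 →
      isHoleL (g c).1 y0 y1 y2 (e 0) (e 1) (e 2) l = true → False := by
    intro l m hm hlen hl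
    simp only [isHoleL, Bool.and_eq_true, List.all_eq_true, List.mem_range] at hl
    obtain ⟨hok, hadj⟩ := hl
    have hmem : ∀ i, i < l.length → okL (g c).1 (l.getD i (Sum.inr 0)) = true := by
      intro i hi
      apply hok
      rw [List.getD_eq_getElem _ _ hi]
      exact List.getElem_mem hi
    have hvalid : ∀ u : LV, okL (g c).1 u = true → ValidV n M (emb g xp c u) := by
      rintro (a | i) h
      · simp only [okL, Sum.elim_inl, Bool.or_eq_true, Bool.and_eq_true, decide_eq_true_eq,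
          Bool.not_eq_true', decide_eq_false_iff_not] at h
        simp only [ValidV, emb, Sum.elim_inl]
        split_ifs with h3
        · exact hxp
        · have h4 := h.resolve_right (fun h' => h3 h'.1)
          apply hvar
          · have : a.2 < 3 := h4.1
            interval_cases a.2 <;> simp
          · intro hty
            rcases h4.2 with h5 | h5
            · rw [hty] at h5
              exact absurd h5 (by simp)
            · exact h5
      · exact ⟨hc, by simpa [okL] using h⟩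
    refine not_hole (G := G) (l := m) hm (f := fun i => emb g xp c (l.getD i (Sum.inr 0))) ?_ ?_
    · apply hgood
      intro v hv
      obtain ⟨i, hi, rfl⟩ := mem_image.1 hv
      exact hvalid _ (hmem i (by rw [hlen]; exact mem_range.1 hi))
    · intro i hi j hj
      rw [← hlen] at hi hj
      rw [emb_adj h1 h2 hc hd hvar hxp hxp3 y0 y1 y2 (e 0) (e 1) (e 2) hy' he (hmem i hi) (hmem j hj)]
      have := hadj i hi j hj
      rw [beq_iff_eq] at this
      rw [this, hlen]
      simp
  have hye : ∀ j ∈ [0, 1, 2], ((g c).1 = false → j ≠ 2) →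
      bit3 (e 0) (e 1) (e 2) j = bit3 y0 y1 y2 j := by
    intro j hj hj2
    by_contra hne
    cases h3 : bit3 y0 y1 y2 j
    · have h4 : bit3 (e 0) (e 1) (e 2) j = true := by
        cases h5 : bit3 (e 0) (e 1) (e 2) j
        · exact absurd (h5.trans h3.symm) hne
        · rfl
      exact hnohole (holeQ (g c).1 j) 2 le_rfl rfl (holeQ_spec _ _ _ _ _ _ _ j hj hj2 h3 h4)
    · have h4 : bit3 (e 0) (e 1) (e 2) j = false := by
        cases h5 : bit3 (e 0) (e 1) (e 2) j
        · rfl
        · exact absurd (h5.trans h3.symm) hne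
      exact hnohole (holeP (g c).1 j) 2 le_rfl rfl (holeP_spec _ _ _ _ _ _ _ j hj hj2 h3 h4)
  have q0 : e 0 = y0 := by simpa [bit3] using hye 0 (by simp) (by simp)
  have q1 : e 1 = y1 := by simpa [bit3] using hye 1 (by simp) (by simp)
  have q2 : (g c).1 = true → e 2 = y2 := by
    intro hty
    simpa [bit3] using hye 2 (by simp) (fun h => by rw [hty] at h; exact absurd h (by simp))
  by_contra hcon
  have hcon' : satG (g c).1 y0 y1 y2 = false := by
    cases h : satG (g c).1 y0 y1 y2
    · rfl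
    · exact absurd h hcon
  obtain ⟨_, _, m, hm, hlen⟩ := hole_length (g c).1 y0 y1 0
  have := holeBad_spec (g c).1 y0 y1 y2 (e 2) hcon' q2
  exact hnohole _ m hm hlen (by rw [q0, q1]; exact this)

end Sound

end Pool.Agent.H418R2.Perf
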